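import Pool.Agent.Helper70_rk1.Main

/-!
# Idempotent correspondences of rank one
-/

open CategoryTheory AlgebraicGeometry TensorProduct

universe u v

namespace Pool.Agent.Helper70Rk

set_option linter.unusedSectionVars false
set_option linter.unusedVariables false

open Pool.Agent.H914 Pool.Agent.H914.VarClass Pool.Agent.H914.VarClass.Obj
  Pool.Agent.H914.WeilCohomology Pool.Agent.Y121.AHS Pool.Agent.R908 Module
open Pool.Agent.Y133.Half (pw)

variable {k : Type u} [Field k] {𝒱 : VarClass k} {ops : CycleOps 𝒱}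

section Gen

variable {W : WeilCohomology.{u, v} ops} {X Y : 𝒱.Obj}

/-- A class on the product which induces the zero operator vanishes. -/
lemma corr_inj' {c : W.H (X.prod Y)} (h : W.corr c = 0) : c = 0 := by
  apply W.nondeg
  intro d
  refine W.kunneth_induction (p := fun d => W.tr (X.prod Y) (c * d) = 0) ?_ ?_ d
  · intro a b ha hb
    rw [mul_add, map_add, ha, hb, add_zero]
  · intro i j a _ b _
    rw [← mul_assoc, ← W.tr_push]
    have h1 := congrArg (fun F => F a) h
    rw [corr_apply, LinearMap.zero_apply] at h1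
    rw [h1, zero_mul, map_zero]

/-- Every linear form is given by a class. -/
lemma exists_form (φ : W.H X →ₗ[W.K] W.K) : ∃ w : W.H X, ∀ x, φ x = W.tr X (w * x) := by
  set β : W.H X →ₗ[W.K] Module.Dual W.K (W.H X) := (LinearMap.mul W.K (W.H X)).compr₂ (W.tr X)
  have hβ : ∀ a b, β a b = W.tr X (a * b) := fun a b => rfl
  have hinj : Function.Injective β := by
    rw [← LinearMap.ker_eq_bot, LinearMap.ker_eq_bot']
    intro a ha
    apply W.nondeg
    intro b
    rw [← hβ, ha]
    rfl
  have hsurj : Function.Surjective β :=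
    (LinearMap.injective_iff_surjective_of_finrank_eq_finrank
      (by rw [Subspace.dual_finrank_eq])).1 hinj
  obtain ⟨w, hw⟩ := hsurj φ
  exact ⟨w, fun x => by rw [← hw, hβ]⟩

/-- The shape of an idempotent correspondence of rank one. -/
theorem rank_one_form {z : (Y.prod Y).Cycles} (hz : (Y.prod Y).IsCyc Y.dim z)
    (hid : IsIdempotentElem (M := Module.End W.K (W.H Y)) (W.corr (W.cl (Y.prod Y) z)))
    (hr : Module.finrank W.K (LinearMap.range (W.corr (W.cl (Y.prod Y) z))) = 1) :
    ∃ (i : ℕ) (v w : W.H Y), i ≤ 2 * Y.dim ∧ v ≠ 0 ∧ w ≠ 0 ∧ v ∈ W.gr Y i ∧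
      w ∈ W.gr Y (2 * Y.dim - i) ∧ W.tr Y (w * v) = 1 ∧
      (∀ x, W.corr (W.cl (Y.prod Y) z) x = W.tr Y (w * x) • v) ∧
      W.map (fst Y Y) w * W.map (snd Y Y) v = (-1 : W.K) ^ i • W.cl (Y.prod Y) z := by
  set P : W.H Y →ₗ[W.K] W.H Y := W.corr (W.cl (Y.prod Y) z) with hP
  have hPP : ∀ x, P (P x) = P x := fun x => LinearMap.congr_fun hid x
  -- degrees
  have hdeg : ∀ i, ∀ x ∈ W.gr Y i, P x ∈ W.gr Y i := by
    intro i x hx
    have h1 := W.corr_isHom (W.cl_mem hz) i x (by rw [grZ_natCast]; exact hx)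
    rwa [sub_self, mul_zero, add_zero, grZ_natCast] at h1
  have hproj : ∀ i x, P (Pool.Agent.H914.proj (W.isInternal Y) i x) =
      Pool.Agent.H914.proj (W.isInternal Y) i (P x) := by
    intro i x
    refine gr_induction (W.isInternal Y)
      (p := fun x => P (Pool.Agent.H914.proj (W.isInternal Y) i x) =
        Pool.Agent.H914.proj (W.isInternal Y) i (P x)) ?_ ?_ x
    · intro j a ha
      by_cases h : j = i
      · subst h
        rw [proj_same _ ha, proj_same _ (hdeg _ _ ha)]
      · rw [proj_ne _ ha h, proj_ne _ (hdeg _ _ ha) h, map_zero]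
    · intro a b ha hb
      rw [map_add, map_add, ha, hb, map_add, map_add]
  obtain ⟨⟨v₀, y₀, hy₀⟩, hv₀, hspan⟩ := finrank_eq_one_iff'.1 hr
  have hspan' : ∀ x, ∃ c : W.K, P x = c • v₀ := by
    intro x
    obtain ⟨c, hc⟩ := hspan ⟨P x, x, rfl⟩
    exact ⟨c, (congrArg Subtype.val hc).symm⟩
  have hv₀' : v₀ ≠ 0 := fun h => hv₀ (Subtype.ext h)
  have hPv₀ : P v₀ = v₀ := by rw [← hy₀, hPP]
  -- a homogeneous generator
  obtain ⟨i, hi⟩ : ∃ i, Pool.Agent.H914.proj (W.isInternal Y) i v₀ ≠ 0 := by
    by_contra hcon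
    push Not at hcon
    apply hv₀'
    have h1 : ∀ x : W.H Y, (∀ i, Pool.Agent.H914.proj (W.isInternal Y) i x = 0) → x = 0 := by
      intro x hx
      have := sum_proj (W.isInternal Y) (N := 2 * Y.dim + 1)
        (fun i hi => W.gr_eq_bot Y i (by omega))
      have h2 := congrArg (fun F => F x) this
      simp only [LinearMap.sum_apply, hx, Finset.sum_const_zero] at h2
      exact h2.symm
    exact h1 v₀ hcon
  set v := Pool.Agent.H914.proj (W.isInternal Y) i v₀ with hv
  have hvi : v ∈ W.gr Y i := proj_mem _ _ _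
  have hPv : P v = v := by rw [hv, hproj, hPv₀]
  have hi2 : i ≤ 2 * Y.dim := by
    by_contra hcon
    rw [W.gr_eq_bot Y i (by omega)] at hvi
    exact hi ((Submodule.mem_bot _).1 hvi)
  have hspan2 : ∀ x, ∃ c : W.K, P x = c • v := by
    intro x
    obtain ⟨a, ha⟩ := hspan' v
    obtain ⟨c, hc⟩ := hspan' x
    have ha0 : a ≠ 0 := by
      rintro rfl
      rw [zero_smul, hPv] at ha
      exact hi ha
    refine ⟨c * a⁻¹, ?_⟩
    rw [hPv] at ha
    rw [hc, ha, smul_smul, mul_assoc, inv_mul_cancel₀ ha0, mul_one]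
  obtain ⟨ψ, hψ⟩ := Module.Projective.exists_dual_eq_one W.K hi
  have hPψ : ∀ x, P x = ψ (P x) • v := by
    intro x
    obtain ⟨c, hc⟩ := hspan2 x
    rw [hc, map_smul, hψ, smul_eq_mul, mul_one]
  obtain ⟨w₀, hw₀⟩ := exists_form (ψ ∘ₗ P)
  set w := Pool.Agent.H914.proj (W.isInternal Y) (2 * Y.dim - i) w₀ with hw
  have hwi : w ∈ W.gr Y (2 * Y.dim - i) := proj_mem _ _ _
  have hvanish : ∀ j, j ≠ i → ∀ x ∈ W.gr Y j, P x = 0 := by
    intro j hj x hx
    obtain ⟨c, hc⟩ := hspan2 x
    have h1 := hdeg j x hx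
    have h2 : P x ∈ W.gr Y i := by rw [hc]; exact Submodule.smul_mem _ _ hvi
    have h3 := (W.isInternal Y).submodule_iSupIndep.pairwiseDisjoint hj
    exact (Submodule.disjoint_def.1 h3) _ h1 h2
  have htr : ∀ x, W.tr Y (w * x) = ψ (P x) := by
    intro x
    refine gr_induction (W.isInternal Y) (p := fun x => W.tr Y (w * x) = ψ (P x)) ?_ ?_ x
    · intro j a ha
      by_cases hj : j = i
      · subst hj
        have h1 : ψ (P a) = W.tr Y (w₀ * a) := hw₀ a
        rw [h1]
        have h2 : ∀ b : W.H Y, W.tr Y (Pool.Agent.H914.proj (W.isInternal Y) (2 * Y.dim - j) b * a) =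
            W.tr Y (b * a) := by
          intro b
          refine gr_induction (W.isInternal Y) (p := fun b =>
            W.tr Y (Pool.Agent.H914.proj (W.isInternal Y) (2 * Y.dim - j) b * a) =
              W.tr Y (b * a)) ?_ ?_ b
          · intro l b hb
            by_cases hl : l = 2 * Y.dim - j
            · subst hl; rw [proj_same _ hb]
            · rw [proj_ne _ hb hl, zero_mul, map_zero,
                W.tr_eq_zero (W.mul_mem hb ha) (by omega)]
          · intro b b' hb hb'
            rw [map_add, add_mul, add_mul, map_add, map_add, hb, hb']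
        exact h2 w₀
      · rw [hvanish j hj a ha, map_zero]
        by_cases hj2 : j ≤ 2 * Y.dim
        · exact W.tr_eq_zero (W.mul_mem hwi ha) (by omega)
        · rw [W.gr_eq_bot Y j (by omega)] at ha
          rw [(Submodule.mem_bot _).1 ha, mul_zero, map_zero]
    · intro a b ha hb
      rw [mul_add, map_add, map_add, map_add, ha, hb]
  have hform : ∀ x, P x = W.tr Y (w * x) • v := fun x => by rw [htr, ← hPψ]
  have h1 : W.tr Y (w * v) = 1 := by rw [htr, hPv, hψ]
  refine ⟨i, v, w, hi2, hi, ?_, hvi, hwi, h1, hform, ?_⟩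
  · intro h2
    rw [h2, zero_mul, map_zero] at h1
    exact zero_ne_one h1
  · rw [← sub_eq_zero]
    apply corr_inj'
    apply gr_ext (W.isInternal Y)
    intro j x hx
    rw [LinearMap.zero_apply, corr_apply, sub_mul, map_sub, sub_eq_zero]
    have h2 : W.push (snd Y Y) ((-1 : W.K) ^ i • W.cl (Y.prod Y) z * W.map (fst Y Y) x) =
        (-1 : W.K) ^ i • P x := by
      rw [smul_mul_assoc, map_smul]
      rfl
    rw [h2, mul_assoc, W.comm (W.map_mem (snd Y Y) hvi) (W.map_mem (fst Y Y) hx), mul_smul_comm,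
      map_smul, ← mul_assoc, ← map_mul, W.push_snd, hform]
    by_cases hj : j = i
    · subst hj
      congr 1
      rcases Nat.even_or_odd j with h | h
      · rw [h.neg_one_pow, (h.mul_left j).neg_one_pow]
      · rw [h.neg_one_pow, (h.mul h).neg_one_pow]
    · have h3 : W.tr Y (w * x) = 0 := by rw [htr, hvanish j hj x hx, map_zero]
      rw [h3, zero_smul, smul_zero, smul_zero]

/-- The span of the classes of the cycles of a given codimension. -/
noncomputable def AlgIn (W : WeilCohomology.{u, v} ops) (X : 𝒱.Obj) (i : ℕ) :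
    Submodule W.K (W.H X) :=
  Submodule.span W.K {c | ∃ (j : ℕ) (z : X.Cycles), 2 * j = i ∧ X.IsCyc j z ∧ W.cl X z = c}

/-- The homogeneous components of a combination of classes of cycles. -/
lemma alg_hom {x : W.H X} (hx : x ∈ Alg W X) {i : ℕ} (hi : x ∈ W.gr X i) : x ∈ AlgIn W X i := by
  have h1 : ∀ x ∈ Alg W X, Pool.Agent.H914.proj (W.isInternal X) i x ∈ AlgIn W X i := by
    intro x hx
    induction hx using Submodule.span_induction with
    | mem x hx =>
      obtain ⟨j, z, hz, rfl⟩ := hx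
      by_cases h : 2 * j = i
      · have h2 := W.cl_mem hz
        rw [h] at h2
        rw [proj_same _ h2]
        exact Submodule.subset_span ⟨j, z, h, hz, rfl⟩
      · rw [proj_ne _ (W.cl_mem hz) h]
        exact Submodule.zero_mem _
    | zero => rw [map_zero]; exact Submodule.zero_mem _
    | add x y _ _ hx hy => rw [map_add]; exact Submodule.add_mem _ hx hy
    | smul c x _ hx => rw [map_smul]; exact Submodule.smul_mem _ _ hx
  have h2 := h1 x hx
  rwa [proj_same _ hi] at h2

/-- Classes in the span of the cycles are classes of cycles, if the coefficients are rational. -/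
lemma alg_cycle (hrat : ∀ r : W.K, ∃ q : ℚ, (q : W.K) = r) {x : W.H X} {i : ℕ}
    (hx : x ∈ AlgIn W X i) (h0 : x ≠ 0) : ∃ (j : ℕ) (z : X.Cycles), 2 * j = i ∧ X.IsCyc j z ∧
      W.cl X z = x := by
  have h1 : ∀ x ∈ AlgIn W X i, x = 0 ∨ ∃ (j : ℕ) (z : X.Cycles), 2 * j = i ∧ X.IsCyc j z ∧
      W.cl X z = x := by
    intro x hx
    induction hx using Submodule.span_induction with
    | mem x hx => exact Or.inr hx
    | zero => exact Or.inl rfl
    | add x y _ _ hx hy =>
      rcases hx with rfl | ⟨j, z, hj, hz, rfl⟩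
      · rw [zero_add]; exact hy
      · rcases hy with rfl | ⟨j', z', hj', hz', rfl⟩
        · rw [add_zero]; exact Or.inr ⟨j, z, hj, hz, rfl⟩
        · have : j' = j := by omega
          subst this
          exact Or.inr ⟨j', z + z', hj, hz.add hz', map_add _ _ _⟩
    | smul c x _ hx =>
      rcases hx with rfl | ⟨j, z, hj, hz, rfl⟩
      · left; rw [smul_zero]
      · obtain ⟨q, rfl⟩ := hrat c
        exact Or.inr ⟨j, q • z, hj, hz.smul q, W.cl_smul q z⟩
  exact (h1 x hx).resolve_left h0

end Gen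

section Desc

variable {T : HodgeTheory ops} {X Y A : 𝒱.Obj}

/-- Descent of the coefficients. -/
lemma algIn_desc {x : T.W.H X} {i : ℕ} (h : em T x ∈ AlgIn (VC T) X i) : x ∈ AlgIn T.W X i := by
  have h1 : ∀ y : (VC T).H X, y ∈ AlgIn (VC T) X i →
      (show ℂ ⊗[T.W.K] T.W.H X from y) ∈ (AlgIn T.W X i).baseChange ℂ := by
    intro y hy
    induction hy using Submodule.span_induction with
    | mem y hy =>
      obtain ⟨j, z, hj, hz, rfl⟩ := hy
      exact Submodule.tmul_mem_baseChange_of_mem (p := AlgIn T.W X i) (1 : ℂ)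
        (Submodule.subset_span ⟨j, z, hj, hz, rfl⟩)
    | zero => exact Submodule.zero_mem _
    | add x y _ _ hx hy => exact Submodule.add_mem _ hx hy
    | smul c x _ hx => exact Submodule.smul_mem _ _ hx
  by_contra hc
  obtain ⟨φ, h2, h3⟩ := Submodule.exists_le_ker_of_notMem hc
  have h4 : ∀ y ∈ (AlgIn T.W X i).baseChange ℂ, φ.baseChange ℂ y = 0 := by
    intro y hy
    rw [Submodule.baseChange_eq_span] at hy
    induction hy using Submodule.span_induction with
    | mem y hy =>
      obtain ⟨a, ha, rfl⟩ := hy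
      rw [TensorProduct.mk_apply, LinearMap.baseChange_tmul, show φ a = 0 from h3 ha,
        TensorProduct.tmul_zero]
    | zero => rw [map_zero]
    | add x y _ _ hx hy => rw [map_add, hx, hy, add_zero]
    | smul c x _ hx => rw [map_smul, hx, smul_zero]
  have h5 := h4 _ (h1 _ h)
  have h6 : φ.baseChange ℂ ((1 : ℂ) ⊗ₜ[T.W.K] x) = 0 := h5
  rw [LinearMap.baseChange_tmul] at h6
  have h7 := congrArg (TensorProduct.rid T.W.K ℂ) h6
  rw [TensorProduct.rid_tmul, map_zero, Algebra.smul_def, mul_one] at h7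
  exact h2 ((map_eq_zero (algebraMap T.W.K ℂ)).1 h7)

end Desc

end Pool.Agent.Helper70Rk
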