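import Pool.Agent.Helper70_rk1.Poly
import Pool.Agent.H914R2.WBase2
import Pool.Agent.R908.AbDefs

/-!
# Spans of classes of cycles, and words
-/

open CategoryTheory AlgebraicGeometry

universe u v

namespace Pool.Agent.Helper70Rk

open Pool.Agent.H914 Pool.Agent.H914.VarClass Pool.Agent.H914.VarClass.Obj
  Pool.Agent.H914.WeilCohomology Pool.Agent.R908

variable {k : Type u} [Field k] {𝒱 : VarClass k} {ops : CycleOps 𝒱}
  {V : WeilCohomology.{u, v} ops} {X Y Z A : 𝒱.Obj}

/-- The span of the classes of the cycles of all codimensions. -/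
noncomputable def Alg (V : WeilCohomology.{u, v} ops) (Z : 𝒱.Obj) : Submodule V.K (V.H Z) :=
  Submodule.span V.K {c | ∃ (j : ℕ) (z : Z.Cycles), Z.IsCyc j z ∧ V.cl Z z = c}

lemma Alg.cl {j : ℕ} {z : Z.Cycles} (hz : Z.IsCyc j z) : V.cl Z z ∈ Alg V Z :=
  Submodule.subset_span ⟨j, z, hz, rfl⟩

lemma Alg.one : (1 : V.H Z) ∈ Alg V Z := by
  rw [← V.cl_fund]
  exact Alg.cl Z.V.fundCycle_mem

lemma Alg.map (f : X ⟶ Y) {x : V.H Y} (hx : x ∈ Alg V Y) : V.map f x ∈ Alg V X := by
  induction hx using Submodule.span_induction with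
  | mem x hx =>
    obtain ⟨j, z, hz, rfl⟩ := hx
    rw [← V.cl_pull]
    exact Alg.cl (ops.pull_mem f hz)
  | zero => rw [map_zero]; exact Submodule.zero_mem _
  | add x y _ _ hx hy => rw [map_add]; exact Submodule.add_mem _ hx hy
  | smul c x _ hx => rw [map_smul]; exact Submodule.smul_mem _ _ hx

lemma Alg.mul {x y : V.H Z} (hx : x ∈ Alg V Z) (hy : y ∈ Alg V Z) : x * y ∈ Alg V Z := by
  induction hx using Submodule.span_induction with
  | mem x hx =>
    obtain ⟨j, z, hz, rfl⟩ := hx
    induction hy using Submodule.span_induction with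
    | mem y hy =>
      obtain ⟨i, w, hw, rfl⟩ := hy
      rw [← V.cl_mul]
      exact Alg.cl (ops.mul_mem hz hw)
    | zero => rw [mul_zero]; exact Submodule.zero_mem _
    | add x y _ _ hx hy => rw [mul_add]; exact Submodule.add_mem _ hx hy
    | smul c x _ hx => rw [mul_smul_comm]; exact Submodule.smul_mem _ _ hx
  | zero => rw [zero_mul]; exact Submodule.zero_mem _
  | add x y _ _ hx hy => rw [add_mul]; exact Submodule.add_mem _ hx hy
  | smul c x _ hx => rw [smul_mul_assoc]; exact Submodule.smul_mem _ _ hx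

lemma Alg.push (f : X ⟶ Y) {x : V.H X} (hx : x ∈ Alg V X) : V.push f x ∈ Alg V Y := by
  induction hx using Submodule.span_induction with
  | mem x hx =>
    obtain ⟨j, z, hz, rfl⟩ := hx
    by_cases h : X.dim ≤ j + Y.dim
    · rw [← V.cl_push]
      exact Alg.cl (ops.push_mem f (q := j + Y.dim - X.dim) hz (by omega))
    · have h1 := V.push_mem f (V.cl_mem hz)
      rw [grZ_of_neg (by push_cast; omega)] at h1
      rw [(Submodule.mem_bot _).1 h1]
      exact Submodule.zero_mem _
  | zero => rw [map_zero]; exact Submodule.zero_mem _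
  | add x y _ _ hx hy => rw [map_add]; exact Submodule.add_mem _ hx hy
  | smul c x _ hx => rw [map_smul]; exact Submodule.smul_mem _ _ hx

/-- Classes of degree one anticommute. -/
lemma anti {a b : V.H Z} (ha : a ∈ V.gr Z 1) (hb : b ∈ V.gr Z 1) : a * b = -(b * a) := by
  rw [V.comm ha hb, one_mul, pow_one, neg_one_smul]

lemma sq_zero {a : V.H Z} (ha : a ∈ V.gr Z 1) : a * a = 0 := by
  have h := anti ha ha
  have h2 : (2 : V.K) • (a * a) = 0 := by
    rw [two_smul]
    nth_rewrite 1 [h]
    exact neg_add_cancel _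
  exact (smul_eq_zero.1 h2).resolve_left two_ne_zero

/-- The product of classes of degree one does not depend on the order, up to sign. -/
lemma word_perm {l l' : List (V.H Z)} (h : l.Perm l') (hl : ∀ x ∈ l, x ∈ V.gr Z 1) :
    ∃ s : V.K, s ≠ 0 ∧ l.prod = s • l'.prod := by
  induction h with
  | nil => exact ⟨1, one_ne_zero, (one_smul _ _).symm⟩
  | cons x _ ih =>
    obtain ⟨s, hs, e⟩ := ih fun y hy => hl y (List.mem_cons_of_mem _ hy)
    exact ⟨s, hs, by rw [List.prod_cons, List.prod_cons, e, mul_smul_comm]⟩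
  | swap x y l =>
    refine ⟨-1, neg_ne_zero.2 one_ne_zero, ?_⟩
    rw [List.prod_cons, List.prod_cons, List.prod_cons, List.prod_cons, ← mul_assoc,
      anti (hl y (by simp)) (hl x (by simp)), neg_one_smul, neg_mul, mul_assoc]
  | trans h1 _ ih1 ih2 =>
    obtain ⟨s, hs, e⟩ := ih1 hl
    obtain ⟨s', hs', e'⟩ := ih2 fun y hy => hl y (h1.mem_iff.2 hy)
    exact ⟨s * s', mul_ne_zero hs hs', by rw [e, e', smul_smul]⟩

/-- A product of classes of degree one with a repetition vanishes. -/
lemma word_dup {B : Type*} {x : B → V.H Z} (hx : ∀ b, x b ∈ V.gr Z 1) {L : List B}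
    (hL : ¬ L.Nodup) : (L.map x).prod = 0 := by
  classical
  obtain ⟨b, hb⟩ : ∃ b, List.Duplicate b L := by
    by_contra h
    push Not at h
    exact hL (List.nodup_iff_forall_not_duplicate.2 h)
  have h2 : 2 ≤ L.count b := List.duplicate_iff_two_le_count.1 hb
  have h3 : L.Perm (b :: b :: (L.erase b).erase b) := by
    have h4 : b ∈ L := List.count_pos_iff.1 (by omega)
    have h5 : b ∈ L.erase b := by
      apply List.count_pos_iff.1
      rw [List.count_erase_self]
      omega
    exact (List.perm_cons_erase h4).trans ((List.perm_cons_erase h5).cons b)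
  obtain ⟨s, hs, e⟩ := word_perm (h3.map x) (by
    intro y hy
    obtain ⟨c, _, rfl⟩ := List.mem_map.1 hy
    exact hx c)
  rw [e, List.map_cons, List.map_cons, List.prod_cons, List.prod_cons, ← mul_assoc,
    sq_zero (hx b), zero_mul, smul_zero]

lemma word_gr {B : Type*} {x : B → V.H Z} (hx : ∀ b, x b ∈ V.gr Z 1) (L : List B) :
    (L.map x).prod ∈ V.gr Z L.length := by
  induction L with
  | nil => exact V.one_mem Z
  | cons b L ih =>
    rw [List.map_cons, List.prod_cons, List.length_cons, add_comm]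
    exact V.mul_mem (hx b) ih

end Pool.Agent.Helper70Rk
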