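import Pool.Agent.Helper70_rk1.CMDefs

/-!
# Groups of odd order and relations
-/

namespace Pool.Agent.Helper70Rk

set_option linter.unusedSectionVars false
set_option linter.unusedVariables false

lemma sgn_mem {Φ : Set ℂ} {z : ℂ} (h : z ∈ Φ) : sgn Φ z = 1 := by
  rw [sgn, if_pos h]

lemma sgn_notMem {Φ : Set ℂ} {z : ℂ} (h : z ∉ Φ) : sgn Φ z = -1 := by
  rw [sgn, if_neg h]

lemma sgn_odd (Φ : Set ℂ) (z : ℂ) : Odd (sgn Φ z) := by
  by_cases h : z ∈ Φ
  · rw [sgn_mem h]; exact odd_one
  · rw [sgn_notMem h]; exact ⟨-1, by norm_num⟩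

lemma odd_sum {α : Type*} (F : Finset α) (e : α → ℤ) (he : ∀ a, Odd (e a)) (hF : Odd F.card) :
    ∑ a ∈ F, e a ≠ 0 := by
  classical
  have key : ∀ F : Finset α, (∑ a ∈ F, e a) % 2 = (F.card : ℤ) % 2 := by
    intro F
    induction F using Finset.induction_on with
    | empty => simp
    | insert a F ha ih =>
      rw [Finset.sum_insert ha, Finset.card_insert_of_notMem ha]
      obtain ⟨c, hc⟩ := he a
      push_cast
      omega
  intro h
  have h1 := key F
  rw [h] at h1
  obtain ⟨c, hc⟩ := hF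
  omega

/-- The size of an orbit of a finite group divides the order of the group. -/
lemma orbit_dvd {α : Type*} [Finite α] (H : Subgroup (Equiv.Perm α)) (a : α) :
    Nat.card (MulAction.orbit H a) ∣ Nat.card H := by
  have h1 := MulAction.index_stabilizer H a
  have h2 : (MulAction.orbit H a).ncard = Nat.card (MulAction.orbit H a) := rfl
  rw [← h2, ← h1]
  exact Subgroup.index_dvd_card _

/-- **Groups of odd order annihilate the relations.** -/
theorem oddAnnihilated_of {R : Finset ℂ} {Φ : Set ℂ} (hc : ConjCentral R)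
    (hconj : ∀ z ∈ R, starRingEnd ℂ z ∈ R) (hΦ : ∀ z ∈ R, starRingEnd ℂ z ∈ Φ ↔ z ∉ Φ)
    (hH : OddTransitive R) : OddAnnihilated R Φ := by
  classical
  obtain ⟨H, hHG, hodd, htr⟩ := hH
  intro a ha
  have hfin : Finite H := inferInstance
  have : Fintype H := Fintype.ofFinite H
  choose σ hσ using fun h : H => hHG h.2
  have hσR : ∀ (h : H) (z : R), σ h z = (h.1 z : ℂ) := fun h z => (hσ h z).symm
  let e := (Fintype.equivFin H).symm
  refine ⟨Fintype.card H, fun i => σ (e i), ?_, ?_⟩
  · rwa [← Nat.card_eq_fintype_card]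
  -- complex conjugation on the set
  let κ : R → R := fun z => ⟨starRingEnd ℂ z, hconj z z.2⟩
  have hκκ : ∀ z, κ (κ z) = z := fun z => Subtype.ext (Complex.conj_conj _)
  have hκh : ∀ (h : H) (z : R), κ (h.1 z) = h.1 (κ z) := by
    intro h z
    apply Subtype.ext
    change starRingEnd ℂ (h.1 z : ℂ) = (h.1 (κ z) : ℂ)
    rw [← hσR, ← hσR]
    exact (hc (σ h) z z.2).symm
  -- the sum of the conjugates
  let b : R → ℤ := fun z => ∑ h : H, a (h.1 z : ℂ)
  have hb : ∀ z : R, ∑ i, a (σ (e i) z) = b z := by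
    intro z
    rw [e.sum_comp (fun h : H => a (σ h z))]
    exact Finset.sum_congr rfl fun h _ => by rw [hσR]
  have hinv : ∀ (g : H) (z : R), b (g.1 z) = b z := by
    intro g z
    exact Fintype.sum_equiv (Equiv.mulRight g) _ _ fun h => rfl
  have hrel : ∑ w : R, b w * sgn Φ w = 0 := by
    have h1 : ∀ h : H, ∑ w : R, a (h.1 w : ℂ) * sgn Φ w = 0 := by
      intro h
      have h2 := ha (σ h).symm
      rw [← Finset.sum_coe_sort,
        ← Equiv.sum_comp h.1 (fun i : R => a (i : ℂ) * sgn Φ ((σ h).symm (i : ℂ)))] at h2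
      rw [← h2]
      refine Finset.sum_congr rfl fun w _ => ?_
      rw [← hσR, RingEquiv.symm_apply_apply]
    calc ∑ w : R, b w * sgn Φ w = ∑ w : R, ∑ h : H, a (h.1 w : ℂ) * sgn Φ w :=
          Finset.sum_congr rfl fun w _ => Finset.sum_mul _ _ _
      _ = ∑ h : H, ∑ w : R, a (h.1 w : ℂ) * sgn Φ w := Finset.sum_comm
      _ = 0 := Finset.sum_eq_zero fun h _ => h1 h
  have key : ∀ z : R, b z = b (κ z) := by
    intro z
    by_contra hne
    have h1 : ∀ w : R, b w = b z ↔ ∃ h ∈ H, h z = w := by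
      intro w
      constructor
      · intro hw
        obtain ⟨h, hh, h2 | h2⟩ := htr z w
        · exact ⟨h, hh, Subtype.ext h2⟩
        · exfalso
          apply hne
          have h3 : h z = κ w := Subtype.ext h2
          have h4 : κ (h z) = w := by rw [h3, hκκ]
          rw [← hw, ← h4]
          rw [show κ (h z) = h (κ z) from hκh ⟨h, hh⟩ z]
          exact hinv ⟨h, hh⟩ (κ z)
      · rintro ⟨h, hh, rfl⟩
        exact hinv ⟨h, hh⟩ z
    have h2 : ∀ w : R, ¬ (b w = b z) → b w = b (κ z) := by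
      intro w hw
      obtain ⟨h, hh, h2 | h2⟩ := htr z w
      · exact absurd ((h1 w).2 ⟨h, hh, Subtype.ext h2⟩) hw
      · have h3 : h z = κ w := Subtype.ext h2
        have h4 : κ (h z) = w := by rw [h3, hκκ]
        rw [← h4, show κ (h z) = h (κ z) from hκh ⟨h, hh⟩ z]
        exact hinv ⟨h, hh⟩ (κ z)
    have h3 : ∀ w : R, b w = b z → b (κ w) = b (κ z) := by
      intro w hw
      obtain ⟨h, hh, rfl⟩ := (h1 w).1 hw
      rw [show κ (h z) = h (κ z) from hκh ⟨h, hh⟩ z]
      exact hinv ⟨h, hh⟩ (κ z)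
    have h4 : ∀ w : R, ¬ (b w = b z) → b (κ w) = b z := by
      intro w hw
      obtain ⟨h, hh, h2 | h2⟩ := htr z w
      · exact absurd ((h1 w).2 ⟨h, hh, Subtype.ext h2⟩) hw
      · have h3 : h z = κ w := Subtype.ext h2
        rw [← h3]
        exact hinv ⟨h, hh⟩ z
    set F : Finset R := Finset.univ.filter fun w => b w = b z with hF
    have hFodd : Odd F.card := by
      have h5 : Nat.card (MulAction.orbit H z) = F.card := by
        have h6 : MulAction.orbit H z = (F : Set R) := by
          ext w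
          rw [MulAction.mem_orbit_iff, Finset.mem_coe, hF, Finset.mem_filter]
          constructor
          · rintro ⟨h, rfl⟩
            exact ⟨Finset.mem_univ _, (h1 _).2 ⟨h.1, h.2, rfl⟩⟩
          · rintro ⟨-, hw⟩
            obtain ⟨h, hh, h7⟩ := (h1 w).1 hw
            exact ⟨⟨h, hh⟩, h7⟩
        rw [h6]
        simp
      rw [← h5]
      obtain ⟨c, hc'⟩ := orbit_dvd H z
      rw [hc'] at hodd
      exact (Nat.odd_mul.1 hodd).1
    have hsum := odd_sum F (fun w => sgn Φ w) (fun w => sgn_odd Φ w) hFodd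
    apply hsum
    have h5 : ∑ w : R, b w * sgn Φ w = ∑ w ∈ F, b z * sgn Φ w +
        ∑ w ∈ F, b (κ z) * sgn Φ (κ w) := by
      rw [← Finset.sum_filter_add_sum_filter_not Finset.univ (fun w : R => b w = b z)]
      congr 1
      · exact Finset.sum_congr rfl fun w hw => by rw [(Finset.mem_filter.1 hw).2]
      · refine Finset.sum_bij' (fun w _ => κ w) (fun w _ => κ w) ?_ ?_ ?_ ?_ ?_
        · intro w hw
          exact Finset.mem_filter.2 ⟨Finset.mem_univ _, h4 w (Finset.mem_filter.1 hw).2⟩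
        · intro w hw
          refine Finset.mem_filter.2 ⟨Finset.mem_univ _, ?_⟩
          rw [h3 w (Finset.mem_filter.1 hw).2]
          exact fun h => hne h.symm
        · intro w _; exact hκκ w
        · intro w _; exact hκκ w
        · intro w hw
          rw [h2 w (Finset.mem_filter.1 hw).2, hκκ]
    have h6 : ∀ w : R, sgn Φ (κ w) = - sgn Φ w := by
      intro w
      by_cases hw : (w : ℂ) ∈ Φ
      · rw [sgn_mem hw, sgn_notMem]
        intro h
        exact ((hΦ w w.2).1 h) hw
      · rw [sgn_notMem hw, neg_neg, sgn_mem]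
        exact (hΦ w w.2).2 hw
    rw [hrel, ← Finset.mul_sum, ← Finset.mul_sum, Finset.sum_congr rfl fun w _ => h6 w,
      Finset.sum_neg_distrib, mul_neg, ← sub_eq_add_neg, ← sub_mul] at h5
    exact (mul_eq_zero.1 h5.symm).resolve_left (sub_ne_zero.2 hne)
  intro z hz
  rw [hb ⟨z, hz⟩, key ⟨z, hz⟩]
  exact (hb (κ ⟨z, hz⟩)).symm

end Pool.Agent.Helper70Rk
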