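import Pool.Agent.Helper70_rk1.Final
import Pool.Agent.H914R2.Cyc

/-!
# Direct factors
-/

open CategoryTheory AlgebraicGeometry TensorProduct

universe u v

namespace Pool.Agent.Helper70Rk

set_option linter.unusedSectionVars false
set_option linter.unusedVariables false

open Pool.Agent.H914 Pool.Agent.H914.VarClass Pool.Agent.H914.VarClass.Obj
  Pool.Agent.H914.WeilCohomology Pool.Agent.Y121.AHS Pool.Agent.R908 Module
open Pool.Agent.Y133.Half (pw)

variable {k : Type u} [Field k] {𝒱 : VarClass k} {ops : CycleOps 𝒱}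

section Gen

variable {W : WeilCohomology.{u, v} ops} {X Y : 𝒱.Obj}

/-- Correspondences preserve the span of the classes of cycles. -/
lemma alg_corr {p : ℕ} {a : (X.prod Y).Cycles} (ha : (X.prod Y).IsCyc p a) {x : W.H X}
    (hx : x ∈ Alg W X) : W.corr (W.cl _ a) x ∈ Alg W Y := by
  rw [corr_apply]
  exact Alg.push _ (Alg.mul (Alg.cl ha) (Alg.map _ hx))

lemma alg_comm {x : W.H X} (hx : x ∈ Alg W X) (y : W.H X) : x * y = y * x := by
  induction hx using Submodule.span_induction with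
  | mem x hx =>
    obtain ⟨j, z, hz, rfl⟩ := hx
    exact W.even_comm (W.cl_mem hz) y
  | zero => rw [zero_mul, mul_zero]
  | add x x' _ _ hx hx' => rw [add_mul, mul_add, hx, hx']
  | smul c x _ hx => rw [smul_mul_assoc, mul_smul_comm, hx]

/-- The adjoint of a correspondence. -/
lemma tr_corr {p : ℕ} {a : (X.prod Y).Cycles} (ha : (X.prod Y).IsCyc p a) {y : W.H Y}
    (hy : y ∈ Alg W Y) : ∃ y' ∈ Alg W X, ∀ x, W.tr Y (y * W.corr (W.cl _ a) x) =
      W.tr X (y' * x) := by
  refine ⟨W.push (fst X Y) (W.map (snd X Y) y * W.cl _ a),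
    Alg.push _ (Alg.mul (Alg.map _ hy) (Alg.cl ha)), fun x => ?_⟩
  rw [alg_comm hy, corr_apply, W.tr_push, W.tr_push, ← alg_comm (Alg.map (snd X Y) hy), mul_assoc]

end Gen

variable {T : HodgeTheory ops} {X Y A B : 𝒱.Obj}

/-- Direct factors of rank one of motives whose direct factors of rank one are Tate motives. -/
theorem isTate_factor (hB : ∀ z : (B.prod B).Cycles, IsRankOne T B z → IsTate T B z)
    {z : (Y.prod Y).Cycles} (h : IsRankOne T Y z) (hf : IsFactor T Y z B) : IsTate T Y z := by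
  obtain ⟨hz, hid, hr⟩ := h
  obtain ⟨p, q, a, b, hpq, ha, hb, hfac⟩ := hf
  obtain ⟨i, v, w, hi, hv0, hw0, hv, hw, htr, hform, hext⟩ := rank_one_form hz hid hr
  set P := T.W.corr (T.W.cl (Y.prod Y) z) with hP
  set α := T.W.corr (T.W.cl (Y.prod B) a) with hα
  set β := T.W.corr (T.W.cl (B.prod Y) b) with hβ
  have hPv : P v = v := by rw [hform, htr, one_smul]
  have hfac' : ∀ x, P (β (α (P x))) = P x := fun x => LinearMap.congr_fun hfac x
  have hPβαv : P (β (α v)) = v := by
    have h1 := hfac' v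
    rwa [hPv] at h1
  have hαv : α v ≠ 0 := by
    intro h0
    rw [h0, map_zero, map_zero] at hPβαv
    exact hv0 hPβαv.symm
  -- the conjugate idempotent
  have h1 : (Y.prod B).IsCyc p (compCyc ops z a) := compCyc_mem hz ha (by omega)
  have h2 : (B.prod B).IsCyc B.dim (compCyc ops b (compCyc ops z a)) :=
    compCyc_mem hb h1 (by omega)
  have h3 : T.W.corr (T.W.cl _ (compCyc ops b (compCyc ops z a))) = (α ∘ₗ P) ∘ₗ β := by
    rw [corr_compCyc T.W h1, corr_compCyc T.W ha]
  have h4 : ∀ x, T.W.corr (T.W.cl _ (compCyc ops b (compCyc ops z a))) x = α (P (β x)) := by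
    intro x
    rw [h3]
    rfl
  have h5 : IsRankOne T B (compCyc ops b (compCyc ops z a)) := by
    refine ⟨h2, ?_, ?_⟩
    · refine LinearMap.ext fun x => ?_
      change T.W.corr _ (T.W.corr _ x) = _
      rw [h4, h4, hfac']
    · have h6 : LinearMap.range (T.W.corr (T.W.cl _ (compCyc ops b (compCyc ops z a)))) =
          Submodule.span T.W.K {α v} := by
        apply le_antisymm
        · rintro _ ⟨x, rfl⟩
          rw [h4, hform, map_smul]
          exact Submodule.smul_mem _ _ (Submodule.mem_span_singleton_self _)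
        · rw [Submodule.span_singleton_le_iff_mem]
          refine ⟨α v, ?_⟩
          rw [h4, hPβαv]
      rw [h6, finrank_span_singleton hαv]
  obtain ⟨j, l, c, c', hjl, hc, hc', htr', hform'⟩ := hB _ h5
  -- the class `v` is algebraic
  obtain ⟨s, hs⟩ : ∃ s : T.W.K, α v = s • T.W.cl B c := by
    refine ⟨T.W.tr B (α v * T.W.cl B c'), ?_⟩
    rw [← hform', h4, hPβαv]
  have hvA : v ∈ Alg T.W Y := by
    rw [← hPβαv, hs, map_smul, map_smul]
    exact Submodule.smul_mem _ _ (alg_corr hz (alg_corr hb (Alg.cl hc)))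
  -- the class `w` is algebraic
  obtain ⟨y, hy, hy'⟩ := tr_corr (W := T.W) ha (Alg.cl hc')
  have hyv : T.W.tr Y (y * v) ≠ 0 := by
    intro h0
    apply hαv
    have h6 := hform' (α v)
    rw [h4, hPβαv, ← alg_comm (Alg.cl hc'), hy', h0, zero_smul] at h6
    exact h6
  obtain ⟨y₁, hy₁, hy₁'⟩ := tr_corr (W := T.W) hz hy
  have hwA : w ∈ Alg T.W Y := by
    have h6 : ∀ x, T.W.tr Y (w * x) * T.W.tr Y (y * v) = T.W.tr Y (y₁ * x) := by
      intro x
      rw [← hy₁', ← hP, hform, mul_smul_comm, map_smul, smul_eq_mul]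
    have h7 : w = (T.W.tr Y (y * v))⁻¹ • y₁ := by
      rw [← sub_eq_zero]
      apply T.W.nondeg
      intro x
      rw [sub_mul, map_sub, smul_mul_assoc, map_smul, ← h6, smul_eq_mul, mul_comm (T.W.tr Y (w * x)),
        inv_mul_cancel_left₀ hyv, sub_self]
    rw [h7]
    exact Submodule.smul_mem _ _ hy₁
  obtain ⟨j₁, c₁, hj₁, hc₁, ec₁⟩ := alg_cycle T.rat (alg_hom hvA hv) hv0
  obtain ⟨j₂, c₂, hj₂, hc₂, ec₂⟩ := alg_cycle T.rat (alg_hom hwA hw) hw0
  have hcomm : ∀ x : T.W.H Y, w * x = x * w := alg_comm hwA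
  refine ⟨j₁, j₂, c₁, c₂, by omega, hc₁, hc₂, ?_, fun x => ?_⟩
  · rw [ec₁, ec₂, ← hcomm, htr]
  · rw [← hP, hform, ec₁, ec₂, hcomm]

end Pool.Agent.Helper70Rk
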