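import Pool.Agent.Helper70_rk1.Fam
import Pool.Agent.Helper70_rk1.Fac

/-!
# Comparison of the two forms of the definitions
-/

open CategoryTheory AlgebraicGeometry TensorProduct

universe u v

namespace Pool.Agent.Helper70Rk

set_option linter.unusedSectionVars false
set_option linter.unusedVariables false

open Pool.Agent.H914 Pool.Agent.H914.VarClass Pool.Agent.H914.VarClass.Obj
  Pool.Agent.H914.WeilCohomology Pool.Agent.Y121.AHS Pool.Agent.R908 Module
open Pool.Agent.Y133.Half (pw)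

variable {k : Type u} [Field k] {𝒱 : VarClass k} {ops : CycleOps 𝒱}
  {T : HodgeTheory ops} {X Y A B : 𝒱.Obj} {m : A.prod A ⟶ A} {f : A ⟶ A}

section Basic

/-- The embedding into the cohomology with complex coefficients. -/
noncomputable def ee (x : T.W.H X) : HL T.W ℂ X := emL T.W ℂ x

lemma hl_induction {P : HL T.W ℂ X → Prop} (h0 : P 0) (hadd : ∀ x y, P x → P y → P (x + y))
    (hsm : ∀ (l : ℂ) (a : T.W.H X), P (smL l (ee a))) (x : HL T.W ℂ X) : P x := by
  refine tmul_induction (L := ℂ) (K := T.W.K) (A := T.W.H X)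
    (P := fun x => P (show HL T.W ℂ X from x)) h0 (fun x y => hadd x y) ?_ x
  intro l a
  have h1 : l • ((1 : ℂ) ⊗ₜ[T.W.K] a) = l ⊗ₜ[T.W.K] a := by
    rw [TensorProduct.smul_tmul', smul_eq_mul, mul_one]
  have h2 : P (l • ((1 : ℂ) ⊗ₜ[T.W.K] a) : ℂ ⊗[T.W.K] T.W.H X) := hsm l a
  rwa [h1] at h2

lemma ee_add (x y : T.W.H X) : ee (x + y) = ee x + ee y := TensorProduct.tmul_add _ _ _

lemma ee_zero : ee (0 : T.W.H X) = 0 := TensorProduct.tmul_zero _ _

lemma ee_smul (r : T.W.K) (x : T.W.H X) : ee (r • x) = smL (algebraMap T.W.K ℂ r) (ee x) := by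
  have h1 : ((1 : ℂ) ⊗ₜ[T.W.K] (r • x) : ℂ ⊗[T.W.K] T.W.H X) =
      (algebraMap T.W.K ℂ r) • ((1 : ℂ) ⊗ₜ[T.W.K] x) := by
    rw [TensorProduct.tmul_smul, ← algebraMap_smul ℂ r]
  exact h1

lemma ee_inj {x y : T.W.H X} (h : ee x = ee y) : x = y := by
  rw [← sub_eq_zero]
  apply tmul_injective (K := T.W.K) (L := ℂ)
  rw [TensorProduct.tmul_sub, sub_eq_zero]
  exact h

lemma smL_add (l : ℂ) (x y : HL T.W ℂ X) : smL l (x + y) = smL l x + smL l y := smul_add l x y

lemma smL_zero (l : ℂ) : smL l (0 : HL T.W ℂ X) = 0 := smul_zero l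

lemma zero_smL (x : HL T.W ℂ X) : smL (0 : ℂ) x = 0 := zero_smul ℂ x

lemma one_smL (x : HL T.W ℂ X) : smL (1 : ℂ) x = x := one_smul ℂ x

lemma add_smL (l l' : ℂ) (x : HL T.W ℂ X) : smL (l + l') x = smL l x + smL l' x := add_smul l l' x

lemma smL_smL (l l' : ℂ) (x : HL T.W ℂ X) : smL l (smL l' x) = smL (l * l') x := smul_smul l l' x

lemma mapL_add (g : X ⟶ Y) (x y : HL T.W ℂ Y) : mapL g (x + y) = mapL g x + mapL g y :=
  map_add ((T.W.map g).toLinearMap.baseChange ℂ) x y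

lemma mapL_sm (g : X ⟶ Y) (l : ℂ) (x : HL T.W ℂ Y) : mapL g (smL l x) = smL l (mapL g x) :=
  map_smul ((T.W.map g).toLinearMap.baseChange ℂ) l x

lemma mapL_ee (g : X ⟶ Y) (a : T.W.H Y) : mapL g (ee a) = ee (T.W.map g a) :=
  LinearMap.baseChange_tmul _ _ _

lemma pushL_add (g : X ⟶ Y) (x y : HL T.W ℂ X) : pushL g (x + y) = pushL g x + pushL g y :=
  map_add ((T.W.push g).baseChange ℂ) x y

lemma pushL_sm (g : X ⟶ Y) (l : ℂ) (x : HL T.W ℂ X) : pushL g (smL l x) = smL l (pushL g x) :=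
  map_smul ((T.W.push g).baseChange ℂ) l x

lemma pushL_ee (g : X ⟶ Y) (a : T.W.H X) : pushL g (ee a) = ee (T.W.push g a) :=
  LinearMap.baseChange_tmul _ _ _

lemma mulL_add (x y z : HL T.W ℂ X) : mulL x (y + z) = mulL x y + mulL x z :=
  mul_add (show ℂ ⊗[T.W.K] T.W.H X from x) y z

lemma add_mulL (x y z : HL T.W ℂ X) : mulL (x + y) z = mulL x z + mulL y z :=
  add_mul (show ℂ ⊗[T.W.K] T.W.H X from x) y z

lemma mulL_sm (l : ℂ) (x y : HL T.W ℂ X) : mulL x (smL l y) = smL l (mulL x y) :=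
  mul_smul_comm l (show ℂ ⊗[T.W.K] T.W.H X from x) y

lemma sm_mulL (l : ℂ) (x y : HL T.W ℂ X) : mulL (smL l x) y = smL l (mulL x y) :=
  smul_mul_assoc l (show ℂ ⊗[T.W.K] T.W.H X from x) y

lemma mulL_ee (a b : T.W.H X) : mulL (ee a) (ee b) = ee (a * b) := by
  have h : ((1 : ℂ) ⊗ₜ[T.W.K] a) * ((1 : ℂ) ⊗ₜ[T.W.K] b) = (1 : ℂ) ⊗ₜ[T.W.K] (a * b) := by
    rw [Algebra.TensorProduct.tmul_mul_tmul, one_mul]
  exact h

/-- The trace as a linear form. -/
noncomputable def trLin (T : HodgeTheory ops) (X : 𝒱.Obj) : ℂ ⊗[T.W.K] T.W.H X →ₗ[ℂ] ℂ :=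
  (TensorProduct.AlgebraTensorModule.rid T.W.K ℂ ℂ).toLinearMap ∘ₗ (T.W.tr X).baseChange ℂ

lemma trL_add (x y : HL T.W ℂ X) : trL (x + y) = trL x + trL y :=
  map_add (trLin T X) x y

lemma trL_sm (l : ℂ) (x : HL T.W ℂ X) : trL (smL l x) = l * trL x :=
  map_smul (trLin T X) l x

lemma trL_ee (a : T.W.H X) : trL (ee a) = algebraMap T.W.K ℂ (T.W.tr X a) := by
  have h2 : trL (ee a) = TensorProduct.AlgebraTensorModule.rid T.W.K ℂ ℂ
      ((T.W.tr X).baseChange ℂ ((1 : ℂ) ⊗ₜ[T.W.K] a)) := rfl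
  rw [h2, LinearMap.baseChange_tmul, TensorProduct.AlgebraTensorModule.rid_tmul,
    Algebra.smul_def, mul_one]

end Basic

section Act

lemma act_add (z : (X.prod Y).Cycles) (x y : HL T.W ℂ X) :
    act T z (x + y) = act T z x + act T z y := by
  rw [act, mapL_add, mulL_add, pushL_add]
  rfl

lemma act_sm (z : (X.prod Y).Cycles) (l : ℂ) (x : HL T.W ℂ X) :
    act T z (smL l x) = smL l (act T z x) := by
  rw [act, mapL_sm, mulL_sm, pushL_sm]
  rfl

lemma act_ee (z : (X.prod Y).Cycles) (a : T.W.H X) :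
    act T z (ee a) = ee (T.W.corr (T.W.cl _ z) a) := by
  rw [act, mapL_ee, corr_apply, ← pushL_ee, ← mulL_ee]
  rfl

lemma act_zero (z : (X.prod Y).Cycles) : act T z (0 : HL T.W ℂ X) = 0 := by
  rw [← ee_zero, act_ee, map_zero, ee_zero]

/-- Rank-one motives: the two forms of the definition. -/
lemma rankOne_of {z : (Y.prod Y).Cycles} (h : IsRkOne T Y z) : IsRankOne T Y z := by
  obtain ⟨hz, hid, v, hv, hspan⟩ := h
  set P := T.W.corr (T.W.cl (Y.prod Y) z) with hP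
  have hPP : ∀ a, P (P a) = P a := by
    intro a
    apply ee_inj
    rw [hP, ← act_ee, ← act_ee, hid]
  have hv0 : v ≠ 0 := by
    rintro rfl
    obtain ⟨r, -, hr⟩ := hspan 0
    have h1 := hr 0 (by beta_reduce; rw [hv, smL_zero])
    have h2 := hr 1 (by beta_reduce; rw [hv, smL_zero])
    exact zero_ne_one (h1.trans h2.symm)
  obtain ⟨y, hy⟩ : ∃ y, P y ≠ 0 := by
    by_contra hcon
    push Not at hcon
    apply hv0
    rw [← hv]
    refine hl_induction (P := fun x => act T z x = 0) (act_zero z) ?_ ?_ v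
    · intro x y hx hy
      rw [act_add, hx, hy, add_zero]
    · intro l a
      rw [act_sm, act_ee, ← hP, hcon, ee_zero, smL_zero]
  obtain ⟨r, hr, -⟩ := hspan (ee y)
  have hr0 : r ≠ 0 := by
    rintro rfl
    rw [act_ee, zero_smL, ← hP, ← ee_zero] at hr
    exact hy (ee_inj hr)
  obtain ⟨φ, hφ⟩ := Module.Projective.exists_dual_eq_one T.W.K hy
  have hline : ∀ x, P x = φ (P x) • P y := by
    intro x
    obtain ⟨s, hs, -⟩ := hspan (ee x)
    have h1 : ee (P x) = smL (s * r⁻¹) (ee (P y)) := by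
      rw [hP, ← act_ee, ← act_ee, hs, hr, smL_smL, mul_assoc, inv_mul_cancel₀ hr0, mul_one]
    have h2 : algebraMap T.W.K ℂ (φ (P x)) = s * r⁻¹ := by
      have h4 : φ.baseChange ℂ ((1 : ℂ) ⊗ₜ[T.W.K] (P x)) = algebraMap T.W.K ℂ (φ (P x)) := by
        rw [Module.Dual.baseChange_apply_tmul, Algebra.smul_def, mul_one]
      have h5 : φ.baseChange ℂ ((s * r⁻¹) • ((1 : ℂ) ⊗ₜ[T.W.K] (P y))) = s * r⁻¹ := by
        rw [map_smul, Module.Dual.baseChange_apply_tmul, hφ, one_smul, smul_eq_mul, mul_one]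
      rw [← h4, ← h5]
      exact congrArg (fun t : HL T.W ℂ Y => φ.baseChange ℂ (show ℂ ⊗[T.W.K] T.W.H Y from t)) h1
    apply ee_inj
    rw [h1, ee_smul, h2]
  refine ⟨hz, LinearMap.ext hPP, ?_⟩
  have h6 : LinearMap.range P = Submodule.span T.W.K {P y} := by
    apply le_antisymm
    · rintro _ ⟨x, rfl⟩
      rw [hline x]
      exact Submodule.smul_mem _ _ (Submodule.mem_span_singleton_self _)
    · rw [Submodule.span_singleton_le_iff_mem]
      exact ⟨y, rfl⟩
  rw [h6, finrank_span_singleton hy]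

/-- Tate motives: the two forms of the definition. -/
lemma tate_of {z : (Y.prod Y).Cycles} (h : IsTate T Y z) : IsTateMotive T Y z := by
  obtain ⟨j, i, c, c', hji, hc, hc', htr, hform⟩ := h
  refine ⟨j, i, c, c', hji, hc, hc', ?_, ?_⟩
  · have h1 : mulL (cy T c) (cy T c') = ee (T.W.cl Y c * T.W.cl Y c') := mulL_ee _ _
    rw [h1, trL_ee, htr, map_one]
  · refine hl_induction ?_ ?_ ?_
    · rw [act_zero]
      have h1 : mulL (0 : HL T.W ℂ Y) (cy T c') = 0 := by
        have := sm_mulL (0 : ℂ) (0 : HL T.W ℂ Y) (cy T c')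
        rwa [zero_smL, zero_smL] at this
      have h2 : trL (0 : HL T.W ℂ Y) = 0 := by
        have := trL_sm (0 : ℂ) (0 : HL T.W ℂ Y)
        rwa [zero_smL, zero_mul] at this
      rw [h1, h2, zero_smL]
    · intro x y hx hy
      rw [act_add, hx, hy, add_mulL, trL_add, add_smL]
    · intro l a
      have h1 : mulL (ee a) (cy T c') = ee (a * T.W.cl Y c') := mulL_ee _ _
      rw [act_sm, act_ee, hform, ee_smul, sm_mulL, trL_sm, h1, trL_ee, smL_smL]
      rfl

/-- Direct factors: the two forms of the definition. -/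
lemma factor_of {z : (Y.prod Y).Cycles} (h : IsFactorOf T Y z B) : IsFactor T Y z B := by
  obtain ⟨p, q, a, b, hpq, ha, hb, hform⟩ := h
  refine ⟨p, q, a, b, hpq, ha, hb, LinearMap.ext fun x => ?_⟩
  apply ee_inj
  have h1 := hform (ee x)
  rw [act_ee, act_ee, act_ee, act_ee] at h1
  exact h1

end Act

end Pool.Agent.Helper70Rk
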