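import Pool.Agent.Helper70_rk1.Bridge

/-!
# Comparison of the two forms of the definitions: abelian varieties
-/

open CategoryTheory AlgebraicGeometry TensorProduct

universe u v

namespace Pool.Agent.Helper70Rk

set_option linter.unusedSectionVars false
set_option linter.unusedVariables false

open Pool.Agent.H914 Pool.Agent.H914.VarClass Pool.Agent.H914.VarClass.Obj
  Pool.Agent.H914.WeilCohomology Pool.Agent.Y121.AHS Pool.Agent.R908 Module
open Pool.Agent.Y133.Half (pw)

variable {k : Type u} [Field k] {𝒱 : VarClass k} {ops : CycleOps 𝒱}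
  {T : HodgeTheory ops} {X Y A B : 𝒱.Obj} {m : A.prod A ⟶ A} {f : A ⟶ A}

lemma isDeg_ee {i : ℕ} {a : T.W.H X} (ha : a ∈ T.W.gr X i) : IsDeg i (ee a) :=
  Submodule.tmul_mem_baseChange_of_mem (p := T.W.gr X i) (1 : ℂ) ha

lemma isConj_eq {x y : HL T.W ℂ X} (h : IsConj x y) :
    y = (show HL T.W ℂ X from (sC T cc).σ X x) := by
  obtain ⟨L, rfl, rfl⟩ := h
  induction L with
  | nil => exact (map_zero ((sC T cc).σ X)).symm
  | cons p L ih =>
    rw [List.map_cons, List.sum_cons, List.map_cons, List.sum_cons, ih]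
    have h1 : (sC T cc).σ X ((show (VC T).K from p.1) • em T p.2) =
        (show (VC T).K from starRingEnd ℂ p.1) • em T p.2 := by
      rw [(sC T cc).smul, sC_em]
      rfl
    have h2 := map_add ((sC T cc).σ X) (show (VC T).H X from smL p.1 (emL T.W ℂ p.2))
      (show (VC T).H X from (L.map fun p => smL p.1 (emL T.W ℂ p.2)).sum)
    refine Eq.trans ?_ h2.symm
    exact congrArg (fun t : (VC T).H X => t + _) h1.symm

lemma isConj_symm {x y : HL T.W ℂ X} (h : IsConj x y) : IsConj y x := by
  obtain ⟨L, hx, hy⟩ := h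
  refine ⟨L.map fun p => (starRingEnd ℂ p.1, p.2), ?_, ?_⟩
  · rw [List.map_map, ← hy]
    rfl
  · rw [List.map_map, ← hx]
    refine congrArg List.sum (List.map_congr_left fun p _ => ?_)
    change smL (starRingEnd ℂ (starRingEnd ℂ p.1)) (emL T.W ℂ p.2) = _
    rw [Complex.conj_conj]

lemma abHodge_of (h : IsAbVar T m) : IsAbelianHodge T A m := by
  have htypes : grL T.W ℂ A 1 = T.pq A 1 0 ⊔ T.pq A 0 1 := by
    apply le_antisymm
    · intro x hx
      obtain ⟨y, z, rfl, hy, hz⟩ := h.types x hx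
      exact Submodule.add_mem_sup hy hz
    · rw [T.span A 1]
      refine sup_le ?_ ?_
      · exact le_iSup (fun r : {r : ℤ × ℤ // r.1 + r.2 = ((1 : ℕ) : ℤ)} => T.pq A r.1.1 r.1.2)
          ⟨(1, 0), by norm_num⟩
      · exact le_iSup (fun r : {r : ℤ × ℤ // r.1 + r.2 = ((1 : ℕ) : ℤ)} => T.pq A r.1.1 r.1.2)
          ⟨(0, 1), by norm_num⟩
  refine ⟨⟨?_, h.gen⟩, ?_, htypes, ?_, h.riemann⟩
  · intro x hx
    apply ee_inj
    rw [ee_add, ← mapL_ee, ← mapL_ee, ← mapL_ee]
    exact h.add (ee x) (isDeg_ee hx)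
  · have h1 : Module.finrank ℂ (LinearMap.range (jj T A)) = 2 * A.dim := h.betti
    rw [LinearMap.finrank_range_of_inj jj_inj, Module.finrank_baseChange] at h1
    exact h1
  · intro p q x y hpq hx hxy
    by_cases h1 : (p, q) = (1, 0)
    · obtain ⟨rfl, rfl⟩ := Prod.mk.inj h1
      exact (h.conj x y hxy).1 hx
    · by_cases h2 : (p, q) = (0, 1)
      · obtain ⟨rfl, rfl⟩ := Prod.mk.inj h2
        refine (h.conj y x ?_).2 hx
        exact isConj_symm hxy
      · have hx0 : (show (VC T).H A from x) = 0 := by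
          have h3 : (show (VC T).H A from x) ∈ tp T A p q := hx
          have h4 : (show (VC T).H A from x) ∈ tp T A 1 0 ⊔ tp T A 0 1 := by
            have h5 : x ∈ grL T.W ℂ A 1 := by
              rw [T.span A 1]
              exact le_iSup (fun r : {r : ℤ × ℤ // r.1 + r.2 = ((1 : ℕ) : ℤ)} =>
                T.pq A r.1.1 r.1.2) ⟨(p, q), by exact_mod_cast hpq⟩ hx
            rw [htypes] at h5
            exact h5
          have h5 : tp T A 1 0 ⊔ tp T A 0 1 ≤ ⨆ (r : ℤ × ℤ) (_ : r ≠ (p, q)), tp T A r.1 r.2 := by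
            refine sup_le ?_ ?_
            · exact le_iSup₂_of_le (1, 0) (fun h => h1 h.symm) le_rfl
            · exact le_iSup₂_of_le (0, 1) (fun h => h2 h.symm) le_rfl
          exact (Submodule.disjoint_def.1 (tp_indep (T := T) A (p, q))) _ h3 (h5 h4)
        have hy0 : y = 0 := by
          rw [isConj_eq hxy]
          have h3 : (sC T cc).σ A (show (VC T).H A from x) = 0 := by
            rw [hx0, map_zero]
          exact h3
        rw [hy0]
        exact Submodule.zero_mem _

/-- Eigenvalues are roots of the characteristic polynomial. -/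
lemma mem_eigs_of {z : ℂ} {x : HL T.W ℂ A} (hx : IsDeg 1 x) (h0 : x ≠ 0)
    (h : mapL f x = smL z x) : z ∈ eigs T f := by
  obtain ⟨y, hy⟩ : ∃ y, jj T A y = x := hx
  have hy0 : y ≠ 0 := by
    rintro rfl
    rw [map_zero] at hy
    exact h0 hy.symm
  have h1 : jj T A ((endOne T f).baseChange ℂ y) = jj T A (z • y) := by
    have h2 := jj_map (T := T) (f := f) y
    rw [← h2, map_smul]
    have h3 := mapL_eq f x
    rw [← hy] at h3 h
    refine h3.trans ?_
    exact h
  have h2 := jj_inj h1
  have h3 : Module.End.HasEigenvalue ((endOne T f).baseChange ℂ) z :=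
    Module.End.hasEigenvalue_of_hasEigenvector
      (Module.End.hasEigenvector_iff.2 ⟨Module.End.mem_eigenspace_iff.2 h2, hy0⟩)
  rw [Module.End.hasEigenvalue_iff_isRoot_charpoly, LinearMap.charpoly_baseChange] at h3
  rw [mem_eigs, Polynomial.aeval_def, ← Polynomial.eval_map]
  exact h3

lemma cm_of {R : Finset ℂ} (hA : IsAbelianHodge T A m) (h : IsCM T f R) :
    Squarefree (charOne T f) ∧ eigs T f = R := by
  classical
  have hsub : R ⊆ eigs T f := by
    intro z hz
    obtain ⟨x, hx, h0, hfx⟩ := (h.2 z).1 hz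
    exact mem_eigs_of hx h0 hfx
  have hmon : (charOne T f).Monic := LinearMap.charpoly_monic _
  have hdeg : (charOne T f).natDegree = 2 * A.dim := by
    rw [charOne, LinearMap.charpoly_natDegree, hA.betti]
  have hcard : Multiset.card ((charOne T f).aroots ℂ) ≤ 2 * A.dim := by
    rw [← hdeg]
    refine (Polynomial.card_roots' _).trans ?_
    rw [Polynomial.natDegree_map]
  have hle : 2 * A.dim ≤ (eigs T f).card := by
    rw [← h.1]
    exact Finset.card_le_card hsub
  have hle2 : (eigs T f).card ≤ Multiset.card ((charOne T f).aroots ℂ) :=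
    Multiset.toFinset_card_le _
  have hnodup : ((charOne T f).aroots ℂ).Nodup := by
    rw [← Multiset.toFinset_card_eq_card_iff_nodup]
    exact le_antisymm hle2 (hcard.trans hle)
  constructor
  · have h1 : (charOne T f).Separable :=
      (Polynomial.nodup_aroots_iff_of_splits hmon.ne_zero
        (IsAlgClosed.splits _)).1 hnodup
    exact h1.squarefree
  · exact (Finset.eq_of_subset_of_card_le hsub (by rw [h.1]; exact hle2.trans hcard)).symm

/-- **The families.** -/
theorem oddAnnihilated_good (hA : IsAbelianHodge T A m) (hf : Squarefree (charOne T f))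
    (h : GoodField A.dim (eigs T f)) : OddAnnihilated (eigs T f) (holo T f) := by
  obtain ⟨E, hmu, hne, hcard⟩ := exists_eig hA hf
  obtain ⟨htr', hc, h⟩ := h
  have hconj : ∀ z ∈ eigs T f, starRingEnd ℂ z ∈ eigs T f := fun z hz => galC_eigs cc hz
  have hΦ : ∀ z ∈ eigs T f, starRingEnd ℂ z ∈ holo T f ↔ z ∉ holo T f :=
    fun z hz => kap_holo hA hmu hne ⟨z, hz⟩
  have hne' : ∀ z ∈ eigs T f, starRingEnd ℂ z ≠ z := by
    intro z hz h
    have h1 := hΦ z hz
    rw [h] at h1
    exact iff_not_self h1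
  have htr : ∀ z w : eigs T f, ∃ π ∈ galPerm (eigs T f), π z = w := by
    intro z w
    obtain ⟨τ, hτ⟩ := htr' z z.2 w w.2
    exact ⟨permOf T f τ, ⟨τ, fun _ => rfl⟩, Subtype.ext hτ⟩
  rcases h with ⟨h1, h2⟩ | ⟨P, hP⟩
  · have hg : (eigs T f).card = 2 * A.dim := by
      rw [← hcard, Fintype.card_coe]
    exact oddAnnihilated_of hc hconj hΦ (oddTransitive hc hconj hne' hg h1 htr h2)
  · exact oddAnnihilated_sylow hc hconj hΦ htr P hP

/-- **The main theorem.** -/
theorem main_tate {R : Finset ℂ} (hA : IsAbVar T m) (hR : IsCM T f R)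
    (hf : GoodField A.dim R ∨ OddAnnihilated R (holo T f)) {z : (Y.prod Y).Cycles}
    (hz : IsRkOne T Y z) (n : ℕ) (hfac : IsFactorOf T Y z (pw A n)) : IsTateMotive T Y z := by
  have hA' := abHodge_of hA
  obtain ⟨hsq, rfl⟩ := cm_of hA' hR
  refine tate_of (isTate_factor (fun z' hz' => ?_) (rankOne_of hz) (factor_of hfac))
  rcases hf with h | h
  · exact rank_one_tate hA' hsq (oddAnnihilated_good hA' hsq h) n hz'
  · exact rank_one_tate hA' hsq h n hz'

end Pool.Agent.Helper70Rk
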