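import Pool.Agent.Helper70_rk1.RkDefs
import Pool.Agent.Y133.Half.PwDefs

/-!
# Abelian varieties of CM type and rank-one motives: the forms of the definitions used in the proofs
-/

open CategoryTheory AlgebraicGeometry

universe u

namespace Pool.Agent.Helper70Rk

open Pool.Agent.H914 Pool.Agent.H914.VarClass Pool.Agent.H914.VarClass.Obj
  Pool.Agent.H914.WeilCohomology Pool.Agent.Y121.AHS
open Pool.Agent.R908 (IsAbelianLike)
open Pool.Agent.Y133.Half (pw)

section Numbers

/-- There is a group of permutations of `R` of odd order, induced by automorphisms of the field of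
complex numbers, which is transitive up to complex conjugation. -/
def OddTransitive (R : Finset ℂ) : Prop :=
  ∃ H : Subgroup (Equiv.Perm R), H ≤ galPerm R ∧ Odd (Nat.card H) ∧
    ∀ z w : R, ∃ h ∈ H, (h z : ℂ) = w ∨ (h z : ℂ) = starRingEnd ℂ w

end Numbers

variable {k : Type u} [Field k] {𝒱 : VarClass k} {ops : CycleOps 𝒱}

section CM

variable (T : HodgeTheory ops) {A : 𝒱.Obj}

/-- The variety `A` with the addition `m` behaves like an abelian variety: pull-back by `m` is the sum
of the pull-backs by the projections on `H^1(A)`, the cohomology is generated by `H^1(A)`, which has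
dimension `2 dim A`, it is the sum of `H^(1,0)` and of the complex conjugate space `H^(0,1)`, and there
is a divisor `D` with the Riemann relation `tr (x · x̄ · D ^ (dim A - 1)) ≠ 0` for all `x ≠ 0` of type
`(1, 0)`. -/
structure IsAbelianHodge (T : HodgeTheory ops) (A : 𝒱.Obj) (m : A.prod A ⟶ A) : Prop where
  abelianLike : IsAbelianLike T.W A m
  betti : Module.finrank T.W.K (T.W.gr A 1) = 2 * A.dim
  types : grL T.W ℂ A 1 = T.pq A 1 0 ⊔ T.pq A 0 1
  conj : ∀ (p q : ℤ) (x y : HL T.W ℂ A), p + q = 1 → IsType T.pq p q x → IsConj x y →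
    IsType T.pq q p y
  riemann : ∃ D : A.Cycles, A.IsCyc 1 D ∧ ∀ x y : HL T.W ℂ A, IsType T.pq 1 0 x → IsConj x y →
    x ≠ 0 → trL (mulL (mulL x y) (emL T.W ℂ (T.W.cl A D ^ (A.dim - 1)))) ≠ 0

/-- The action of the endomorphism `f` on `H^1(A)`. -/
noncomputable def endOne (f : A ⟶ A) : Module.End T.W.K (T.W.gr A 1) :=
  (T.W.map f).toLinearMap.restrict fun _ hx => T.W.map_mem f hx

/-- The characteristic polynomial of the endomorphism `f` on `H^1(A)`. -/
noncomputable def charOne (f : A ⟶ A) : Polynomial T.W.K := (endOne T f).charpoly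

/-- The set of the eigenvalues of `f` on `H^1(A)`. -/
noncomputable def eigs (f : A ⟶ A) : Finset ℂ := ((charOne T f).aroots ℂ).toFinset

end CM

section Motives

variable (T : HodgeTheory ops) (Y : 𝒱.Obj)

/-- The cycle `z` defines a rank-one motive `(Y, z, j)`, that is, a rank-one direct factor of the motive
of `Y`, up to Tate twists: it is a correspondence of degree zero which acts on the cohomology as an
idempotent with one-dimensional image. -/
def IsRankOne (z : (Y.prod Y).Cycles) : Prop :=
  (Y.prod Y).IsCyc Y.dim z ∧ IsIdempotentElem (M := Module.End T.W.K (T.W.H Y))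
    (T.W.corr (T.W.cl (Y.prod Y) z)) ∧
    Module.finrank T.W.K (LinearMap.range (T.W.corr (T.W.cl (Y.prod Y) z))) = 1

/-- The rank-one motive defined by the cycle `z` is a Tate motive: for some `j` there are cycles `c` of
codimension `j` and `c'` of codimension `dim Y - j` on `Y` such that `z` acts as
`x ↦ tr (x · c') c`, where `tr (c · c') = 1`. (So `c` and `c'` define morphisms from the Tate motive
`ℚ(-j)` to `h(Y)` and from `h(Y)` to `ℚ(-j)` whose composites are the identity and `z`.) -/
def IsTate (z : (Y.prod Y).Cycles) : Prop :=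
  ∃ (j i : ℕ) (c c' : Y.Cycles), j + i = Y.dim ∧ Y.IsCyc j c ∧ Y.IsCyc i c' ∧
    T.W.tr Y (T.W.cl Y c * T.W.cl Y c') = 1 ∧
    ∀ x, T.W.corr (T.W.cl (Y.prod Y) z) x = T.W.tr Y (x * T.W.cl Y c') • T.W.cl Y c

/-- The motive defined by the idempotent correspondence `z` on `Y` is, up to a Tate twist, a direct
factor of the motive of `B`: there are correspondences `a` from `Y` to `B` and `b` from `B` to `Y`, of
opposite degrees, such that `z ∘ b ∘ a ∘ z = z` on the cohomology. -/
def IsFactor (z : (Y.prod Y).Cycles) (B : 𝒱.Obj) : Prop :=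
  ∃ (p q : ℕ) (a : (Y.prod B).Cycles) (b : (B.prod Y).Cycles), p + q = Y.dim + B.dim ∧
    (Y.prod B).IsCyc p a ∧ (B.prod Y).IsCyc q b ∧
    T.W.corr (T.W.cl (Y.prod Y) z) ∘ₗ T.W.corr (T.W.cl (B.prod Y) b) ∘ₗ
      T.W.corr (T.W.cl (Y.prod B) a) ∘ₗ T.W.corr (T.W.cl (Y.prod Y) z) =
    T.W.corr (T.W.cl (Y.prod Y) z)

end Motives

end Pool.Agent.Helper70Rk
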