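import Pool.Agent.Helper70_rk1.Key

/-!
# Calculus of universally algebraic types
-/

open CategoryTheory AlgebraicGeometry

universe u v

namespace Pool.Agent.Helper70Rk

open Pool.Agent.H914 Pool.Agent.H914.VarClass Pool.Agent.H914.VarClass.Obj
  Pool.Agent.H914.WeilCohomology Pool.Agent.R908

variable {k : Type u} [Field k] {𝒱 : VarClass k} {ops : CycleOps 𝒱}
  {V : WeilCohomology.{u, v} ops} {X Y Z A : 𝒱.Obj} {m : A.prod A ⟶ A} {f : A ⟶ A}
  {ι : Type} (E : Eig V A m f ι)

lemma UA.zero : UA E 0 := by
  intro Z L hL
  have h1 : L = [] := by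
    rcases L with _ | ⟨b, L⟩
    · rfl
    · exact absurd (congrArg Multiset.card hL) (by simp)
  rw [h1]
  exact Alg.one

variable {E}

theorem UA.add {s t : Multiset ι} (hs : UA E s) (ht : UA E t) : UA E (s + t) := by
  intro Z L hL
  induction s using Quotient.inductionOn with | _ ls =>
  induction t using Quotient.inductionOn with | _ lt =>
  have hL' : (L.map Prod.snd).Perm (ls ++ lt) := Multiset.coe_eq_coe.1 hL
  obtain ⟨L₁, hL₁, h1⟩ := exists_perm_of_map hL'
  obtain ⟨L₂, L₃, rfl, h2, h3⟩ := List.map_eq_append_iff.1 h1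
  obtain ⟨ε, hε, h4⟩ := word_perm (hL₁.map fun b => V.map b.1 (E.u b.2)) (by
    intro y hy
    obtain ⟨b, _, rfl⟩ := List.mem_map.1 hy
    exact letter_mem E b)
  rw [h4, List.map_append, List.prod_append]
  exact Submodule.smul_mem _ _ (Alg.mul (hs Z L₂ (by rw [h2]; rfl)) (ht Z L₃ (by rw [h3]; rfl)))

theorem UA.nsmul {s : Multiset ι} (hs : UA E s) (n : ℕ) : UA E (n • s) := by
  induction n with
  | zero => rw [zero_smul]; exact UA.zero E
  | succ n ih => rw [succ_nsmul]; exact ih.add hs

theorem UA.sum {α : Type*} {F : Finset α} {s : α → Multiset ι} (hs : ∀ a ∈ F, UA E (s a)) :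
    UA E (∑ a ∈ F, s a) := by
  classical
  induction F using Finset.induction_on with
  | empty => rw [Finset.sum_empty]; exact UA.zero E
  | insert a F ha ih =>
    rw [Finset.sum_insert ha]
    exact (hs a (Finset.mem_insert_self _ _)).add
      (ih fun b hb => hs b (Finset.mem_insert_of_mem hb))

/-- Cancellation of the type of the top degree. -/
theorem UA.cancel_top [Fintype ι]
    (htop : V.tr A (((Finset.univ : Finset ι).toList.map E.u).prod) ≠ 0) {s : Multiset ι}
    (h : UA E ((Finset.univ : Finset ι).val + s)) : UA E s := by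
  intro Z L hL
  have h1 := h (A.prod Z) (((Finset.univ : Finset ι).toList.map fun l => (fst A Z, l)) ++
    L.map fun b => (snd A Z ≫ b.1, b.2)) (by
      rw [List.map_append, List.map_map, List.map_map, ← Multiset.coe_add]
      congr 1
      · have e : (Prod.snd ∘ fun l : ι => (fst A Z, l)) = id := rfl
        rw [e, List.map_id, Finset.coe_toList])
  rw [List.map_append, List.map_map, List.map_map, List.prod_append] at h1
  have e1 : (List.map ((fun b : (A.prod Z ⟶ A) × ι => V.map b.1 (E.u b.2)) ∘
      fun l : ι => (fst A Z, l)) (Finset.univ : Finset ι).toList).prod =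
      V.map (fst A Z) (((Finset.univ : Finset ι).toList.map E.u).prod) := by
    rw [map_list_prod, List.map_map]
    rfl
  have e2 : (List.map ((fun b : (A.prod Z ⟶ A) × ι => V.map b.1 (E.u b.2)) ∘
      fun b : (Z ⟶ A) × ι => (snd A Z ≫ b.1, b.2)) L).prod =
      V.map (snd A Z) ((L.map fun b => V.map b.1 (E.u b.2)).prod) := by
    rw [map_list_prod, List.map_map]
    congr 1
    apply List.map_congr_left
    intro b _
    rw [Function.comp_apply, Function.comp_apply, V.map_comp]
  rw [e1, e2] at h1
  have h2 := Alg.push (snd A Z) h1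
  rw [V.push_snd] at h2
  have h3 := Submodule.smul_mem _ (V.tr A (((Finset.univ : Finset ι).toList.map E.u).prod))⁻¹ h2
  rwa [smul_smul, inv_mul_cancel₀ htop, one_smul] at h3

theorem UA.cancel_top_nsmul [Fintype ι]
    (htop : V.tr A (((Finset.univ : Finset ι).toList.map E.u).prod) ≠ 0) {s : Multiset ι} (n : ℕ)
    (h : UA E (n • (Finset.univ : Finset ι).val + s)) : UA E s := by
  induction n with
  | zero => rwa [zero_smul, zero_add] at h
  | succ n ih =>
    apply ih
    apply UA.cancel_top htop
    rwa [← add_assoc, ← succ_nsmul']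

/-! ### Varieties whose cohomology is generated by letters -/

variable (E)

/-- The variety `Y` is a product of copies of `A`, indexed by `J`, and its cohomology is spanned by
the words. -/
structure PowSys (Y : 𝒱.Obj) (J : Type) where
  /-- the projections -/
  q : J → (Y ⟶ A)
  lift : ∀ {Z : 𝒱.Obj} (h : J → (Z ⟶ A)), ∃ Ψ : Z ⟶ Y, ∀ j, Ψ ≫ q j = h j
  gen : ∀ i, V.gr Y i ≤ Submodule.span V.K {w | ∃ L : List (J × ι), L.length = i ∧
    (L.map fun b => V.map (q b.1) (E.u b.2)).prod = w}

variable {E}

/-- The letters. -/
def PowSys.x {J : Type} (S : PowSys E Y J) (b : J × ι) : V.H Y := V.map (S.q b.1) (E.u b.2)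

lemma PowSys.x_mem {J : Type} (S : PowSys E Y J) (b : J × ι) : S.x b ∈ V.gr Y 1 :=
  V.map_mem _ (E.mem _)

lemma wordFun_single {B W : Type*} [Fintype B] [DecidableEq (Finset B)] {K : Type*} [Field K]
    [Ring W] [Algebra K W] (S : Finset B) (c : K) (a : B → W) :
    wordFun (Pi.single S c) a = c • (S.toList.map a).prod := by
  rw [wordFun, Finset.sum_eq_single S]
  · rw [Pi.single_eq_same]
  · intro T _ hT
    rw [Pi.single_eq_of_ne hT, zero_smul]
  · intro h; exact absurd (Finset.mem_univ _) h

/-- The classes of degree `i` are linear combinations of the words of length `i`. -/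
theorem PowSys.expr {J : Type} [Fintype J] [Fintype ι] (S : PowSys E Y J) {i : ℕ} {y : V.H Y}
    (hy : y ∈ V.gr Y i) : ∃ c : Finset (J × ι) → V.K, (∀ T, c T ≠ 0 → T.card = i) ∧
      y = wordFun c S.x := by
  classical
  have h := S.gen i hy
  clear hy
  induction h using Submodule.span_induction with
  | mem w hw =>
    obtain ⟨L, hL, rfl⟩ := hw
    by_cases hnd : L.Nodup
    · have h1 : L.Perm L.toFinset.toList := by
        rw [List.perm_ext_iff_of_nodup hnd (Finset.nodup_toList _)]
        intro b
        rw [Finset.mem_toList, List.mem_toFinset]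
      obtain ⟨ε, hε, h2⟩ := word_perm (h1.map S.x) (by
        intro y hy
        obtain ⟨b, _, rfl⟩ := List.mem_map.1 hy
        exact S.x_mem b)
      refine ⟨Pi.single L.toFinset ε, fun T hT => ?_, ?_⟩
      · by_contra hcon
        have h3 : T ≠ L.toFinset := by
          rintro rfl
          exact hcon (by rw [List.toFinset_card_of_nodup hnd, hL])
        rw [Pi.single_eq_of_ne h3] at hT
        exact hT rfl
      · rw [wordFun_single]
        exact h2
    · refine ⟨0, fun T hT => absurd rfl hT, ?_⟩
      have h1 : (L.map S.x).prod = 0 := word_dup S.x_mem hnd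
      have h2 : wordFun (0 : Finset (J × ι) → V.K) S.x = 0 := by
        rw [wordFun]
        exact Finset.sum_eq_zero fun T _ => by rw [Pi.zero_apply, zero_smul]
      rw [h2]
      exact h1
  | zero =>
    refine ⟨0, fun T hT => absurd rfl hT, ?_⟩
    rw [wordFun]
    exact (Finset.sum_eq_zero fun T _ => by rw [Pi.zero_apply, zero_smul]).symm
  | add a b _ _ ha hb =>
    obtain ⟨c, hc, rfl⟩ := ha
    obtain ⟨d, hd, rfl⟩ := hb
    refine ⟨c + d, fun T hT => ?_, ?_⟩
    · by_cases h1 : c T = 0
      · apply hd
        intro h2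
        exact hT (by rw [Pi.add_apply, h1, h2, add_zero])
      · exact hc T h1
    · rw [wordFun, wordFun, wordFun, ← Finset.sum_add_distrib]
      exact Finset.sum_congr rfl fun T _ => by rw [Pi.add_apply, add_smul]
  | smul r a _ ha =>
    obtain ⟨c, hc, rfl⟩ := ha
    refine ⟨r • c, fun T hT => ?_, ?_⟩
    · apply hc
      intro h2
      exact hT (by rw [Pi.smul_apply, h2, smul_zero])
    · rw [wordFun, wordFun, Finset.smul_sum]
      exact Finset.sum_congr rfl fun T _ => by rw [Pi.smul_apply, smul_assoc]

/-- The copies of `A` itself. -/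
lemma eig_gen (E : Eig V A m f ι) (i : ℕ) : V.gr A i ≤ Submodule.span V.K
    {w | ∃ L : List ι, L.length = i ∧ (L.map E.u).prod = w} := by
  refine (E.ab.gen i).trans ?_
  induction i with
  | zero =>
    intro w hw
    rw [pow_zero, Submodule.mem_one] at hw
    obtain ⟨c, rfl⟩ := hw
    rw [Algebra.algebraMap_eq_smul_one]
    exact Submodule.smul_mem _ _ (Submodule.subset_span ⟨[], rfl, rfl⟩)
  | succ i ih =>
    rw [pow_succ', Submodule.mul_le]
    intro a ha b hb
    have h1 := E.span ha
    have h2 := ih hb
    clear ha hb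
    induction h1 using Submodule.span_induction with
    | mem a ha =>
      obtain ⟨l, rfl⟩ := ha
      induction h2 using Submodule.span_induction with
      | mem b hb =>
        obtain ⟨L, hL, rfl⟩ := hb
        exact Submodule.subset_span
          ⟨l :: L, by rw [List.length_cons, hL], by rw [List.map_cons, List.prod_cons]⟩
      | zero => rw [mul_zero]; exact Submodule.zero_mem _
      | add x y _ _ hx hy => rw [mul_add]; exact Submodule.add_mem _ hx hy
      | smul r x _ hx => rw [mul_smul_comm]; exact Submodule.smul_mem _ _ hx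
    | zero => rw [zero_mul]; exact Submodule.zero_mem _
    | add x y _ _ hx hy => rw [add_mul]; exact Submodule.add_mem _ hx hy
    | smul r x _ hx => rw [smul_mul_assoc]; exact Submodule.smul_mem _ _ hx

/-- The variety `A` itself. -/
noncomputable def PowSys.self (E : Eig V A m f ι) : PowSys E A Unit where
  q := fun _ => 𝟙 A
  lift h := ⟨h (), fun _ => Category.comp_id _⟩
  gen i := by
    refine (eig_gen E i).trans (Submodule.span_mono ?_)
    rintro w ⟨L, hL, rfl⟩
    refine ⟨L.map fun l => ((), l), by rw [List.length_map, hL], ?_⟩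
    rw [List.map_map]
    congr 1
    apply List.map_congr_left
    intro l _
    exact V.map_id A _

/-- The classes on a product are spanned by products of classes of complementary degrees. -/
lemma gr_prod (X Y : 𝒱.Obj) (i : ℕ) : V.gr (X.prod Y) i ≤ Submodule.span V.K
    {w | ∃ (p q : ℕ) (a : V.H X) (b : V.H Y), p + q = i ∧ a ∈ V.gr X p ∧ b ∈ V.gr Y q ∧
      V.map (fst X Y) a * V.map (snd X Y) b = w} := by
  intro y hy
  rw [← proj_same (V.isInternal (X.prod Y)) hy]
  clear hy
  refine V.kunneth_induction (p := fun y => Pool.Agent.H914.proj (V.isInternal (X.prod Y)) i y ∈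
    Submodule.span V.K {w | ∃ (p q : ℕ) (a : V.H X) (b : V.H Y), p + q = i ∧ a ∈ V.gr X p ∧
      b ∈ V.gr Y q ∧ V.map (fst X Y) a * V.map (snd X Y) b = w}) ?_ ?_ y
  · intro a b ha hb
    rw [map_add]
    exact Submodule.add_mem _ ha hb
  · intro p q a ha b hb
    have h1 := V.mul_mem (V.map_mem (fst X Y) ha) (V.map_mem (snd X Y) hb)
    by_cases h : p + q = i
    · subst h
      rw [proj_same _ h1]
      exact Submodule.subset_span ⟨p, q, a, b, rfl, ha, hb, rfl⟩
    · rw [proj_ne _ h1 h]
      exact Submodule.zero_mem _

/-- Products. -/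
noncomputable def PowSys.prod {J J' : Type} (S : PowSys E X J) (S' : PowSys E Y J') :
    PowSys E (X.prod Y) (J ⊕ J') where
  q := Sum.elim (fun j => fst X Y ≫ S.q j) (fun j => snd X Y ≫ S'.q j)
  lift := by
    intro Z h
    obtain ⟨Ψ, hΨ⟩ := S.lift fun j => h (Sum.inl j)
    obtain ⟨Ψ', hΨ'⟩ := S'.lift fun j => h (Sum.inr j)
    refine ⟨Obj.lift Ψ Ψ', ?_⟩
    rintro (j | j)
    · rw [Sum.elim_inl, ← Category.assoc, Obj.lift_fst, hΨ]
    · rw [Sum.elim_inr, ← Category.assoc, Obj.lift_snd, hΨ']
  gen i := by
    refine (gr_prod X Y i).trans ?_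
    rw [Submodule.span_le]
    rintro w ⟨p, q, a, b, hpq, ha, hb, rfl⟩
    rw [SetLike.mem_coe]
    have h1 := S.gen p ha
    have h2 := S'.gen q hb
    clear ha hb
    induction h1 using Submodule.span_induction with
    | mem a ha =>
      obtain ⟨L, hL, rfl⟩ := ha
      induction h2 using Submodule.span_induction with
      | mem b hb =>
        obtain ⟨L', hL', rfl⟩ := hb
        apply Submodule.subset_span
        refine ⟨(L.map fun c => (Sum.inl c.1, c.2)) ++ L'.map fun c => (Sum.inr c.1, c.2), ?_, ?_⟩
        · rw [List.length_append, List.length_map, List.length_map, hL, hL', hpq]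
        · rw [List.map_append, List.map_map, List.map_map, List.prod_append, map_list_prod,
            map_list_prod, List.map_map, List.map_map]
          congr 2
          · apply List.map_congr_left
            intro c _
            rw [Function.comp_apply, Function.comp_apply, ← V.map_comp]
            rfl
          · apply List.map_congr_left
            intro c _
            rw [Function.comp_apply, Function.comp_apply, ← V.map_comp]
            rfl
      | zero => rw [map_zero, mul_zero]; exact Submodule.zero_mem _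
      | add x y _ _ hx hy => rw [map_add, mul_add]; exact Submodule.add_mem _ hx hy
      | smul r x _ hx => rw [map_smul, mul_smul_comm]; exact Submodule.smul_mem _ _ hx
    | zero => rw [map_zero, zero_mul]; exact Submodule.zero_mem _
    | add x y _ _ hx hy => rw [map_add, add_mul]; exact Submodule.add_mem _ hx hy
    | smul r x _ hx => rw [map_smul, smul_mul_assoc]; exact Submodule.smul_mem _ _ hx

end Pool.Agent.Helper70Rk
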