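import Mathlib

/-!
# Types of words: the combinatorial part
-/

namespace Pool.Agent.Helper70Rk

set_option linter.unusedSectionVars false

variable {ι : Type} [Fintype ι] [DecidableEq ι]

/-- The function `l ↦` multiplicity of `l`. -/
def typ (s : Multiset ι) (l : ι) : ℤ := (s.count l : ℤ)

omit [Fintype ι] in
lemma typ_add (s t : Multiset ι) : typ (s + t) = typ s + typ t := by
  funext l
  rw [typ, Multiset.count_add, Pi.add_apply, typ, typ]
  push_cast
  rfl

omit [Fintype ι] in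
lemma typ_inj {s t : Multiset ι} (h : typ s = typ t) : s = t := by
  ext l
  have := congrFun h l
  rw [typ, typ] at this
  exact_mod_cast this

omit [Fintype ι] in
lemma count_map_perm (s : Multiset ι) (π : Equiv.Perm ι) (l : ι) :
    (s.map π).count l = s.count (π.symm l) := by
  conv_lhs => rw [← π.apply_symm_apply l]
  exact Multiset.count_map_eq_count' _ _ π.injective _

/-- The properties of the set of universally algebraic types. -/
structure Calc (𝒰 : Multiset ι → Prop) (Γ : Set (Equiv.Perm ι)) (κ : Equiv.Perm ι) (Φ : Set ι)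
    [DecidablePred (· ∈ Φ)] : Prop where
  zero : 𝒰 0
  add : ∀ {s t}, 𝒰 s → 𝒰 t → 𝒰 (s + t)
  gal : ∀ {π s}, π ∈ Γ → 𝒰 s → 𝒰 (s.map π)
  inv : ∀ {π}, π ∈ Γ → π.symm ∈ Γ
  one : (1 : Equiv.Perm ι) ∈ Γ
  conj : κ ∈ Γ
  swap : ∀ l, κ l ∈ Φ ↔ l ∉ Φ
  invol : ∀ l, κ (κ l) = l
  pair : ∀ l, 𝒰 {l, κ l}
  cancel : ∀ {l s}, 𝒰 (s + {l, κ l}) → 𝒰 s
  hodge : ∀ {s}, 𝒰 s → (s.map fun l => if l ∈ Φ then (1 : ℤ) else -1).sum = 0

variable {𝒰 : Multiset ι → Prop} {Γ : Set (Equiv.Perm ι)} {κ : Equiv.Perm ι} {Φ : Set ι}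
  [DecidablePred (· ∈ Φ)]

namespace Calc

variable (C : Calc 𝒰 Γ κ Φ)
include C

omit [Fintype ι] in
lemma sym (t : Multiset ι) : 𝒰 (t + t.map κ) := by
  induction t using Multiset.induction with
  | empty => exact C.zero
  | cons l t ih =>
    have e : (l ::ₘ t) + (l ::ₘ t).map κ = {l, κ l} + (t + t.map κ) := by
      rw [Multiset.map_cons, ← Multiset.singleton_add, ← Multiset.singleton_add (κ l)]
      have : ({l, κ l} : Multiset ι) = {l} + {κ l} := rfl
      rw [this]
      abel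
    rw [e]
    exact C.add (C.pair l) ih

omit [Fintype ι] in
lemma cancel_sym (t : Multiset ι) {s : Multiset ι} (h : 𝒰 (s + (t + t.map κ))) : 𝒰 s := by
  induction t using Multiset.induction with
  | empty => simpa using h
  | cons l t ih =>
    apply ih
    apply C.cancel (l := l)
    have e : s + ((l ::ₘ t) + (l ::ₘ t).map κ) = s + (t + t.map κ) + {l, κ l} := by
      rw [Multiset.map_cons, ← Multiset.singleton_add, ← Multiset.singleton_add (κ l)]
      have : ({l, κ l} : Multiset ι) = {l} + {κ l} := rfl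
      rw [this]
      abel
    rwa [e] at h

/-- The group of relations. -/
def rel (𝒰 : Multiset ι → Prop) : AddSubgroup (ι → ℤ) :=
  AddSubgroup.closure {x | ∃ s, 𝒰 s ∧ typ s = x}

omit [Fintype ι] in
lemma saturated {s : Multiset ι} (h : typ s ∈ rel 𝒰) : 𝒰 s := by
  have key : ∀ x ∈ rel 𝒰, ∃ s₁ s₂, 𝒰 s₁ ∧ 𝒰 s₂ ∧ x = typ s₁ - typ s₂ := by
    intro x hx
    induction hx using AddSubgroup.closure_induction with
    | mem x hx =>
      obtain ⟨s, hs, rfl⟩ := hx
      refine ⟨s, 0, hs, C.zero, ?_⟩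
      have : typ (0 : Multiset ι) = 0 := by
        funext l
        rw [typ, Multiset.count_zero]
        rfl
      rw [this, sub_zero]
    | zero => exact ⟨0, 0, C.zero, C.zero, by rw [sub_self]⟩
    | add x y _ _ hx hy =>
      obtain ⟨s₁, s₂, h1, h2, rfl⟩ := hx
      obtain ⟨t₁, t₂, h3, h4, rfl⟩ := hy
      exact ⟨s₁ + t₁, s₂ + t₂, C.add h1 h3, C.add h2 h4, by rw [typ_add, typ_add]; abel⟩
    | neg x _ hx =>
      obtain ⟨s₁, s₂, h1, h2, rfl⟩ := hx
      exact ⟨s₂, s₁, h2, h1, by abel⟩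
  obtain ⟨s₁, s₂, h1, h2, h3⟩ := key _ h
  have h4 : s + s₂ = s₁ := by
    apply typ_inj
    rw [typ_add, h3]
    abel
  apply C.cancel_sym s₂
  rw [← add_assoc, h4]
  exact C.add h1 (C.gal C.conj h2)

lemma sum_eq (s : Multiset ι) (e : ι → ℤ) : (s.map e).sum = ∑ l, typ s l * e l := by
  rw [Finset.sum_multiset_map_count, Finset.sum_subset (Finset.subset_univ s.toFinset)]
  · exact Finset.sum_congr rfl fun l _ => by rw [nsmul_eq_mul, typ]
  · intro l _ hl
    rw [Multiset.mem_toFinset] at hl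
    rw [Multiset.count_eq_zero_of_notMem hl, zero_smul]

/-- The main combinatorial lemma. -/
theorem orbit
    (hodd : ∀ a : ι → ℤ, (∀ π ∈ Γ, ∑ l, a l * (if π l ∈ Φ then (1 : ℤ) else -1) = 0) →
      ∃ (r : ℕ) (τ : Fin r → Equiv.Perm ι), Odd r ∧ (∀ i, τ i ∈ Γ) ∧
        ∀ l, ∑ i, a (τ i l) = ∑ i, a (τ i (κ l)))
    {s t : Multiset ι} (h : ∀ π ∈ Γ, 𝒰 (s.map π + t)) : 𝒰 s := by
  set e : ι → ℤ := fun l => if l ∈ Φ then (1 : ℤ) else -1 with he
  have hek : ∀ l, e (κ l) = - e l := by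
    intro l
    rw [he]
    beta_reduce
    by_cases hl : l ∈ Φ
    · rw [if_pos hl, if_neg (by rw [C.swap]; exact not_not.2 hl)]
    · rw [if_neg hl, if_pos ((C.swap l).2 hl), neg_neg]
  have h1 : ∀ π ∈ Γ, ((s.map π).map e).sum + (t.map e).sum = 0 := by
    intro π hπ
    rw [← Multiset.sum_add, ← Multiset.map_add]
    exact C.hodge (h π hπ)
  have h2 : ((s.map κ).map e).sum = - (s.map e).sum := by
    rw [Multiset.map_map, C.sum_eq, C.sum_eq, ← Finset.sum_neg_distrib]
    refine Finset.sum_congr rfl fun l _ => ?_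
    rw [Function.comp_apply, hek, mul_neg]
  have h3 := h1 1 C.one
  have h4 := h1 κ C.conj
  rw [h2] at h4
  have h5 : ((s.map (1 : Equiv.Perm ι)).map e).sum = (s.map e).sum := by
    rw [Multiset.map_map]
    rfl
  rw [h5] at h3
  have h6 : (t.map e).sum = 0 := by linarith
  have h7 : ∀ π ∈ Γ, ∑ l, typ s l * (if π l ∈ Φ then (1 : ℤ) else -1) = 0 := by
    intro π hπ
    have h8 := h1 π hπ
    rw [h6, add_zero, Multiset.map_map, C.sum_eq] at h8
    exact h8
  obtain ⟨r, τ, hr, hτ, h8⟩ := hodd (typ s) h7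
  -- the symmetric sum of conjugates
  set M : Multiset ι := ∑ i, s.map (τ i).symm with hM
  have h9 : ∀ l, typ M l = ∑ i, typ s (τ i l) := by
    intro l
    rw [hM, typ, Multiset.count_sum']
    push_cast
    refine Finset.sum_congr rfl fun i _ => ?_
    rw [count_map_perm, typ]
    rfl
  have h10 : 𝒰 M := by
    have e1 : M = M.filter (· ∈ Φ) + (M.filter (· ∈ Φ)).map κ := by
      ext l
      rw [Multiset.count_add, count_map_perm]
      have h11 : κ.symm l = κ l := by
        rw [Equiv.symm_apply_eq, C.invol]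
      rw [h11]
      by_cases hl : l ∈ Φ
      · rw [Multiset.count_filter_of_pos hl, Multiset.count_filter_of_neg
          (by rw [C.swap]; exact not_not.2 hl), add_zero]
      · rw [Multiset.count_filter_of_neg hl, Multiset.count_filter_of_pos ((C.swap l).2 hl),
          zero_add]
        have h12 : typ M l = typ M (κ l) := by rw [h9, h9]; exact h8 l
        rw [typ, typ] at h12
        exact_mod_cast h12
    rw [e1]
    exact C.sym _
  -- congruences
  have h11 : ∀ π ∈ Γ, typ (s.map π) - typ s ∈ rel 𝒰 := by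
    intro π hπ
    have h12 : typ (s.map π + t) ∈ rel 𝒰 := AddSubgroup.subset_closure ⟨_, h π hπ, rfl⟩
    have h13 : typ (s + t) ∈ rel 𝒰 := by
      have h14 := h 1 C.one
      have e1 : s.map (1 : Equiv.Perm ι) = s := by
        rw [Equiv.Perm.coe_one, Multiset.map_id]
      rw [e1] at h14
      exact AddSubgroup.subset_closure ⟨_, h14, rfl⟩
    have h14 := AddSubgroup.sub_mem _ h12 h13
    rw [typ_add, typ_add] at h14
    have e1 : typ (s.map π) + typ t - (typ s + typ t) = typ (s.map π) - typ s := by abel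
    rwa [e1] at h14
  have h12 : (r : ℤ) • typ s ∈ rel 𝒰 := by
    have h13 : typ M ∈ rel 𝒰 := AddSubgroup.subset_closure ⟨_, h10, rfl⟩
    have h14 : ∑ i, (typ (s.map (τ i).symm) - typ s) ∈ rel 𝒰 :=
      AddSubgroup.sum_mem _ fun i _ => h11 _ (C.inv (hτ i))
    have h15 : typ M = ∑ i, typ (s.map (τ i).symm) := by
      funext l
      rw [h9, Finset.sum_apply]
      refine Finset.sum_congr rfl fun i _ => ?_
      rw [typ, typ, count_map_perm]
      rfl
    rw [Finset.sum_sub_distrib, ← h15, Finset.sum_const, Finset.card_univ, Fintype.card_fin] at h14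
    have h16 := AddSubgroup.sub_mem _ h13 h14
    rw [sub_sub_cancel] at h16
    rwa [natCast_zsmul]
  have h13 : (2 : ℤ) • typ s ∈ rel 𝒰 := by
    have h14 : typ (s + s.map κ) ∈ rel 𝒰 := AddSubgroup.subset_closure ⟨_, C.sym s, rfl⟩
    have h15 := AddSubgroup.sub_mem _ h14 (h11 κ C.conj)
    rw [typ_add] at h15
    have e1 : typ s + typ (s.map κ) - (typ (s.map κ) - typ s) = (2 : ℤ) • typ s := by
      rw [two_smul]; abel
    rwa [e1] at h15
  apply C.saturated
  obtain ⟨q, hq⟩ := hr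
  have h14 := AddSubgroup.sub_mem _ h12 (AddSubgroup.zsmul_mem _ h13 q)
  have e1 : (r : ℤ) • typ s - (q : ℤ) • (2 : ℤ) • typ s = typ s := by
    rw [hq, smul_smul, ← sub_smul]
    push_cast
    have : (2 * (q : ℤ) + 1 - q * 2) = 1 := by ring
    rw [this, one_smul]
  rwa [e1] at h14

end Calc

end Pool.Agent.Helper70Rk
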