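import Pool.Agent.Helper70_rk1.Grp

/-!
# Cyclic groups and relations
-/

namespace Pool.Agent.Helper70Rk

set_option linter.unusedSectionVars false
set_option linter.unusedVariables false

section Sums

lemma sum_range_mul' {α : Type*} [AddCommMonoid α] (F : ℕ → α) (M q : ℕ) :
    ∑ l ∈ Finset.range (M * q), F l = ∑ i ∈ Finset.range M, ∑ j ∈ Finset.range q, F (i + M * j) := by
  induction q with
  | zero => simp
  | succ q ih =>
    rw [Nat.mul_succ, Finset.sum_range_add, ih, ← Finset.sum_add_distrib]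
    refine Finset.sum_congr rfl fun i _ => ?_
    rw [Finset.sum_range_succ, add_comm (M * q) i]

lemma per_mul {α : Type*} {F : ℕ → α} {n : ℕ} (h : ∀ l, F (l + n) = F l) (l c : ℕ) :
    F (l + n * c) = F l := by
  induction c with
  | zero => rw [mul_zero, add_zero]
  | succ c ih => rw [Nat.mul_succ, ← add_assoc, h, ih]

/-- The sum over a period does not depend on the starting point. -/
lemma sum_shift {α : Type*} [AddCommGroup α] {F : ℕ → α} {n : ℕ} (h : ∀ l, F (l + n) = F l)
    (c : ℕ) : ∑ l ∈ Finset.range n, F (l + c) = ∑ l ∈ Finset.range n, F l := by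
  induction c with
  | zero => rfl
  | succ c ih =>
    have h1 := Finset.sum_range_succ (fun l => F (l + c)) n
    have h2 := Finset.sum_range_succ' (fun l => F (l + c)) n
    rw [h1] at h2
    have h3 : F (n + c) = F (0 + c) := by rw [add_comm n c, h, zero_add]
    rw [h3] at h2
    have h4 := add_right_cancel h2
    rw [← ih, h4]
    exact Finset.sum_congr rfl fun l _ => by rw [add_assoc, add_comm 1 c]

end Sums

/-- An integral polynomial of small degree does not vanish at a primitive root of unity of `2`-power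
order. -/
lemma coef_zero {r : ℕ} {ω : ℂ} (hω : IsPrimitiveRoot ω (2 ^ (r + 1))) {e : ℕ → ℤ}
    (h : ∑ i ∈ Finset.range (2 ^ r), (e i : ℂ) * ω ^ i = 0) : ∀ i < 2 ^ r, e i = 0 := by
  set P : Polynomial ℤ := ∑ i ∈ Finset.range (2 ^ r), Polynomial.C (e i) * Polynomial.X ^ i with hP
  have h1 : Polynomial.aeval ω P = 0 := by
    rw [hP, map_sum, ← h]
    refine Finset.sum_congr rfl fun i _ => ?_
    rw [map_mul, Polynomial.aeval_C, map_pow, Polynomial.aeval_X]
    rfl
  have hint : IsIntegral ℤ ω := hω.isIntegral (by positivity)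
  have h2 : minpoly ℤ ω ∣ P := minpoly.isIntegrallyClosed_dvd hint h1
  have h3 : (minpoly ℤ ω).natDegree = 2 ^ r := by
    rw [← Polynomial.cyclotomic_eq_minpoly hω (by positivity), Polynomial.natDegree_cyclotomic,
      Nat.totient_prime_pow_succ Nat.prime_two]
    simp
  have h4 : P = 0 := by
    by_contra hne
    have h5 := Polynomial.natDegree_le_of_dvd h2 hne
    have h6 : P.natDegree < 2 ^ r := by
      have h7 : P.degree < (2 ^ r : ℕ) := by
        rw [hP]
        refine (Polynomial.degree_sum_le _ _).trans_lt ?_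
        rw [Finset.sup_lt_iff (WithBot.bot_lt_coe _)]
        intro i hi
        refine (Polynomial.degree_C_mul_X_pow_le _ _).trans_lt ?_
        exact_mod_cast Finset.mem_range.1 hi
      exact (Polynomial.natDegree_lt_iff_degree_lt hne).2 h7
    omega
  intro i hi
  have h5 := congrArg (fun Q => Polynomial.coeff Q i) h4
  simp only [hP, Polynomial.finsetSum_coeff, Polynomial.coeff_C_mul_X_pow,
    Polynomial.coeff_zero] at h5
  rw [Finset.sum_eq_single i] at h5
  · rwa [if_pos rfl] at h5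
  · intro j _ hj
    rw [if_neg (Ne.symm hj)]
  · intro hi'
    exact absurd (Finset.mem_range.2 hi) hi'

/-- The arithmetic core: periodic functions which are orthogonal to all translates of an
antiperiodic function with odd values. -/
lemma cyc_core {r q : ℕ} (hq : Odd q) {a e : ℕ → ℤ}
    (ha : ∀ l, a (l + 2 ^ (r + 1) * q) = a l) (he : ∀ l, e (l + 2 ^ (r + 1) * q) = e l)
    (hodd : ∀ l, Odd (e l)) (hanti : ∀ l, e (l + 2 ^ r * q) = - e l)
    (hrel : ∀ k, ∑ l ∈ Finset.range (2 ^ (r + 1) * q), a l * e (l + k) = 0) (i : ℕ) :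
    ∑ j ∈ Finset.range q, a (i + 2 ^ (r + 1) * j) =
      ∑ j ∈ Finset.range q, a (i + 2 ^ r * q + 2 ^ (r + 1) * j) := by
  set M := 2 ^ (r + 1) with hM
  set N := 2 ^ r with hN
  have hMN : M = N * 2 := by rw [hM, hN, pow_succ]
  set a' : ℕ → ℤ := fun i => ∑ j ∈ Finset.range q, a (i + M * j) with ha'
  set e' : ℕ → ℤ := fun i => ∑ j ∈ Finset.range q, e (i + M * j) with he'
  have hper : ∀ (b : ℕ → ℤ), (∀ l, b (l + M * q) = b l) → ∀ i,
      ∑ j ∈ Finset.range q, b (i + M + M * j) = ∑ j ∈ Finset.range q, b (i + M * j) := by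
    intro b hb i
    have h1 := Finset.sum_range_succ (fun j => b (i + M * j)) q
    have h2 := Finset.sum_range_succ' (fun j => b (i + M * j)) q
    rw [h1, hb, mul_zero, add_zero] at h2
    rw [add_right_cancel h2]
    exact Finset.sum_congr rfl fun j _ => by rw [Nat.mul_succ, add_assoc, add_comm M]
  have hpa : ∀ i, a' (i + M) = a' i := hper a ha
  have hpe : ∀ i, e' (i + M) = e' i := hper e he
  obtain ⟨t, ht⟩ := hq
  have hNq : N * q = N + M * t := by rw [ht, hMN]; ring
  have hae : ∀ i, e' (i + N) = - e' i := by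
    intro i
    have h1 : e' (i + N * q) = - e' i := by
      rw [he']
      beta_reduce
      rw [← Finset.sum_neg_distrib]
      refine Finset.sum_congr rfl fun j _ => ?_
      rw [← hanti, add_right_comm]
    rw [hNq, ← add_assoc, per_mul hpe] at h1
    exact h1
  have hodd' : ∀ i, Odd (e' i) := by
    intro i
    have h1 : ∀ n : ℕ, (∑ j ∈ Finset.range n, e (i + M * j)) % 2 = (n : ℤ) % 2 := by
      intro n
      induction n with
      | zero => simp
      | succ n ih =>
        rw [Finset.sum_range_succ]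
        obtain ⟨c, hc⟩ := hodd (i + M * n)
        push_cast
        omega
    have h2 := h1 q
    rw [Int.odd_iff]
    rw [he']
    beta_reduce
    rw [h2, ht]
    push_cast
    omega
  -- the root of unity
  obtain ⟨ω, hω⟩ : ∃ ω : ℂ, IsPrimitiveRoot ω M :=
    ⟨_, Complex.isPrimitiveRoot_exp M (by rw [hM]; positivity)⟩
  have hω' : IsPrimitiveRoot ω⁻¹ M := hω.inv
  have hω0 : ω ≠ 0 := hω.ne_zero (by rw [hM]; positivity)
  have hN0 : 0 < N := by rw [hN]; positivity
  have hM0 : 0 < M := by rw [hM]; positivity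
  have hneg : ∀ z : ℂ, IsPrimitiveRoot z M → z ^ N = -1 := by
    intro z hz
    have h1 : z ^ N * z ^ N = 1 := by rw [← pow_add, ← mul_two, ← hMN, hz.pow_eq_one]
    rcases mul_self_eq_one_iff.1 h1 with h2 | h2
    · have h3 := Nat.le_of_dvd hN0 ((hz.pow_eq_one_iff_dvd N).1 h2)
      omega
    · exact h2
  have hfold : ∀ (z : ℂ), IsPrimitiveRoot z M → ∀ b : ℕ → ℤ,
      ∑ l ∈ Finset.range (M * q), (b l : ℂ) * z ^ l =
        ∑ i ∈ Finset.range N, ((∑ j ∈ Finset.range q, b (i + M * j) -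
          ∑ j ∈ Finset.range q, b (i + N + M * j) : ℤ) : ℂ) * z ^ i := by
    intro z hz b
    rw [sum_range_mul']
    have h1 : ∀ i, ∑ j ∈ Finset.range q, (b (i + M * j) : ℂ) * z ^ (i + M * j) =
        ((∑ j ∈ Finset.range q, b (i + M * j) : ℤ) : ℂ) * z ^ i := by
      intro i
      rw [Int.cast_sum, Finset.sum_mul]
      refine Finset.sum_congr rfl fun j _ => ?_
      rw [pow_add, pow_mul, hz.pow_eq_one, one_pow, mul_one]
    rw [Finset.sum_congr rfl fun i _ => h1 i, hMN, mul_two, Finset.sum_range_add,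
      ← Finset.sum_add_distrib]
    refine Finset.sum_congr rfl fun i _ => ?_
    rw [← mul_two, ← hMN, pow_add, hneg z hz, add_comm N i]
    push_cast
    ring
  have hprod : (∑ l ∈ Finset.range (M * q), (a l : ℂ) * ω⁻¹ ^ l) *
      (∑ l ∈ Finset.range (M * q), (e l : ℂ) * ω ^ l) = 0 := by
    have h1 : ∀ l, ∑ k ∈ Finset.range (M * q), (e (k + l) : ℂ) * ω ^ (k + l) =
        ∑ k ∈ Finset.range (M * q), (e k : ℂ) * ω ^ k := by
      intro l
      refine sum_shift (F := fun k => (e k : ℂ) * ω ^ k) (fun k => ?_) l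
      rw [he, pow_add, pow_mul, hω.pow_eq_one, one_pow, mul_one]
    rw [Finset.sum_mul]
    have h2 : ∀ l ∈ Finset.range (M * q), (a l : ℂ) * ω⁻¹ ^ l *
        ∑ k ∈ Finset.range (M * q), (e k : ℂ) * ω ^ k =
        ∑ k ∈ Finset.range (M * q), ((a l * e (l + k) : ℤ) : ℂ) * ω ^ k := by
      intro l _
      rw [← h1 l, Finset.mul_sum]
      refine Finset.sum_congr rfl fun k _ => ?_
      have h3 : ω⁻¹ ^ l * ω ^ l = 1 := by rw [← mul_pow, inv_mul_cancel₀ hω0, one_pow]
      rw [add_comm l k, pow_add]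
      push_cast
      linear_combination (a l : ℂ) * e (k + l) * ω ^ k * h3
    rw [Finset.sum_congr rfl h2, Finset.sum_comm]
    refine Finset.sum_eq_zero fun k _ => ?_
    rw [← Finset.sum_mul, ← Int.cast_sum, hrel k, Int.cast_zero, zero_mul]
  have hene : (∑ l ∈ Finset.range (M * q), (e l : ℂ) * ω ^ l) ≠ 0 := by
    intro h0
    rw [hfold ω hω e] at h0
    have h1 := coef_zero hω h0 0 hN0
    have h2 : e' (0 + N) = - e' 0 := hae 0
    obtain ⟨c, hc⟩ := hodd' 0
    change e' 0 - e' (0 + N) = 0 at h1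
    omega
  have ha0 := (mul_eq_zero.1 hprod).resolve_right hene
  rw [hfold _ hω' a] at ha0
  have h1 : ∀ i < N, a' i = a' (i + N) := fun i hi => sub_eq_zero.1 (coef_zero hω' ha0 i hi)
  have h2 : ∀ i < M, a' i = a' (i + N) := by
    intro i hi
    by_cases h3 : i < N
    · exact h1 i h3
    · obtain ⟨i', rfl⟩ := Nat.exists_eq_add_of_le (not_lt.1 h3)
      rw [add_comm N i', ← h1 i' (by omega), add_assoc, ← mul_two, ← hMN, hpa]
  have h3 : a' i = a' (i + N) := by
    have h4 := h2 (i % M) (Nat.mod_lt _ hM0)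
    have h5 := per_mul hpa (i % M) (i / M)
    have h6 := per_mul hpa (i % M + N) (i / M)
    rw [Nat.mod_add_div] at h5
    rw [show i % M + N + M * (i / M) = i % M + M * (i / M) + N by ring, Nat.mod_add_div] at h6
    rw [h5, h6, h4]
  have h4 : a' (i + N * q) = a' (i + N) := by rw [hNq, ← add_assoc, per_mul hpa]
  exact h3.trans h4.symm

/-- The sum of an odd number of odd numbers is odd. -/
lemma odd_sum_odd {α : Type*} (F : Finset α) (e : α → ℤ) (he : ∀ a, Odd (e a))
    (hF : Odd F.card) : Odd (∑ a ∈ F, e a) := by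
  classical
  have key : ∀ F : Finset α, (∑ a ∈ F, e a) % 2 = (F.card : ℤ) % 2 := by
    intro F
    induction F using Finset.induction_on with
    | empty => simp
    | insert a F ha ih =>
      rw [Finset.sum_insert ha, Finset.card_insert_of_notMem ha]
      obtain ⟨c, hc⟩ := he a
      push_cast
      omega
  rw [Int.odd_iff, key F]
  obtain ⟨c, hc⟩ := hF
  omega

/-- If the group of the permutations of `R` induced by automorphisms is transitive and has a normal
subgroup of odd order with a cyclic quotient, then all relations are annihilated by odd sums. -/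
theorem oddAnnihilated_quot {R : Finset ℂ} {Φ : Set ℂ} (hc : ConjCentral R)
    (hconj : ∀ z ∈ R, starRingEnd ℂ z ∈ R)
    (hΦ : ∀ z ∈ R, starRingEnd ℂ z ∈ Φ ↔ z ∉ Φ)
    (htr : ∀ z w : R, ∃ π ∈ galPerm R, π z = w) (H : Subgroup (galPerm R)) (hHn : H.Normal)
    (hodd : Odd (Nat.card H)) (hcyc : IsCyclic (galPerm R ⧸ H)) :
    OddAnnihilated R Φ := by
  classical
  intro a ha
  rcases R.eq_empty_or_nonempty with rfl | ⟨z₁, hz₁⟩
  · exact ⟨1, fun _ => RingEquiv.refl ℂ, odd_one, fun z hz => absurd hz (Finset.notMem_empty z)⟩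
  obtain ⟨x, hx⟩ := hcyc.exists_generator
  obtain ⟨γ, rfl⟩ := QuotientGroup.mk_surjective x
  set z₀ : R := ⟨z₁, hz₁⟩ with hz₀
  set γ' : galPerm R ⧸ H := (γ : galPerm R ⧸ H) with hγ'
  set n := orderOf γ' with hn
  have : Fintype (galPerm R) := Fintype.ofFinite _
  have : Fintype H := Fintype.ofFinite _
  have hn0 : 0 < n := orderOf_pos γ'
  -- decomposition
  have hpow : ∀ l : ℕ, ((γ ^ l : galPerm R) : galPerm R ⧸ H) = γ' ^ l := fun l => rfl
  have hdec : ∀ g : galPerm R, ∃ l < n, ∃ h : H, g = h * γ ^ l := by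
    intro g
    obtain ⟨l, hl⟩ := (mem_powers_iff_mem_zpowers (x := γ') (y := (g : galPerm R ⧸ H))).2 (hx g)
    refine ⟨l % n, Nat.mod_lt _ hn0, ?_⟩
    have h1 : γ' ^ (l % n) = (g : galPerm R ⧸ H) := by
      rw [hn, pow_mod_orderOf]
      exact hl
    rw [← hpow, QuotientGroup.eq] at h1
    have h2 : g * (γ ^ (l % n))⁻¹ ∈ H := hHn.mem_comm h1
    exact ⟨⟨_, h2⟩, by rw [Subgroup.coe_mk, inv_mul_cancel_right]⟩
  have hmem : ∀ (h : H) (l : ℕ), ((h * γ ^ l : galPerm R) : galPerm R ⧸ H) = γ' ^ l := by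
    intro h l
    rw [← hpow, QuotientGroup.eq]
    refine hHn.mem_comm ?_
    rw [mul_inv_rev, ← mul_assoc, mul_inv_cancel, one_mul]
    exact H.inv_mem h.2
  have hbij : Function.Bijective
      (fun p : Fin n × H => ((p.2 : galPerm R) * γ ^ (p.1 : ℕ) : galPerm R)) := by
    constructor
    · rintro ⟨l, h⟩ ⟨l', h'⟩ heq
      beta_reduce at heq
      have h1 : γ' ^ (l : ℕ) = γ' ^ (l' : ℕ) := by rw [← hmem h, heq, hmem]
      have h2 : (l : ℕ) = l' := pow_injOn_Iio_orderOf l.2 l'.2 h1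
      have h3 : l = l' := Fin.ext h2
      subst h3
      have h4 : h = h' := Subtype.ext (mul_right_cancel heq)
      rw [h4]
    · intro g
      obtain ⟨l, hl, h, hg⟩ := hdec g
      exact ⟨⟨⟨l, hl⟩, h⟩, hg.symm⟩
  have hsumG : ∀ f : galPerm R → ℤ,
      ∑ g, f g = ∑ l ∈ Finset.range n, ∑ h : H, f ((h : galPerm R) * γ ^ l) := by
    intro f
    rw [← hbij.sum_comp f, Fintype.sum_prod_type, Finset.sum_range]
  -- the action
  set ev : galPerm R → ℂ := fun g => ((g : Equiv.Perm R) z₀ : ℂ) with hev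
  have hzero : ∀ F : ℂ → ℤ, ∑ z ∈ R, F z = 0 → ∑ g, F (ev g) = 0 := by
    intro F hF
    have h1 : ∀ w : R, ∑ g : galPerm R, F ((g : Equiv.Perm R) w : ℂ) = ∑ g, F (ev g) := by
      intro w
      obtain ⟨π, hπ, rfl⟩ := htr z₀ w
      exact Fintype.sum_equiv (Equiv.mulRight (⟨π, hπ⟩ : galPerm R)) _ _ fun g => rfl
    have h2 : ∀ g : galPerm R, ∑ w : R, F ((g : Equiv.Perm R) w : ℂ) = 0 := by
      intro g
      rw [Equiv.sum_comp (g : Equiv.Perm R) (fun w : R => F (w : ℂ)), Finset.sum_coe_sort]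
      exact hF
    have h3 : ∑ w : R, ∑ g : galPerm R, F ((g : Equiv.Perm R) w : ℂ) = 0 := by
      rw [Finset.sum_comm]
      exact Finset.sum_eq_zero fun g _ => h2 g
    rw [Finset.sum_congr rfl fun w _ => h1 w, Finset.sum_const, nsmul_eq_mul] at h3
    refine (mul_eq_zero.1 h3).resolve_left ?_
    have : Nonempty R := ⟨z₀⟩
    exact_mod_cast Fintype.card_ne_zero
  choose τ hτ using fun g : galPerm R => g.2
  have hτev : ∀ g g' : galPerm R, τ g (ev g') = ev (g * g') := fun g g' => (hτ g _).symm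
  have hevR : ∀ g, ev g ∈ R := fun g => Subtype.property _
  -- the averages
  set av : (ℂ → ℤ) → ℕ → ℤ := fun F l => ∑ h : H, F (ev ((h : galPerm R) * γ ^ l)) with hav
  have hav' : ∀ (F : ℂ → ℤ) (k l : ℕ) (h₁ : H),
      ∑ h : H, F (ev ((h : galPerm R) * γ ^ k * (h₁ * γ ^ l))) = av F (l + k) := by
    intro F k l h₁
    have h2 : γ ^ k * h₁ * (γ ^ k)⁻¹ ∈ H := hHn.conj_mem _ h₁.2 _
    refine Fintype.sum_equiv (Equiv.mulRight (⟨_, h2⟩ : H)) _ _ fun h => ?_
    congr 2
    change (h : galPerm R) * γ ^ k * (h₁ * γ ^ l) = h * (γ ^ k * h₁ * (γ ^ k)⁻¹) * γ ^ (l + k)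
    rw [add_comm l k, pow_add]
    group
  have hper : ∀ (F : ℂ → ℤ) (l : ℕ), av F (l + n) = av F l := by
    intro F l
    have h2 : γ ^ n ∈ H := by
      rw [← QuotientGroup.eq_one_iff, hpow, hn, pow_orderOf_eq_one]
    refine Fintype.sum_equiv (Equiv.mulRight (⟨_, h2⟩ : H)) _ _ fun h => ?_
    congr 2
    change (h : galPerm R) * γ ^ (l + n) = h * γ ^ n * γ ^ l
    rw [add_comm l n, pow_add, mul_assoc]
  -- complex conjugation
  have hconjR : ∀ z : R, starRingEnd ℂ (z : ℂ) ∈ R := fun z => hconj _ z.2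
  let κ : Equiv.Perm R :=
    { toFun := fun z => ⟨starRingEnd ℂ (z : ℂ), hconjR z⟩
      invFun := fun z => ⟨starRingEnd ℂ (z : ℂ), hconjR z⟩
      left_inv := fun z => Subtype.ext (Complex.conj_conj _)
      right_inv := fun z => Subtype.ext (Complex.conj_conj _) }
  have hκG : κ ∈ galPerm R := ⟨starRingAut, fun z => rfl⟩
  let c₀ : galPerm R := ⟨κ, hκG⟩
  have hcev : ∀ g, ev (c₀ * g) = starRingEnd ℂ (ev g) := fun g => rfl
  have hccomm : ∀ g : galPerm R, g * c₀ = c₀ * g := by
    intro g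
    refine Subtype.ext (Equiv.ext fun z => Subtype.ext ?_)
    change ((g : Equiv.Perm R) (κ z) : ℂ) = starRingEnd ℂ ((g : Equiv.Perm R) z : ℂ)
    rw [hτ g, hτ g, ← hc (τ g) z z.2]
    rfl
  have hc2 : c₀ * c₀ = 1 := by
    refine Subtype.ext (Equiv.ext fun z => Subtype.ext ?_)
    exact Complex.conj_conj _
  have hcH : c₀ ∉ H := by
    intro hcH
    have h1 : orderOf (⟨c₀, hcH⟩ : H) ∣ Nat.card H := orderOf_dvd_natCard _
    have h2 : orderOf (⟨c₀, hcH⟩ : H) = 2 := by
      refine orderOf_eq_prime ?_ ?_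
      · rw [sq]
        exact Subtype.ext hc2
      · intro h3
        have h4 : c₀ = 1 := congrArg Subtype.val h3
        have h5 := hcev 1
        rw [h4, mul_one] at h5
        have h6 := hΦ _ (hevR 1)
        rw [← h5] at h6
        exact iff_not_self h6
    rw [h2] at h1
    obtain ⟨c, hcc⟩ := hodd
    omega
  obtain ⟨s, hsn, h₀, hs⟩ := hdec c₀
  have hs0 : s ≠ 0 := by
    rintro rfl
    rw [pow_zero, mul_one] at hs
    exact hcH (hs ▸ h₀.2)
  have h2s : n ∣ s + s := by
    rw [hn, orderOf_dvd_iff_pow_eq_one, pow_add, ← hmem h₀, ← hs, ← QuotientGroup.mk_mul, hc2]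
    rfl
  have hns : n = s + s := by
    obtain ⟨c, hcc⟩ := h2s
    have h1 : c < 2 := by
      by_contra h
      have h2 : n * 2 ≤ n * c := Nat.mul_le_mul_left _ (not_lt.1 h)
      omega
    have h2 : c ≠ 0 := by
      rintro rfl
      omega
    have h3 : c = 1 := by omega
    rw [hcc, h3, mul_one]
  obtain ⟨r, q, hq, hrq⟩ := Nat.exists_eq_two_pow_mul_odd hs0
  have hnM : n = 2 ^ (r + 1) * q := by rw [hns, hrq, pow_succ]; ring
  -- the relation between the averages
  have hrel : ∀ k, ∑ l ∈ Finset.range n, av a l * av (sgn Φ) (l + k) = 0 := by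
    intro k
    have h1 : ∀ h' : H, ∑ l ∈ Finset.range n, ∑ h : H, a (ev ((h : galPerm R) * γ ^ l)) *
        sgn Φ (ev ((h' : galPerm R) * γ ^ k * (h * γ ^ l))) = 0 := by
      intro h'
      rw [← hsumG fun g => a (ev g) * sgn Φ (ev ((h' : galPerm R) * γ ^ k * g))]
      have h2 := hzero (fun z => a z * sgn Φ (τ ((h' : galPerm R) * γ ^ k) z)) (ha _)
      rw [← h2]
      exact Finset.sum_congr rfl fun g _ => by rw [hτev]
    calc ∑ l ∈ Finset.range n, av a l * av (sgn Φ) (l + k)
        = ∑ l ∈ Finset.range n, ∑ h : H, ∑ h' : H, a (ev ((h : galPerm R) * γ ^ l)) *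
            sgn Φ (ev ((h' : galPerm R) * γ ^ k * (h * γ ^ l))) := by
          refine Finset.sum_congr rfl fun l _ => ?_
          rw [Finset.sum_mul]
          refine Finset.sum_congr rfl fun h _ => ?_
          rw [← Finset.mul_sum, hav' (sgn Φ) k l h]
      _ = ∑ h' : H, ∑ l ∈ Finset.range n, ∑ h : H, a (ev ((h : galPerm R) * γ ^ l)) *
            sgn Φ (ev ((h' : galPerm R) * γ ^ k * (h * γ ^ l))) := by
          rw [Finset.sum_congr rfl fun l _ => Finset.sum_comm]
          exact Finset.sum_comm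
      _ = 0 := Finset.sum_eq_zero fun h' _ => h1 h'
  have hconjav : ∀ (F : ℂ → ℤ) (l : ℕ), av F (l + s) = av (fun z => F (starRingEnd ℂ z)) l := by
    intro F l
    have h2 : ∀ h : H, (h : galPerm R) * γ ^ (l + s) = (h * (h₀ : galPerm R)⁻¹) * (c₀ * γ ^ l) := by
      intro h
      rw [hs, add_comm l s, pow_add]
      group
    rw [hav]
    beta_reduce
    refine Fintype.sum_equiv (Equiv.mulRight (h₀⁻¹ : H)) _ _ fun h => ?_
    rw [h2]
    change F (ev _) = F (starRingEnd ℂ (ev ((h * (h₀ : galPerm R)⁻¹) * γ ^ l)))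
    rw [← hcev, ← mul_assoc, ← mul_assoc, hccomm]
  have hcore := cyc_core (r := r) hq (a := av a) (e := av (sgn Φ))
    (fun l => by rw [← hnM, hper]) (fun l => by rw [← hnM, hper])
    (fun l => odd_sum_odd _ _ (fun h => sgn_odd _ _) (by
      rw [Finset.card_univ, ← Nat.card_eq_fintype_card]; exact hodd))
    (fun l => by
      rw [← hrq, hconjav, hav]
      beta_reduce
      rw [← Finset.sum_neg_distrib]
      refine Finset.sum_congr rfl fun h _ => ?_
      by_cases hm : ev ((h : galPerm R) * γ ^ l) ∈ Φ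
      · rw [sgn_mem hm, sgn_notMem fun h' => (hΦ _ (hevR _)).1 h' hm]
      · rw [sgn_notMem hm, sgn_mem ((hΦ _ (hevR _)).2 hm), neg_neg])
    (fun k => by rw [← hnM]; exact hrel k)
  -- the automorphisms
  let e := (Fintype.equivFin (H × Fin q)).symm
  refine ⟨Fintype.card (H × Fin q),
    fun i => τ (((e i).1 : galPerm R) * γ ^ (2 ^ (r + 1) * ((e i).2 : ℕ))), ?_, fun z hz => ?_⟩
  · rw [Fintype.card_prod, Fintype.card_fin, ← Nat.card_eq_fintype_card]
    exact hodd.mul hq
  obtain ⟨π, hπ, hπz⟩ := htr z₀ ⟨z, hz⟩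
  obtain ⟨l, _, h₁, hl⟩ := hdec ⟨π, hπ⟩
  have hzev : z = ev ((h₁ : galPerm R) * γ ^ l) := by
    rw [← hl]
    exact (congrArg Subtype.val hπz).symm
  have hall : ∀ F : ℂ → ℤ, ∑ i, F (τ (((e i).1 : galPerm R) *
      γ ^ (2 ^ (r + 1) * ((e i).2 : ℕ))) z) =
      ∑ j ∈ Finset.range q, av F (l + 2 ^ (r + 1) * j) := by
    intro F
    rw [e.sum_comp (fun p : H × Fin q =>
      F (τ ((p.1 : galPerm R) * γ ^ (2 ^ (r + 1) * (p.2 : ℕ))) z)), Fintype.sum_prod_type,
      Finset.sum_comm, Finset.sum_range]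
    refine Finset.sum_congr rfl fun j _ => ?_
    rw [← hav' F (2 ^ (r + 1) * j) l h₁]
    refine Finset.sum_congr rfl fun h _ => ?_
    rw [hzev, hτev]
  rw [hall a, hcore l]
  have h1 : ∀ i, a (τ (((e i).1 : galPerm R) * γ ^ (2 ^ (r + 1) * ((e i).2 : ℕ)))
      (starRingEnd ℂ z)) = a (starRingEnd ℂ (τ (((e i).1 : galPerm R) *
        γ ^ (2 ^ (r + 1) * ((e i).2 : ℕ))) z)) := fun i => by rw [hc _ z hz]
  rw [Finset.sum_congr rfl fun i _ => h1 i, hall fun z => a (starRingEnd ℂ z)]
  refine Finset.sum_congr rfl fun j _ => ?_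
  rw [← hrq, add_right_comm, hconjav]

/-- A finite group with a cyclic Sylow `2`-subgroup has a normal subgroup of odd order with a cyclic
quotient. -/
lemma exists_normal_odd {G : Type} [Group G] [Finite G] (P : Sylow 2 G) (hP : IsCyclic P) :
    ∃ (H : Subgroup G) (_ : H.Normal), Odd (Nat.card H) ∧ IsCyclic (G ⧸ H) := by
  by_cases heven : Even (Nat.card G)
  · have hmin : (Nat.card G).minFac = 2 := (Nat.minFac_eq_two_iff _).2 heven.two_dvd
    have h2 : Fact (Nat.Prime 2) := ⟨Nat.prime_two⟩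
    have hN := hP.normalizer_le_centralizer hmin
    refine ⟨(MonoidHom.transferSylow P hN).ker, inferInstance, ?_, ?_⟩
    · have h3 := MonoidHom.not_dvd_card_ker_transferSylow P hN
      rw [← Nat.not_even_iff_odd]
      exact fun h4 => h3 h4.two_dvd
    · have h4 : IsCyclic (MonoidHom.transferSylow P hN).range := inferInstance
      exact isCyclic_of_surjective
        (QuotientGroup.quotientKerEquivRange (MonoidHom.transferSylow P hN)).symm
        (QuotientGroup.quotientKerEquivRange (MonoidHom.transferSylow P hN)).symm.surjective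
  · refine ⟨⊤, inferInstance, ?_, ?_⟩
    · rw [Subgroup.card_top]
      exact Nat.not_even_iff_odd.1 heven
    · have : Subsingleton (G ⧸ (⊤ : Subgroup G)) := QuotientGroup.subsingleton_quotient_top
      infer_instance

/-- If the group of the permutations of `R` induced by automorphisms is transitive and its Sylow
`2`-subgroups are cyclic, then all relations are annihilated by odd sums. -/
theorem oddAnnihilated_sylow {R : Finset ℂ} {Φ : Set ℂ} (hc : ConjCentral R)
    (hconj : ∀ z ∈ R, starRingEnd ℂ z ∈ R)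
    (hΦ : ∀ z ∈ R, starRingEnd ℂ z ∈ Φ ↔ z ∉ Φ)
    (htr : ∀ z w : R, ∃ π ∈ galPerm R, π z = w) (P : Sylow 2 (galPerm R)) (hP : IsCyclic P) :
    OddAnnihilated R Φ := by
  obtain ⟨H, hHn, hodd, hcyc⟩ := exists_normal_odd P hP
  exact oddAnnihilated_quot hc hconj hΦ htr H hHn hodd hcyc

end Pool.Agent.Helper70Rk
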