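import Pool.Agent.Helper70_rk1.Rank

/-!
# Rank-one motives of CM type are Tate motives
-/

open CategoryTheory AlgebraicGeometry TensorProduct

universe u v

namespace Pool.Agent.Helper70Rk

set_option linter.unusedSectionVars false
set_option linter.unusedVariables false

open Pool.Agent.H914 Pool.Agent.H914.VarClass Pool.Agent.H914.VarClass.Obj
  Pool.Agent.H914.WeilCohomology Pool.Agent.Y121.AHS Pool.Agent.R908 Module
open Pool.Agent.Y133.Half (pw)

variable {k : Type u} [Field k] {𝒱 : VarClass k} {ops : CycleOps 𝒱}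
  {T : HodgeTheory ops} {X Y A : 𝒱.Obj} {m : A.prod A ⟶ A} {f : A ⟶ A}

lemma em_gr {x : T.W.H X} {i : ℕ} (hx : x ∈ T.W.gr X i) : em T x ∈ (VC T).gr X i :=
  Submodule.tmul_mem_baseChange_of_mem (p := T.W.gr X i) (1 : ℂ) hx

lemma em_mul (a b : T.W.H X) : em T (a * b) = em T a * em T b := by
  have h : ((1 : ℂ) ⊗ₜ[T.W.K] a) * ((1 : ℂ) ⊗ₜ[T.W.K] b) = (1 : ℂ) ⊗ₜ[T.W.K] (a * b) := by
    rw [Algebra.TensorProduct.tmul_mul_tmul, one_mul]
  exact h.symm

lemma em_map (g : X ⟶ Y) (a : T.W.H Y) : (VC T).map g (em T a) = em T (T.W.map g a) := by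
  have h : Algebra.TensorProduct.map (AlgHom.id ℂ ℂ) (T.W.map g) ((1 : ℂ) ⊗ₜ[T.W.K] a) =
      (1 : ℂ) ⊗ₜ[T.W.K] (T.W.map g a) := by
    rw [Algebra.TensorProduct.map_tmul]; rfl
  exact h

lemma em_smul_alg {x : T.W.H X} (h : em T x ∈ Alg (VC T) X) (c : T.W.K) :
    em T (c • x) ∈ Alg (VC T) X := by
  have h1 : ((1 : ℂ) ⊗ₜ[T.W.K] (c • x) : ℂ ⊗[T.W.K] T.W.H X) =
      (algebraMap T.W.K ℂ c) • ((1 : ℂ) ⊗ₜ[T.W.K] x) := by
    rw [TensorProduct.tmul_smul, ← algebraMap_smul ℂ c]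
  have h2 : em T (c • x) = (show (VC T).K from algebraMap T.W.K ℂ c) • em T x := h1
  rw [h2]
  exact Submodule.smul_mem _ _ h

/-- **The main theorem.** -/
theorem rank_one_tate (hA : IsAbelianHodge T A m) (hf : Squarefree (charOne T f))
    (hodd : OddAnnihilated (eigs T f) (holo T f)) (n : ℕ)
    {z : ((pw A n).prod (pw A n)).Cycles} (h : IsRankOne T (pw A n) z) : IsTate T (pw A n) z := by
  obtain ⟨E, hmu, hne, hcard⟩ := exists_eig hA hf
  obtain ⟨J, _, ⟨S⟩⟩ := exists_powSys E n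
  obtain ⟨hz, hid, hr⟩ := h
  obtain ⟨i, v, w, hi, hv0, hw0, hv, hw, htr, hform, hext⟩ := rank_one_form hz hid hr
  have h1 : (VC T).map (fst (pw A n) (pw A n)) (em T w) *
      (VC T).map (snd (pw A n) (pw A n)) (em T v) ∈ Alg (VC T) ((pw A n).prod (pw A n)) := by
    rw [em_map, em_map, ← em_mul, hext]
    exact em_smul_alg (Alg.cl (V := VC T) hz) _
  obtain ⟨h2, h3⟩ := halves hA hmu hne hcard hodd S (em_gr hw) (em_gr hv) hw0 hv0 h1
  obtain ⟨j, c, hj, hc, ec⟩ := alg_cycle T.rat (algIn_desc (alg_hom h3 (em_gr hv))) hv0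
  obtain ⟨j', c', hj', hc', ec'⟩ := alg_cycle T.rat (algIn_desc (alg_hom h2 (em_gr hw))) hw0
  have hcomm : ∀ x : T.W.H (pw A n), w * x = x * w := by
    intro x
    rw [← ec']
    exact T.W.even_comm (T.W.cl_mem hc') x
  refine ⟨j, j', c, c', by omega, hc, hc', ?_, fun x => ?_⟩
  · rw [ec, ec', ← hcomm, htr]
  · rw [hform, ec, ec', hcomm]

end Pool.Agent.Helper70Rk
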