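import Pool.Agent.Helper70_rk1.Cyc
import Pool.Agent.Helper70_rk1.Final
import Pool.Agent.Y4.Aut

/-!
# Families of abelian varieties of CM type
-/

open CategoryTheory AlgebraicGeometry TensorProduct

universe u v

namespace Pool.Agent.Helper70Rk

set_option linter.unusedSectionVars false
set_option linter.unusedVariables false

open Pool.Agent.H914 Pool.Agent.H914.VarClass Pool.Agent.H914.VarClass.Obj
  Pool.Agent.H914.WeilCohomology Pool.Agent.Y121.AHS Pool.Agent.R908 Module
open Pool.Agent.Y133.Half (pw)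

variable {k : Type u} [Field k] {𝒱 : VarClass k} {ops : CycleOps 𝒱}
  {T : HodgeTheory ops} {X Y A : 𝒱.Obj} {m : A.prod A ⟶ A} {f : A ⟶ A}

/-- The group is transitive if the characteristic polynomial is irreducible. -/
lemma trans_of_irreducible (hirr : Irreducible (charOne T f)) (z w : eigs T f) :
    ∃ π ∈ galPerm (eigs T f), π z = w := by
  classical
  have : Fact (Irreducible (charOne T f)) := ⟨hirr⟩
  have hK : Countable T.W.K := by
    have h1 : Function.Surjective (fun q : ℚ => (q : T.W.K)) := T.rat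
    exact h1.countable
  have hF : Countable (AdjoinRoot (charOne T f)) := by
    have h1 : Countable (Polynomial T.W.K) := by
      rw [← Cardinal.mk_le_aleph0_iff]
      refine (Polynomial.cardinalMk_le_max (R := T.W.K)).trans ?_
      exact max_le (Cardinal.mk_le_aleph0) le_rfl
    exact (AdjoinRoot.mk_surjective (g := charOne T f)).countable
  have hz : Polynomial.aeval (z : ℂ) (charOne T f) = 0 := (mem_eigs _).1 z.2
  have hw : Polynomial.aeval (w : ℂ) (charOne T f) = 0 := (mem_eigs _).1 w.2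
  obtain ⟨σ, hσ⟩ := @Pool.Agent.Y4.exists_equiv (AdjoinRoot (charOne T f)) ℂ ℂ _ hF _ _
    (AdjoinRoot.liftAlgHom (charOne T f) (Algebra.ofId T.W.K ℂ) (z : ℂ) hz).toRingHom.toAlgebra
    (AdjoinRoot.liftAlgHom (charOne T f) (Algebra.ofId T.W.K ℂ) (w : ℂ) hw).toRingHom.toAlgebra
    _ _ (by rw [Cardinal.mk_complex]; exact Cardinal.aleph0_lt_continuum) rfl
  have h1 : σ (z : ℂ) = w := by
    have h2 := hσ (AdjoinRoot.root (charOne T f))
    change σ (AdjoinRoot.liftAlgHom (charOne T f) (Algebra.ofId T.W.K ℂ) (z : ℂ) hz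
      (AdjoinRoot.root _)) = AdjoinRoot.liftAlgHom (charOne T f) (Algebra.ofId T.W.K ℂ) (w : ℂ) hw
      (AdjoinRoot.root _) at h2
    rwa [AdjoinRoot.liftAlgHom_root, AdjoinRoot.liftAlgHom_root] at h2
  exact ⟨permOf T f σ, ⟨σ, fun _ => rfl⟩, Subtype.ext h1⟩

/-- **The families.** -/
theorem oddAnnihilated_family (hA : IsAbelianHodge T A m) (hirr : Irreducible (charOne T f))
    (hc : ConjCentral (eigs T f))
    (h : (Odd A.dim ∧ (IsPrimePow A.dim ∨ Group.IsSolvable (galPerm (eigs T f)))) ∨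
      ∃ P : Sylow 2 (galPerm (eigs T f)), IsCyclic P) :
    OddAnnihilated (eigs T f) (holo T f) := by
  obtain ⟨E, hmu, hne, hcard⟩ := exists_eig hA hirr.squarefree
  have hconj : ∀ z ∈ eigs T f, starRingEnd ℂ z ∈ eigs T f := fun z hz => galC_eigs cc hz
  have hΦ : ∀ z ∈ eigs T f, starRingEnd ℂ z ∈ holo T f ↔ z ∉ holo T f :=
    fun z hz => kap_holo hA hmu hne ⟨z, hz⟩
  have hne' : ∀ z ∈ eigs T f, starRingEnd ℂ z ≠ z := by
    intro z hz h
    have h1 := hΦ z hz
    rw [h] at h1
    exact iff_not_self h1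
  have htr := trans_of_irreducible (T := T) (f := f) hirr
  rcases h with ⟨h1, h2⟩ | ⟨P, hP⟩
  · have hg : (eigs T f).card = 2 * A.dim := by
      rw [← hcard, Fintype.card_coe]
    exact oddAnnihilated_of hc hconj hΦ (oddTransitive hc hconj hne' hg h1 htr h2)
  · exact oddAnnihilated_sylow hc hconj hΦ htr P hP

end Pool.Agent.Helper70Rk
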