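import Pool.Agent.Helper70_rk1.Prod

/-!
# Semilinear automorphisms and types of words
-/

open CategoryTheory AlgebraicGeometry

universe u v

namespace Pool.Agent.Helper70Rk

open Pool.Agent.H914 Pool.Agent.H914.VarClass Pool.Agent.H914.VarClass.Obj
  Pool.Agent.H914.WeilCohomology Pool.Agent.R908

variable {k : Type u} [Field k] {𝒱 : VarClass k} {ops : CycleOps 𝒱}
  {V : WeilCohomology.{u, v} ops} {X Y Z A : 𝒱.Obj} {m : A.prod A ⟶ A} {f : A ⟶ A}
  {ι : Type} {E : Eig V A m f ι}

/-- Products of multiples. -/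
lemma prod_smul {B K W : Type*} [Field K] [Ring W] [Algebra K W] {x y : B → W} {s : B → K}
    (hs : ∀ b, s b ≠ 0) (h : ∀ b, x b = s b • y b) (L : List B) :
    ∃ c : K, c ≠ 0 ∧ (L.map x).prod = c • (L.map y).prod := by
  induction L with
  | nil => exact ⟨1, one_ne_zero, (one_smul _ _).symm⟩
  | cons b L ih =>
    obtain ⟨c, hc, e⟩ := ih
    refine ⟨s b * c, mul_ne_zero (hs b) hc, ?_⟩
    rw [List.map_cons, List.map_cons, List.prod_cons, List.prod_cons, e, h, smul_mul_smul_comm]

lemma pow_eig {c : V.K} {x : V.H A} (h : V.map f x = c • x) (n : ℕ) :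
    V.map (itr f n) x = c ^ n • x := by
  induction n with
  | zero => rw [itr, V.map_id, pow_zero, one_smul]
  | succ n ih => rw [itr, V.map_comp, h, map_smul, ih, smul_smul, pow_succ, mul_comm]

/-- An eigenvector of degree one is a multiple of a member of the family. -/
theorem eig_unique [Fintype ι] (E : Eig V A m f ι) {x : V.H A} (hx : x ∈ V.gr A 1) (h0 : x ≠ 0)
    {c : V.K} (h : V.map f x = c • x) : ∃ l, E.mu l = c ∧ ∃ s : V.K, s ≠ 0 ∧ x = s • E.u l := by
  classical
  obtain ⟨a, ha⟩ := (Submodule.mem_span_range_iff_exists_fun V.K).1 (E.span hx)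
  -- polynomials in the endomorphism
  have h1 : ∀ p : Polynomial V.K, p.eval c • x = ∑ l, (a l * p.eval (E.mu l)) • E.u l := by
    intro p
    induction p using Polynomial.induction_on' with
    | add p q hp hq =>
      rw [Polynomial.eval_add, add_smul, hp, hq, ← Finset.sum_add_distrib]
      exact Finset.sum_congr rfl fun l _ => by rw [Polynomial.eval_add, mul_add, add_smul]
    | monomial n r =>
      have h2 := pow_eig h n
      rw [← ha, map_sum] at h2
      have h3 : ∑ l, V.map (itr f n) (a l • E.u l) = ∑ l, (a l * E.mu l ^ n) • E.u l :=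
        Finset.sum_congr rfl fun l _ => by rw [map_smul, itr_eig, smul_smul]
      rw [h3, ha] at h2
      rw [Polynomial.eval_monomial, mul_smul, ← h2, Finset.smul_sum]
      refine Finset.sum_congr rfl fun l _ => ?_
      rw [smul_smul, Polynomial.eval_monomial]
      congr 1
      ring
  by_cases hc : ∃ l, E.mu l = c
  · obtain ⟨l, hl⟩ := hc
    refine ⟨l, hl, a l, ?_, ?_⟩
    · intro h2
      have h3 := h1 (Lagrange.basis Finset.univ E.mu l)
      rw [← hl, Lagrange.eval_basis_self E.inj.injOn (Finset.mem_univ _), one_smul,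
        Finset.sum_eq_single l] at h3
      · rw [h2, zero_mul, zero_smul] at h3
        exact h0 h3
      · intro l' _ hl'
        rw [Lagrange.eval_basis_of_ne (Ne.symm hl') (Finset.mem_univ _), mul_zero, zero_smul]
      · intro h4; exact absurd (Finset.mem_univ _) h4
    · have h3 := h1 (Lagrange.basis Finset.univ E.mu l)
      rw [← hl, Lagrange.eval_basis_self E.inj.injOn (Finset.mem_univ _), one_smul,
        Finset.sum_eq_single l] at h3
      · rw [Lagrange.eval_basis_self E.inj.injOn (Finset.mem_univ _), mul_one] at h3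
        exact h3
      · intro l' _ hl'
        rw [Lagrange.eval_basis_of_ne (Ne.symm hl') (Finset.mem_univ _), mul_zero, zero_smul]
      · intro h4; exact absurd (Finset.mem_univ _) h4
  · exfalso
    push Not at hc
    have h3 := h1 (∏ l, (Polynomial.X - Polynomial.C (E.mu l)))
    rw [Finset.sum_eq_zero (fun l _ => ?_)] at h3
    · rcases smul_eq_zero.1 h3 with h4 | h4
      · rw [Polynomial.eval_prod, Finset.prod_eq_zero_iff] at h4
        obtain ⟨l, _, h5⟩ := h4
        rw [Polynomial.eval_sub, Polynomial.eval_X, Polynomial.eval_C, sub_eq_zero] at h5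
        exact hc l h5.symm
      · exact h0 h4
    · rw [Polynomial.eval_prod, Finset.prod_eq_zero (Finset.mem_univ l) (by
        rw [Polynomial.eval_sub, Polynomial.eval_X, Polynomial.eval_C, sub_self]), mul_zero,
        zero_smul]

variable (S : SemiLin V)

lemma σ_alg {x : V.H Z} (hx : x ∈ Alg V Z) : S.σ Z x ∈ Alg V Z := by
  induction hx using Submodule.span_induction with
  | mem x hx =>
    obtain ⟨j, z, hz, rfl⟩ := hx
    rw [S.cl]
    exact Alg.cl hz
  | zero => rw [map_zero]; exact Submodule.zero_mem _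
  | add x y _ _ hx hy => rw [map_add]; exact Submodule.add_mem _ hx hy
  | smul c x _ hx => rw [S.smul]; exact Submodule.smul_mem _ _ hx

/-- The permutation of the index set given by the automorphism. -/
def IsPermOf (E : Eig V A m f ι) (π : ι ≃ ι) : Prop := ∀ l, E.mu (π l) = S.τ (E.mu l)

variable {S}

lemma σ_one : S.σ Z 1 = 1 := by
  rw [← V.cl_fund, S.cl]

lemma σ_prod (L : List (V.H Z)) : S.σ Z L.prod = (L.map (S.σ Z)).prod := by
  induction L with
  | nil => exact σ_one
  | cons a L ih => rw [List.prod_cons, S.mul, ih, List.map_cons, List.prod_cons]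

lemma IsPermOf.exists [Fintype ι] {π : ι ≃ ι} (h : IsPermOf S E π) (hne : ∀ l, E.u l ≠ 0) (l : ι) :
    ∃ s : V.K, s ≠ 0 ∧ S.σ A (E.u l) = s • E.u (π l) := by
  have h1 : S.σ A (E.u l) ≠ 0 := fun h2 => hne l (S.inj _ h2)
  have h2 : V.map f (S.σ A (E.u l)) = S.τ (E.mu l) • S.σ A (E.u l) := by
    rw [← S.map, E.eig, S.smul]
  obtain ⟨l', hl', s, hs, e⟩ := eig_unique E (S.gr (E.mem l)) h1 h2
  rw [← h l] at hl'
  rw [E.inj hl'] at e
  exact ⟨s, hs, e⟩

/-- Conjugates of universally algebraic types. -/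
theorem UA.gal [Fintype ι] {π : ι ≃ ι} (h : IsPermOf S E π) (hne : ∀ l, E.u l ≠ 0)
    {s : Multiset ι} (hs : UA E s) : UA E (s.map π) := by
  intro Z L hL
  have h1 := hs Z (L.map fun b => (b.1, π.symm b.2)) (by
    rw [List.map_map]
    have e : (Prod.snd ∘ fun b : (Z ⟶ A) × ι => (b.1, π.symm b.2)) = π.symm ∘ Prod.snd := rfl
    rw [e, ← List.map_map, ← Multiset.map_coe, hL, Multiset.map_map]
    simp)
  rw [List.map_map] at h1
  have h2 := σ_alg S h1
  rw [σ_prod, List.map_map] at h2
  choose c hc e using h.exists hne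
  obtain ⟨r, hr, h3⟩ := prod_smul (K := V.K) (x := S.σ Z ∘ ((fun b : (Z ⟶ A) × ι =>
      V.map b.1 (E.u b.2)) ∘ fun b => (b.1, π.symm b.2)))
    (y := fun b => V.map b.1 (E.u b.2)) (s := fun b => c (π.symm b.2)) (fun b => hc _) (fun b => by
      rw [Function.comp_apply, Function.comp_apply, S.map, e, map_smul, Equiv.apply_symm_apply]) L
  rw [h3] at h2
  have h4 := Submodule.smul_mem _ r⁻¹ h2
  rwa [smul_smul, inv_mul_cancel₀ hr, one_smul] at h4

/-- The image of a linear combination of words. -/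
theorem gal_expr {J : Type} [Fintype J] [Fintype ι] [DecidableEq J] [DecidableEq ι] {π : ι ≃ ι}
    (h : IsPermOf S E π)
    (hne : ∀ l, E.u l ≠ 0) (Q : PowSys E Y J) {c : Finset (J × ι) → V.K} {i : ℕ}
    (hc : ∀ T, c T ≠ 0 → T.card = i) : ∃ d : Finset (J × ι) → V.K, (∀ T, d T ≠ 0 → T.card = i) ∧
      S.σ Y (wordFun c Q.x) = wordFun d Q.x ∧
      ∀ T, c T ≠ 0 → ∃ T', d T' ≠ 0 ∧ T'.val.map Prod.snd = (T.val.map Prod.snd).map π := by
  classical
  let e : J × ι ≃ J × ι := (Equiv.refl J).prodCongr π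
  have he : ∀ b, e b = (b.1, π b.2) := fun b => rfl
  let F : Finset (J × ι) ≃ Finset (J × ι) := Equiv.finsetCongr e
  have hF : ∀ T, F T = T.map e.toEmbedding := fun T => rfl
  choose c' hc' e' using h.exists hne
  have h1 : ∀ T : Finset (J × ι), ∃ r : V.K, r ≠ 0 ∧
      S.σ Y (T.toList.map Q.x).prod = r • ((F T).toList.map Q.x).prod := by
    intro T
    rw [σ_prod, List.map_map]
    obtain ⟨r, hr, h3⟩ := prod_smul (K := V.K) (x := S.σ Y ∘ Q.x)
      (y := Q.x ∘ e) (s := fun b => c' b.2) (fun b => hc' _) (fun b => by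
        rw [Function.comp_apply, Function.comp_apply, he, PowSys.x, PowSys.x, S.map, e',
          map_smul]) T.toList
    have h4 : (T.toList.map (Q.x ∘ e)).Perm ((F T).toList.map Q.x) := by
      rw [← List.map_map]
      apply List.Perm.map
      rw [List.perm_ext_iff_of_nodup ((Finset.nodup_toList _).map e.injective)
        (Finset.nodup_toList _)]
      intro b
      rw [List.mem_map, Finset.mem_toList, hF, Finset.mem_map]
      simp only [Finset.mem_toList, Equiv.coe_toEmbedding]
    obtain ⟨r', hr', h5⟩ := word_perm h4 (by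
      intro y hy
      obtain ⟨b, _, rfl⟩ := List.mem_map.1 hy
      exact Q.x_mem _)
    exact ⟨r * r', mul_ne_zero hr hr', by rw [h3, h5, smul_smul]⟩
  choose r hr h1 using h1
  refine ⟨fun T => S.τ (c (F.symm T)) * r (F.symm T), ?_, ?_, ?_⟩
  · intro T hT
    have h2 : c (F.symm T) ≠ 0 := by
      intro h3
      beta_reduce at hT
      rw [h3, map_zero, zero_mul] at hT
      exact hT rfl
    rw [← hc _ h2]
    conv_lhs => rw [← F.apply_symm_apply T, hF, Finset.card_map]
  · rw [wordFun, wordFun, map_sum,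
      ← F.sum_comp (fun T => (S.τ (c (F.symm T)) * r (F.symm T)) • (T.toList.map Q.x).prod)]
    refine Finset.sum_congr rfl fun T _ => ?_
    rw [S.smul, h1, Equiv.symm_apply_apply, smul_smul]
  · intro T hT
    refine ⟨F T, ?_, ?_⟩
    · beta_reduce
      rw [Equiv.symm_apply_apply]
      exact mul_ne_zero (by rwa [map_ne_zero]) (hr T)
    · rw [hF, Finset.map_val, Multiset.map_map, Multiset.map_map]
      rfl

end Pool.Agent.Helper70Rk
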