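import Pool.Agent.Helper70_rk1.Arith

/-!
# Subgroups of odd order
-/

namespace Pool.Agent.Helper70Rk

set_option linter.unusedSectionVars false
set_option linter.unusedVariables false

/-- The elements of `2`-power order of a normal commutative subgroup. -/
def twoPart {G : Type} [Group G] (N : Subgroup G) (hN : ∀ x ∈ N, ∀ y ∈ N, x * y = y * x) :
    Subgroup G where
  carrier := {x | x ∈ N ∧ ∃ k : ℕ, x ^ (2 ^ k) = 1}
  mul_mem' := by
    rintro x y ⟨hx, a, ha⟩ ⟨hy, b, hb⟩
    refine ⟨N.mul_mem hx hy, a + b, ?_⟩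
    have hc : Commute x y := hN x hx y hy
    rw [hc.mul_pow, pow_add, pow_mul, ha, one_pow, one_mul, mul_comm, pow_mul, hb, one_pow]
  one_mem' := ⟨N.one_mem, 0, one_pow _⟩
  inv_mem' := by
    rintro x ⟨hx, a, ha⟩
    exact ⟨N.inv_mem hx, a, by rw [inv_pow, ha, inv_one]⟩

/-- **Hall subgroups of odd order in solvable groups.** -/
theorem exists_hall (n : ℕ) : ∀ (G : Type) [Group G] [Finite G] [Group.IsSolvable G],
    Nat.card G = n → ∃ H : Subgroup G, Odd (Nat.card H) ∧ ∃ a, H.index = 2 ^ a := by
  induction n using Nat.strong_induction_on with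
  | _ n ih =>
  intro G _ _ _ hn
  by_cases htriv : Subsingleton G
  · refine ⟨⊤, ?_, 0, by rw [Subgroup.index_top, pow_zero]⟩
    rw [Subgroup.card_top, Nat.card_of_subsingleton (1 : G)]
    exact odd_one
  rw [not_subsingleton_iff_nontrivial] at htriv
  -- a nontrivial normal commutative subgroup
  obtain ⟨N, hNn, hN0, hNc⟩ : ∃ N : Subgroup G, N.Normal ∧ N ≠ ⊥ ∧
      ∀ x ∈ N, ∀ y ∈ N, x * y = y * x := by
    classical
    have hex := Group.IsSolvable.solvable (G := G)
    have h1 := Nat.find_spec hex
    have h2 : Nat.find hex ≠ 0 := by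
      intro h0
      rw [h0, derivedSeries_zero] at h1
      exact (bot_ne_top (α := Subgroup G)) h1.symm
    obtain ⟨e, he⟩ := Nat.exists_eq_succ_of_ne_zero h2
    refine ⟨derivedSeries G e, derivedSeries_normal G e, ?_, ?_⟩
    · exact Nat.find_min hex (by omega)
    · rw [he, Nat.succ_eq_add_one, derivedSeries_succ,
        Subgroup.commutator_eq_bot_iff_le_centralizer] at h1
      intro x hx y hy
      exact (Subgroup.mem_centralizer_iff.1 (h1 hx) y hy).symm
  set M := twoPart N hNc with hM
  have hMn : M.Normal := by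
    constructor
    rintro x ⟨hx, a, ha⟩ g
    refine ⟨hNn.conj_mem x hx g, a, ?_⟩
    rw [conj_pow, ha, mul_one, mul_inv_cancel]
  by_cases hM0 : M = ⊥
  · -- the order of `N` is odd
    have hNodd : Odd (Nat.card N) := by
      by_contra hcon
      rw [Nat.not_odd_iff_even, even_iff_two_dvd] at hcon
      have : Fact (Nat.Prime 2) := ⟨Nat.prime_two⟩
      obtain ⟨x, hx⟩ := exists_prime_orderOf_dvd_card' 2 hcon
      have h1 : (x : G) ∈ M := by
        refine ⟨x.2, 1, ?_⟩
        have h2 := pow_orderOf_eq_one x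
        rw [hx] at h2
        rw [pow_one]
        exact congrArg Subtype.val h2
      rw [hM0, Subgroup.mem_bot] at h1
      have h2 : x = 1 := Subtype.ext h1
      rw [h2, orderOf_one] at hx
      omega
    have hlt : Nat.card (G ⧸ N) < n := by
      rw [← hn, N.card_eq_card_quotient_mul_card_subgroup]
      have h1 : 1 < Nat.card N := (Subgroup.one_lt_card_iff_ne_bot N).2 hN0
      have h2 : 0 < Nat.card (G ⧸ N) := Nat.card_pos
      nlinarith
    obtain ⟨H, hH, a, ha⟩ := ih _ hlt (G ⧸ N) rfl
    refine ⟨H.comap (QuotientGroup.mk' N), ?_, a, ?_⟩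
    · have h1 := (H.comap (QuotientGroup.mk' N)).card_mul_index
      rw [Subgroup.index_comap_of_surjective _ (QuotientGroup.mk'_surjective N), ha,
        N.card_eq_card_quotient_mul_card_subgroup, ← H.card_mul_index, ha] at h1
      have h2 : 0 < 2 ^ a := by positivity
      have h3 : Nat.card (H.comap (QuotientGroup.mk' N)) = Nat.card H * Nat.card N := by
        apply Nat.eq_of_mul_eq_mul_right h2
        rw [h1]
        ring
      rw [h3]
      exact hH.mul hNodd
    · rw [Subgroup.index_comap_of_surjective _ (QuotientGroup.mk'_surjective N), ha]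
  · have hM2 : ∃ b, Nat.card M = 2 ^ b := by
      have : Fact (Nat.Prime 2) := ⟨Nat.prime_two⟩
      rw [← IsPGroup.iff_card]
      rintro ⟨x, hx, a, ha⟩
      exact ⟨a, Subtype.ext ha⟩
    obtain ⟨b, hb⟩ := hM2
    have hlt : Nat.card (G ⧸ M) < n := by
      rw [← hn, M.card_eq_card_quotient_mul_card_subgroup]
      have h1 : 1 < Nat.card M := (Subgroup.one_lt_card_iff_ne_bot M).2 hM0
      have h2 : 0 < Nat.card (G ⧸ M) := Nat.card_pos
      nlinarith
    obtain ⟨H, hH, a, ha⟩ := ih _ hlt (G ⧸ M) rfl
    set Q := H.comap (QuotientGroup.mk' M) with hQ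
    have hMQ : M ≤ Q := by
      intro x hx
      rw [hQ, Subgroup.mem_comap]
      have h1 : QuotientGroup.mk' M x = 1 := (QuotientGroup.eq_one_iff x).2 hx
      rw [h1]
      exact H.one_mem
    have hQcard : Nat.card Q = Nat.card H * 2 ^ b := by
      have h1 := Q.card_mul_index
      rw [hQ, Subgroup.index_comap_of_surjective _ (QuotientGroup.mk'_surjective M), ha,
        M.card_eq_card_quotient_mul_card_subgroup, ← H.card_mul_index, ha, hb] at h1
      have h2 : 0 < 2 ^ a := by positivity
      apply Nat.eq_of_mul_eq_mul_right h2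
      rw [hQ, h1]
      ring
    have hMQcard : Nat.card (M.subgroupOf Q) = 2 ^ b := by
      rw [← hb]
      exact Nat.card_congr (Subgroup.subgroupOfEquivOfLe hMQ).toEquiv
    have hidx : (M.subgroupOf Q).index = Nat.card H := by
      have h1 := (M.subgroupOf Q).card_mul_index
      rw [hMQcard, hQcard, mul_comm] at h1
      exact Nat.eq_of_mul_eq_mul_right (by positivity) h1
    have hnorm : (M.subgroupOf Q).Normal := Subgroup.normal_subgroupOf
    obtain ⟨L, hL⟩ := Subgroup.exists_right_complement'_of_coprime (N := M.subgroupOf Q) (by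
      rw [hMQcard, hidx]
      exact Nat.Coprime.pow_left _ (Nat.coprime_two_left.2 hH))
    have hLcard : Nat.card L = Nat.card H := by
      have h1 := hL.card_mul_card
      rw [hMQcard, hQcard, mul_comm] at h1
      exact Nat.eq_of_mul_eq_mul_right (by positivity) h1
    refine ⟨L.map Q.subtype, ?_, a + b, ?_⟩
    · rw [Nat.card_congr (L.equivMapOfInjective _ Q.subtype_injective).toEquiv.symm, hLcard]
      exact hH
    · have h1 := (L.map Q.subtype).card_mul_index
      rw [Nat.card_congr (L.equivMapOfInjective _ Q.subtype_injective).toEquiv.symm, hLcard,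
        M.card_eq_card_quotient_mul_card_subgroup, ← H.card_mul_index, ha, hb] at h1
      have h2 : 0 < Nat.card H := hH.pos
      apply Nat.eq_of_mul_eq_mul_left h2
      rw [h1, pow_add]
      ring

variable {R : Finset ℂ}

/-- A subgroup of odd order whose index is prime to half of the number of the elements of `R`. -/
theorem oddTransitive_of (hc : ConjCentral R) (hconj : ∀ z ∈ R, starRingEnd ℂ z ∈ R)
    (hne : ∀ z ∈ R, starRingEnd ℂ z ≠ z) {g : ℕ} (hg : R.card = 2 * g)
    (htr : ∀ z w : R, ∃ π ∈ galPerm R, π z = w) (H : Subgroup (galPerm R))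
    (hodd : Odd (Nat.card H)) (hcop : Nat.Coprime g H.index) : OddTransitive R := by
  classical
  let κ : R → R := fun z => ⟨starRingEnd ℂ z, hconj z z.2⟩
  have hκκ : ∀ z, κ (κ z) = z := fun z => Subtype.ext (Complex.conj_conj _)
  have hκne : ∀ z, κ z ≠ z := fun z h => hne z z.2 (congrArg Subtype.val h)
  have hκh : ∀ (h : galPerm R) (z : R), κ (h.1 z) = h.1 (κ z) := by
    rintro ⟨h, τ, hτ⟩ z
    apply Subtype.ext
    change starRingEnd ℂ (h z : ℂ) = (h (κ z) : ℂ)
    rw [hτ, hτ]
    exact (hc τ z z.2).symm
  have hno : ∀ (h : H) (z : R), h.1.1 z ≠ κ z := by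
    intro h z hz
    have h1 : ∀ m : ℕ, ((h ^ (2 * m)).1.1) z = z := by
      intro m
      induction m with
      | zero => rfl
      | succ m ih =>
        have e1 : ((h ^ (2 * (m + 1))).1.1) z = h.1.1 (h.1.1 (((h ^ (2 * m)).1.1) z)) := by
          have e2 : h ^ (2 * (m + 1)) = h * (h * h ^ (2 * m)) := by
            rw [mul_add, mul_one, add_comm, pow_add, pow_two, mul_assoc]
          rw [e2]
          rfl
        rw [e1, ih, hz, ← hκh, hz, hκκ]
    obtain ⟨c, hc'⟩ := hodd
    have h2 : h ^ (2 * (c + 1)) = h := by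
      have h3 : h ^ Nat.card H = 1 := pow_card_eq_one'
      have e : 2 * (c + 1) = Nat.card H + 1 := by rw [hc']; ring
      rw [e, pow_succ, h3, one_mul]
    have h3 := h1 (c + 1)
    rw [h2, hz] at h3
    exact hκne z h3
  refine ⟨H.map (galPerm R).subtype, ?_, ?_, ?_⟩
  · rintro _ ⟨h, _, rfl⟩
    exact h.2
  · rw [Nat.card_congr (H.equivMapOfInjective _ (galPerm R).subtype_injective).toEquiv.symm]
    exact hodd
  · intro z w
    -- the size of the orbit
    set S : Subgroup (galPerm R) := MulAction.stabilizer (galPerm R) z with hS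
    have hSidx : S.index = 2 * g := by
      rw [hS, MulAction.index_stabilizer]
      have h1 : MulAction.orbit (galPerm R) z = Set.univ := by
        rw [Set.eq_univ_iff_forall]
        intro y
        obtain ⟨π, hπ, h2⟩ := htr z y
        exact ⟨⟨π, hπ⟩, h2⟩
      rw [h1, Set.ncard_univ, Nat.card_eq_fintype_card, Fintype.card_coe, hg]
    have hrel : S.relIndex H * H.index = (H ⊓ S).relIndex S * S.index := by
      rw [← Subgroup.inf_relIndex_left, Subgroup.relIndex_mul_index inf_le_left,
        Subgroup.relIndex_mul_index inf_le_right]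
    have hdvd : g ∣ S.relIndex H := by
      apply hcop.dvd_of_dvd_mul_right
      rw [hrel, hSidx]
      exact ⟨(H ⊓ S).relIndex S * 2, by ring⟩
    set O : Finset R := Finset.univ.filter fun y => ∃ h : H, h.1.1 z = y with hO
    have hOcard : O.card = S.relIndex H := by
      have h1 : MulAction.stabilizer H z = S.subgroupOf H := by
        ext h
        rfl
      have h2 : S.relIndex H = (MulAction.orbit H z).ncard := by
        rw [← MulAction.index_stabilizer, h1]
        rfl
      rw [h2]
      have h3 : MulAction.orbit H z = (O : Set R) := by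
        ext y
        rw [Finset.mem_coe, hO, Finset.mem_filter]
        constructor
        · rintro ⟨h, rfl⟩
          exact ⟨Finset.mem_univ _, h, rfl⟩
        · rintro ⟨-, h, hy⟩
          exact ⟨h, hy⟩
      rw [h3, Set.ncard_coe_finset]
    have hpos : 0 < O.card := Finset.card_pos.2
      ⟨z, Finset.mem_filter.2 ⟨Finset.mem_univ _, 1, rfl⟩⟩
    have hle : g ≤ O.card := by
      rw [hOcard] at hpos ⊢
      exact Nat.le_of_dvd hpos hdvd
    have hdisj : Disjoint O (O.image κ) := by
      rw [Finset.disjoint_left]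
      intro y hy hy'
      obtain ⟨-, h, hh⟩ := Finset.mem_filter.1 hy
      obtain ⟨y', hy'', hyy⟩ := Finset.mem_image.1 hy'
      obtain ⟨-, h', hh'⟩ := Finset.mem_filter.1 hy''
      -- `h z = y = κ y' = κ (h' z)`
      apply hno (h'⁻¹ * h) z
      have e1 : (h'⁻¹ * h).1.1 z = h'.1.1.symm (h.1.1 z) := rfl
      rw [e1, hh, ← hyy, ← hh', hκh h'.1]
      exact h'.1.1.symm_apply_apply _
    have huniv : O ∪ O.image κ = Finset.univ := by
      rw [← Finset.card_eq_iff_eq_univ, Finset.card_union_of_disjoint hdisj,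
        Finset.card_image_of_injective _ (Function.LeftInverse.injective hκκ)]
      apply le_antisymm
      · rw [← Finset.card_image_of_injective O (Function.LeftInverse.injective hκκ)]
        rw [Finset.card_image_of_injective _ (Function.LeftInverse.injective hκκ)]
        have h1 := Finset.card_le_univ (O ∪ O.image κ)
        rw [Finset.card_union_of_disjoint hdisj,
          Finset.card_image_of_injective _ (Function.LeftInverse.injective hκκ)] at h1
        exact h1
      · rw [Fintype.card_coe, hg]
        omega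
    have hw : w ∈ O ∪ O.image κ := by rw [huniv]; exact Finset.mem_univ _
    rcases Finset.mem_union.1 hw with h1 | h1
    · obtain ⟨-, h, hh⟩ := Finset.mem_filter.1 h1
      exact ⟨h.1.1, ⟨h.1, h.2, rfl⟩, Or.inl (congrArg Subtype.val hh)⟩
    · obtain ⟨y, hy, rfl⟩ := Finset.mem_image.1 h1
      obtain ⟨-, h, hh⟩ := Finset.mem_filter.1 hy
      refine ⟨h.1.1, ⟨h.1, h.2, rfl⟩, Or.inr ?_⟩
      rw [hh]
      exact (Complex.conj_conj _).symm

/-- Transitive groups of degree `2 g`, where `g` is odd and a prime power or the group is solvable. -/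
theorem oddTransitive (hc : ConjCentral R) (hconj : ∀ z ∈ R, starRingEnd ℂ z ∈ R)
    (hne : ∀ z ∈ R, starRingEnd ℂ z ≠ z) {g : ℕ} (hg : R.card = 2 * g) (hgodd : Odd g)
    (htr : ∀ z w : R, ∃ π ∈ galPerm R, π z = w)
    (h : IsPrimePow g ∨ Group.IsSolvable (galPerm R)) : OddTransitive R := by
  rcases h with h | h
  · obtain ⟨p, n, hp, hn, rfl⟩ := h
    have hp' : p.Prime := hp.nat_prime
    have : Fact p.Prime := ⟨hp'⟩
    let P : Sylow p (galPerm R) := default
    refine oddTransitive_of hc hconj hne hg htr P ?_ ?_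
    · rw [P.card_eq_multiplicity]
      have h1 : Odd p := by
        rcases Nat.even_or_odd p with h1 | h1
        · exfalso
          have h2 := h1.pow_of_ne_zero hn.ne'
          exact (Nat.not_even_iff_odd.2 hgodd) h2
        · exact h1
      exact h1.pow
    · apply Nat.Coprime.pow_left
      rw [hp'.coprime_iff_not_dvd]
      exact P.not_dvd_index
  · obtain ⟨H, hH, a, ha⟩ := exists_hall _ (galPerm R) rfl
    refine oddTransitive_of hc hconj hne hg htr H hH ?_
    rw [ha]
    exact Nat.Coprime.pow_right _ (Nat.coprime_two_right.2 hgodd)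

end Pool.Agent.Helper70Rk
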