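import Pool.Agent.Helper70_rk1.CMDefs
import Pool.Agent.Helper70_rk1.Gal
import Pool.Agent.Helper70_rk1.Comb
import Pool.Agent.R940.HEig

/-!
# The cohomology with complex coefficients of a variety of CM type
-/

open CategoryTheory AlgebraicGeometry TensorProduct

universe u v

namespace Pool.Agent.Helper70Rk

open Pool.Agent.H914 Pool.Agent.H914.VarClass Pool.Agent.H914.VarClass.Obj
  Pool.Agent.H914.WeilCohomology Pool.Agent.Y121.AHS Pool.Agent.R908

variable {k : Type u} [Field k] {𝒱 : VarClass k} {ops : CycleOps 𝒱}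

section Conv

variable (T : HodgeTheory ops) {X Y : 𝒱.Obj}

/-- The theory with complex coefficients. -/
noncomputable abbrev VC : WeilCohomology.{u, 0} ops := baseW T.W ℂ

/-- The space of classes of type `(p, q)`. -/
def tp (X : 𝒱.Obj) (p q : ℤ) : Submodule (VC T).K ((VC T).H X) := T.pq X p q

/-- The class with complex coefficients. -/
noncomputable def em {X : 𝒱.Obj} (c : T.W.H X) : (VC T).H X := (1 : ℂ) ⊗ₜ[T.W.K] c

variable {T}

lemma mapBase_eq' {K L A B : Type} [Field K] [Field L] [Algebra K L] [Ring A] [Algebra K A]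
    [Ring B] [Algebra K B] (f : A →ₐ[K] B) (x : L ⊗[K] A) :
    mapBase L f x = f.toLinearMap.baseChange L x := by
  refine tmul_induction (P := fun x => mapBase L f x = f.toLinearMap.baseChange L x) ?_ ?_ ?_ x
  · rw [map_zero, map_zero]
  · intro x y hx hy; rw [map_add, map_add, hx, hy]
  · intro l a
    rw [Algebra.TensorProduct.map_tmul, LinearMap.baseChange_tmul]
    rfl

lemma mapL_eq (f : X ⟶ Y) (x : HL T.W ℂ Y) :
    (VC T).map f (show (VC T).H Y from x) = (show (VC T).H X from mapL f x) :=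
  mapBase_eq' (L := ℂ) (T.W.map f) x

lemma tp_mul {p q r s : ℤ} {a b : (VC T).H X} (ha : a ∈ tp T X p q) (hb : b ∈ tp T X r s) :
    a * b ∈ tp T X (p + r) (q + s) := T.mul X p q r s a b ha hb

lemma tp_map (f : X ⟶ Y) {p q : ℤ} {b : (VC T).H Y} (hb : b ∈ tp T Y p q) :
    (VC T).map f b ∈ tp T X p q := by
  have h1 : mapL f b ∈ T.pq X p q := T.map X Y f p q b hb
  rw [show (VC T).map f b = (show (VC T).H X from mapL f b) from mapL_eq f b]
  exact h1

lemma tp_indep (X : 𝒱.Obj) : iSupIndep fun r : ℤ × ℤ => tp T X r.1 r.2 := T.indep X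

lemma tp_cyc {j : ℕ} {z : X.Cycles} (hz : X.IsCyc j z) : (VC T).cl X z ∈ tp T X j j :=
  (T.cyc X j z hz).2

/-- Classes of two different types vanish. -/
lemma tp_disj {p q r s : ℤ} {x : (VC T).H X} (h1 : x ∈ tp T X p q) (h2 : x ∈ tp T X r s)
    (h : (p, q) ≠ (r, s)) : x = 0 := by
  have h3 := (tp_indep (T := T) X).pairwiseDisjoint h
  exact (Submodule.disjoint_def.1 h3) x h1 h2

/-- The types of nonzero homogeneous algebraic classes. -/
lemma alg_tp {x : (VC T).H X} (hx : x ∈ Alg (VC T) X) (h0 : x ≠ 0) {p q : ℤ}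
    (h : x ∈ tp T X p q) : p = q := by
  by_contra hne
  have h1 : x ∈ ⨆ (r : ℤ × ℤ) (_ : r ≠ (p, q)), tp T X r.1 r.2 := by
    have h2 : Alg (VC T) X ≤ ⨆ (r : ℤ × ℤ) (_ : r ≠ (p, q)), tp T X r.1 r.2 := by
      rw [Alg, Submodule.span_le]
      rintro _ ⟨j, z, hz, rfl⟩
      rw [SetLike.mem_coe]
      refine Submodule.mem_iSup_of_mem ((j : ℤ), (j : ℤ)) (Submodule.mem_iSup_of_mem ?_ (tp_cyc hz))
      intro h3
      rw [Prod.ext_iff] at h3
      exact hne (h3.1.symm.trans h3.2)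
    exact h2 hx
  exact h0 ((Submodule.disjoint_def.1 (tp_indep (T := T) X (p, q))) x h h1)

variable (T)

/-- An automorphism of the field of complex numbers is linear over the field of coefficients. -/
noncomputable def galC (τ : ℂ ≃+* ℂ) : ℂ ≃ₐ[T.W.K] ℂ :=
  AlgEquiv.ofRingEquiv (f := τ) fun r => by
    obtain ⟨q, rfl⟩ := T.rat r
    rw [map_ratCast, map_ratCast]

/-- The semilinear automorphism of the cohomology with complex coefficients. -/
noncomputable def sC (τ : ℂ ≃+* ℂ) : SemiLin (VC T) := semiLin T.W ℂ (galC T τ)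

lemma sC_τ (τ : ℂ ≃+* ℂ) (c : ℂ) : (sC T τ).τ c = τ c := rfl

lemma sC_em (τ : ℂ ≃+* ℂ) (c : T.W.H X) : (sC T τ).σ X (em T c) = em T c := by
  have h1 : sig (galC T τ) ((1 : ℂ) ⊗ₜ[T.W.K] c) = (1 : ℂ) ⊗ₜ[T.W.K] c := by
    rw [sig_tmul, map_one]
  exact h1

/-- Complex conjugation. -/
noncomputable def cc : ℂ ≃+* ℂ := (starRingAut : RingAut ℂ)

lemma cc_apply (z : ℂ) : cc z = starRingEnd ℂ z := rfl

lemma isConj_cc (x : HL T.W ℂ X) : IsConj x (show HL T.W ℂ X from (sC T cc).σ X x) := by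
  refine tmul_induction (L := ℂ) (K := T.W.K) (A := T.W.H X) (P := fun x => IsConj (T := T)
    (show HL T.W ℂ X from x) (show HL T.W ℂ X from (sC T cc).σ X x)) ?_ ?_ ?_ x
  · refine ⟨[], rfl, ?_⟩
    exact (map_zero ((sC T cc).σ X)).symm
  · rintro x y ⟨L, h1, h2⟩ ⟨L', h3, h4⟩
    refine ⟨L ++ L', ?_, ?_⟩
    · rw [List.map_append, List.sum_append, h1, h3]
      rfl
    · rw [List.map_append, List.sum_append, h2, h4]
      exact (map_add ((sC T cc).σ X) _ _).symm
  · intro l a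
    refine ⟨[(l, a)], ?_, ?_⟩
    · rw [List.map_singleton, List.sum_singleton]
      have h1 : l • ((1 : ℂ) ⊗ₜ[T.W.K] a) = l ⊗ₜ[T.W.K] a := by
        rw [TensorProduct.smul_tmul', smul_eq_mul, mul_one]
      exact h1
    · rw [List.map_singleton, List.sum_singleton]
      have h1 : (starRingEnd ℂ l) • ((1 : ℂ) ⊗ₜ[T.W.K] a) = sig (galC T cc) (l ⊗ₜ[T.W.K] a) := by
        rw [TensorProduct.smul_tmul', smul_eq_mul, mul_one, sig_tmul]
        rfl
      exact h1

end Conv

end Pool.Agent.Helper70Rk
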