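import Pool.Agent.Helper70_rk1.Alg

/-!
# Universally algebraic types of words
-/

open CategoryTheory AlgebraicGeometry

universe u v

namespace Pool.Agent.Helper70Rk

open Pool.Agent.H914 Pool.Agent.H914.VarClass Pool.Agent.H914.VarClass.Obj
  Pool.Agent.H914.WeilCohomology Pool.Agent.R908

variable {k : Type u} [Field k] {𝒱 : VarClass k} {ops : CycleOps 𝒱}

/-- A family of eigenvectors of the endomorphism `f` which spans the cohomology of degree one. -/
structure Eig (V : WeilCohomology.{u, v} ops) (A : 𝒱.Obj) (m : A.prod A ⟶ A) (f : A ⟶ A)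
    (ι : Type) where
  /-- the eigenvectors -/
  u : ι → V.H A
  /-- the eigenvalues -/
  mu : ι → V.K
  mem : ∀ l, u l ∈ V.gr A 1
  span : V.gr A 1 ≤ Submodule.span V.K (Set.range u)
  inj : Function.Injective mu
  eig : ∀ l, V.map f (u l) = mu l • u l
  ab : IsAbelianLike V A m

variable {V : WeilCohomology.{u, v} ops} {X Y Z A : 𝒱.Obj} {m : A.prod A ⟶ A} {f : A ⟶ A}
  {ι : Type} (E : Eig V A m f ι)

/-- The words with letters of the types given by `s` are linear combinations of classes of
cycles. -/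
def UA (s : Multiset ι) : Prop :=
  ∀ (Z : 𝒱.Obj) (L : List ((Z ⟶ A) × ι)), ((L.map Prod.snd : List ι) : Multiset ι) = s →
    (L.map fun b => V.map b.1 (E.u b.2)).prod ∈ Alg V Z

lemma letter_mem (b : (Z ⟶ A) × ι) : V.map b.1 (E.u b.2) ∈ V.gr Z 1 := V.map_mem _ (E.mem _)

lemma add_letter (g h : Z ⟶ A) (l : ι) :
    V.map (Obj.lift g h ≫ m) (E.u l) = V.map g (E.u l) + V.map h (E.u l) := by
  rw [V.map_comp, E.ab.add _ (E.mem l), map_add, ← V.map_comp, ← V.map_comp, Obj.lift_fst,
    Obj.lift_snd]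

/-- The iterates of the endomorphism. -/
def itr (f : A ⟶ A) : ℕ → (A ⟶ A)
  | 0 => 𝟙 A
  | n + 1 => itr f n ≫ f

lemma itr_eig (n : ℕ) (l : ι) : V.map (itr f n) (E.u l) = E.mu l ^ n • E.u l := by
  induction n with
  | zero => rw [itr, V.map_id, pow_zero, one_smul]
  | succ n ih => rw [itr, V.map_comp, E.eig, map_smul, ih, smul_smul, pow_succ, mul_comm]

section Tuple

variable {J : Type}

variable (Z J) in
/-- The families of letters given by families of morphisms. -/
def tuples : Set (J × ι → V.H Z) :=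
  {a | ∃ h : J → (Z ⟶ A), ∀ b, a b = V.map (h b.1) (E.u b.2)}

lemma tuples_add {a b : J × ι → V.H Z} (ha : a ∈ tuples Z E J) (hb : b ∈ tuples Z E J) :
    a + b ∈ tuples Z E J := by
  obtain ⟨g, hg⟩ := ha
  obtain ⟨h, hh⟩ := hb
  refine ⟨fun j => Obj.lift (g j) (h j) ≫ m, fun c => ?_⟩
  rw [add_letter, Pi.add_apply, hg, hh]

/-- Each single letter belongs to the linear span of the families given by morphisms. -/
lemma single_mem [DecidableEq (J × ι)] [Fintype ι] (g : Z ⟶ A) (b : J × ι) :
    (Pi.single b (V.map g (E.u b.2)) : J × ι → V.H Z) ∈ Submodule.span V.K (tuples Z E J) := by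
  classical
  obtain ⟨j, l⟩ := b
  -- the tuples concentrated in one factor
  have h1 : ∀ i : ℕ, (fun b : J × ι => if b.1 = j then E.mu b.2 ^ i • V.map g (E.u b.2) else 0) ∈
      Submodule.span V.K (tuples Z E J) := by
    intro i
    have h2 : (fun b : J × ι => V.map (if b.1 = j then Obj.lift (g ≫ itr f i) g ≫ m else g)
        (E.u b.2)) ∈ tuples Z E J :=
      ⟨fun j' => if j' = j then Obj.lift (g ≫ itr f i) g ≫ m else g, fun b => rfl⟩
    have h3 : (fun b : J × ι => V.map g (E.u b.2)) ∈ tuples Z E J := ⟨fun _ => g, fun b => rfl⟩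
    have h4 := Submodule.sub_mem _ (Submodule.subset_span (R := V.K) h2)
      (Submodule.subset_span (R := V.K) h3)
    refine (congrArg (· ∈ Submodule.span V.K (tuples Z E J)) ?_).mp h4
    funext b
    rw [Pi.sub_apply]
    by_cases hb : b.1 = j
    · rw [if_pos hb, if_pos hb, add_letter, V.map_comp, itr_eig, map_smul, add_sub_cancel_right]
    · rw [if_neg hb, if_neg hb, sub_self]
  have h2 : ∀ p : Polynomial V.K, (fun b : J × ι => if b.1 = j then
      p.eval (E.mu b.2) • V.map g (E.u b.2) else 0) ∈ Submodule.span V.K (tuples Z E J) := by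
    intro p
    induction p using Polynomial.induction_on' with
    | add p q hp hq =>
      refine (congrArg (· ∈ Submodule.span V.K (tuples Z E J)) ?_).mp (Submodule.add_mem _ hp hq)
      funext b
      rw [Pi.add_apply]
      by_cases hb : b.1 = j
      · rw [if_pos hb, if_pos hb, if_pos hb, Polynomial.eval_add, add_smul]
      · rw [if_neg hb, if_neg hb, if_neg hb, add_zero]
    | monomial n c =>
      refine (congrArg (· ∈ Submodule.span V.K (tuples Z E J)) ?_).mp
        (Submodule.smul_mem _ c (h1 n))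
      funext b
      rw [Pi.smul_apply]
      by_cases hb : b.1 = j
      · rw [if_pos hb, if_pos hb, Polynomial.eval_monomial, smul_smul]
      · rw [if_neg hb, if_neg hb, smul_zero]
  have h3 := h2 (Lagrange.basis Finset.univ E.mu l)
  refine (congrArg (· ∈ Submodule.span V.K (tuples Z E J)) ?_).mp h3
  funext b
  obtain ⟨j', l'⟩ := b
  by_cases hb : j' = j
  · subst hb
    rw [if_pos rfl]
    by_cases hl : l' = l
    · subst hl
      rw [Pi.single_eq_same, Lagrange.eval_basis_self E.inj.injOn (Finset.mem_univ _), one_smul]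
    · rw [Pi.single_eq_of_ne (by intro h; exact hl (Prod.ext_iff.1 h).2),
        Lagrange.eval_basis_of_ne (Ne.symm hl) (Finset.mem_univ _), zero_smul]
  · rw [if_neg hb, Pi.single_eq_of_ne (by intro h; exact hb (Prod.ext_iff.1 h).1)]

end Tuple

/-- Rearranging a list over a given list of types. -/
lemma exists_perm_of_map {α β : Type*} {g : α → β} {l : List α} {l' : List β}
    (h : (l.map g).Perm l') : ∃ l₁, l.Perm l₁ ∧ l₁.map g = l' := by
  generalize hm : l.map g = t at h
  induction h generalizing l with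
  | nil =>
    refine ⟨[], ?_, rfl⟩
    rw [List.map_eq_nil_iff.1 hm]
  | cons x _ ih =>
    obtain ⟨a, l₀, rfl, rfl, h2⟩ := List.map_eq_cons_iff.1 hm
    obtain ⟨l₁, h3, h4⟩ := ih h2
    exact ⟨a :: l₁, h3.cons a, by rw [List.map_cons, h4]⟩
  | swap x y t =>
    obtain ⟨a, l₀, rfl, rfl, h2⟩ := List.map_eq_cons_iff.1 hm
    obtain ⟨b, l₂, rfl, rfl, h4⟩ := List.map_eq_cons_iff.1 h2
    exact ⟨b :: a :: l₂, List.Perm.swap b a l₂, by rw [List.map_cons, List.map_cons, h4]⟩
  | trans _ _ ih1 ih2 =>
    obtain ⟨l₁, h1, h2⟩ := ih1 hm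
    obtain ⟨l₂, h3, h4⟩ := ih2 h2
    exact ⟨l₂, h1.trans h3, h4⟩

/-- A list over a list without repetitions is given by a function. -/
lemma exists_fun_of_map {α β γ : Type*} [DecidableEq β] [Inhabited α] {g : β → γ} {T : List β}
    (hT : T.Nodup) {L : List (α × γ)} (h : L.map Prod.snd = T.map g) :
    ∃ h : β → α, L = T.map fun b => (h b, g b) := by
  induction T generalizing L with
  | nil => exact ⟨fun _ => default, by rw [List.map_nil] at h ⊢; exact List.map_eq_nil_iff.1 h⟩
  | cons b T ih =>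
    rw [List.map_cons] at h
    obtain ⟨a, L', rfl, ha, h2⟩ := List.map_eq_cons_iff.1 h
    obtain ⟨h', hh'⟩ := ih (List.nodup_cons.1 hT).2 h2
    refine ⟨Function.update h' b a.1, ?_⟩
    rw [List.map_cons, Function.update_self, hh']
    congr 1
    · exact Prod.ext rfl ha
    · apply List.map_congr_left
      intro c hc
      rw [Function.update_of_ne]
      rintro rfl
      exact (List.nodup_cons.1 hT).1 hc

/-- **The key lemma**: if a word occurs in an algebraic class on a product of copies of `A`, then its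
type is universally algebraic. -/
theorem key_lemma {J : Type} [Fintype J] [Fintype ι] (q : J → (Y ⟶ A))
    (hq : ∀ {Z : 𝒱.Obj} (h : J → (Z ⟶ A)), ∃ Ψ : Z ⟶ Y, ∀ j, Ψ ≫ q j = h j)
    {c : Finset (J × ι) → V.K} {s : ℕ} (hc : ∀ S, c S ≠ 0 → S.card = s)
    (hy : wordFun c (fun b => V.map (q b.1) (E.u b.2)) ∈ Alg V Y) {S₀ : Finset (J × ι)}
    (h0 : c S₀ ≠ 0) : UA E (S₀.val.map Prod.snd) := by
  classical
  intro Z L hL
  -- rearrange
  have hL' : (L.map Prod.snd).Perm (S₀.toList.map Prod.snd) := by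
    rw [← Multiset.coe_eq_coe, hL, ← Multiset.map_coe, Finset.coe_toList]
  obtain ⟨L₁, hL₁, h1⟩ := exists_perm_of_map hL'
  obtain ⟨ε, hε, h2⟩ := word_perm (hL₁.map fun b => V.map b.1 (E.u b.2)) (by
    intro y hy
    obtain ⟨b, _, rfl⟩ := List.mem_map.1 hy
    exact letter_mem E b)
  rw [h2]
  apply Submodule.smul_mem
  rcases L₁ with _ | ⟨b₀, L₂⟩
  · exact Alg.one
  have : Inhabited (Z ⟶ A) := ⟨b₀.1⟩
  obtain ⟨h, hh⟩ := exists_fun_of_map S₀.nodup_toList h1
  -- the family of letters
  set a₀ : J × ι → V.H Z := fun b => if b ∈ S₀ then V.map (h b) (E.u b.2) else 0 with ha₀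
  have hspan : a₀ ∈ Submodule.span V.K (tuples Z E J) := by
    have e : a₀ = ∑ b ∈ S₀, (Pi.single b (V.map (h b) (E.u b.2)) : J × ι → V.H Z) := by
      funext c
      rw [Finset.sum_apply, ha₀]
      beta_reduce
      by_cases hcS : c ∈ S₀
      · rw [if_pos hcS, Finset.sum_eq_single c]
        · rw [Pi.single_eq_same]
        · intro b _ hb
          exact Pi.single_eq_of_ne (Ne.symm hb) _
        · intro h; exact absurd hcS h
      · rw [if_neg hcS, Finset.sum_eq_zero]
        intro b hb
        apply Pi.single_eq_of_ne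
        rintro rfl
        exact hcS hb
    rw [e]
    exact Submodule.sum_mem _ fun b _ => single_mem E (h b) b
  have hmem : ∀ a ∈ tuples Z E J, wordFun c a ∈ Alg V Z := by
    rintro a ⟨g, hg⟩
    obtain ⟨Ψ, hΨ⟩ := hq g
    have e : wordFun c a = V.map Ψ (wordFun c (fun b => V.map (q b.1) (E.u b.2))) := by
      rw [wordFun, wordFun, map_sum]
      refine Finset.sum_congr rfl fun S _ => ?_
      rw [map_smul, map_list_prod, List.map_map]
      congr 3
      funext b
      rw [Function.comp_apply, ← V.map_comp, hΨ, hg]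
    rw [e]
    exact Alg.map Ψ hy
  have hne : (tuples Z E J).Nonempty :=
    ⟨fun b => V.map b₀.1 (E.u b.2), fun _ => b₀.1, fun _ => rfl⟩
  have hpoly : ∀ a b : J × ι → V.H Z,
      (fun t : V.K => wordFun c (a + t • b)) ∈ PolyFun V.K (V.H Z) :=
    fun a b => PolyFun.wordFun c a b
  have hadd : ∀ a ∈ tuples Z E J, ∀ b ∈ tuples Z E J, a + b ∈ tuples Z E J :=
    fun a ha b hb => tuples_add E ha hb
  have key : wordFun c a₀ ∈ Alg V Z :=
    poly_span (K := V.K) (M := J × ι → V.H Z) (V := V.H Z) (F := wordFun c)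
      (S := tuples Z E J) (W := Alg V Z) hpoly hadd hne hmem hspan
  have e : wordFun c a₀ = c S₀ • (S₀.toList.map a₀).prod := by
    rw [wordFun, Finset.sum_eq_single S₀]
    · intro S _ hS
      by_cases hcS : c S = 0
      · rw [hcS, zero_smul]
      · have h3 : ¬ S ⊆ S₀ := by
          intro h4
          exact hS (Finset.eq_of_subset_of_card_le h4 (by rw [hc S hcS, hc S₀ h0]))
        obtain ⟨b, hb, hb'⟩ := Finset.not_subset.1 h3
        have h5 : (0 : V.H Z) ∈ S.toList.map a₀ := by
          refine List.mem_map.2 ⟨b, Finset.mem_toList.2 hb, ?_⟩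
          rw [ha₀]
          beta_reduce
          rw [if_neg hb']
        rw [List.prod_eq_zero h5, smul_zero]
    · intro h; exact absurd (Finset.mem_univ _) h
  rw [e] at key
  have h3 : (S₀.toList.map a₀).prod ∈ Alg V Z := by
    have h4 := Submodule.smul_mem _ (c S₀)⁻¹ key
    rwa [smul_smul, inv_mul_cancel₀ h0, one_smul] at h4
  rw [hh, List.map_map]
  refine (congrArg (· ∈ Alg V Z) ?_).mp h3
  congr 1
  apply List.map_congr_left
  intro b hb
  rw [ha₀]
  beta_reduce
  rw [if_pos (Finset.mem_toList.1 hb), Function.comp_apply]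

end Pool.Agent.Helper70Rk
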