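import Pool.Agent.Helper70_rk1.Pairs

/-!
# Rank-one motives in the category generated by a variety of CM type
-/

open CategoryTheory AlgebraicGeometry TensorProduct

universe u v

namespace Pool.Agent.Helper70Rk

set_option linter.unusedSectionVars false
set_option linter.unusedVariables false

open Pool.Agent.H914 Pool.Agent.H914.VarClass Pool.Agent.H914.VarClass.Obj
  Pool.Agent.H914.WeilCohomology Pool.Agent.Y121.AHS Pool.Agent.R908 Module
open Pool.Agent.Y133.Half (pw)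

variable {k : Type u} [Field k] {𝒱 : VarClass k} {ops : CycleOps 𝒱}

section Odd

variable {T : HodgeTheory ops} {X Y A : 𝒱.Obj} {m : A.prod A ⟶ A} {f : A ⟶ A}
  {E : Eig (VC T) A m f (Idx T f)}

/-- The permutations given by the automorphisms of the field of complex numbers. -/
def Gam (T : HodgeTheory ops) (f : A ⟶ A) : Set (Equiv.Perm (Idx T f)) :=
  {π | ∃ τ : ℂ ≃+* ℂ, π = permOf T f τ}

/-- The holomorphic letters. -/
def hol (T : HodgeTheory ops) (f : A ⟶ A) : Set (Idx T f) := {l | l.1 ∈ holo T f}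

/-- The set of universally algebraic types has the required properties. -/
theorem calc_ua (hA : IsAbelianHodge T A m) (hmu : ∀ l, E.mu l = l.1) (hne : ∀ l, E.u l ≠ 0)
    (hcard : Fintype.card (Idx T f) = 2 * A.dim) [DecidablePred (· ∈ hol T f)] :
    Calc (UA E) (Gam T f) (kap T f) (hol T f) where
  zero := UA.zero E
  add := UA.add
  gal := by
    rintro π s ⟨τ, rfl⟩ hs
    exact hs.gal (isPermOf hmu τ) hne
  inv := by
    rintro π ⟨τ, rfl⟩
    exact ⟨τ.symm, rfl⟩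
  one := ⟨RingEquiv.refl ℂ, rfl⟩
  conj := ⟨cc, rfl⟩
  swap := kap_holo hA hmu hne
  invol := kap_kap
  pair := ua_pair hA hmu hne hcard
  cancel := fun {l s} h => ua_cancel hA hmu hne hcard l h
  hodge := by
    intro s hs
    classical
    have h1 := ua_hodge hA hmu hne hs
    rw [← h1]
    congr 1
    apply Multiset.map_congr rfl
    intro l _
    by_cases h : l.1 ∈ holo T f
    · rw [if_pos h, if_pos (show l ∈ hol T f from h)]
    · rw [if_neg h, if_neg (show l ∉ hol T f from h)]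

lemma sgn_pos {Φ : Set ℂ} {z : ℂ} (h : z ∈ Φ) : sgn Φ z = 1 := by
  rw [sgn, if_pos h]

lemma sgn_neg {Φ : Set ℂ} {z : ℂ} (h : z ∉ Φ) : sgn Φ z = -1 := by
  rw [sgn, if_neg h]

lemma odd_of (h : OddAnnihilated (eigs T f) (holo T f)) [DecidablePred (· ∈ hol T f)]
    (a : Idx T f → ℤ)
    (ha : ∀ π ∈ Gam T f, ∑ l, a l * (if π l ∈ hol T f then (1 : ℤ) else -1) = 0) :
    ∃ (r : ℕ) (τ : Fin r → Equiv.Perm (Idx T f)), Odd r ∧ (∀ i, τ i ∈ Gam T f) ∧
        ∀ l, ∑ i, a (τ i l) = ∑ i, a (τ i (kap T f l)) := by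
  classical
  set a' : ℂ → ℤ := fun z => if hz : z ∈ eigs T f then a ⟨z, hz⟩ else 0 with ha'
  have h1 : ∀ l : Idx T f, a' l.1 = a l := by
    intro l
    rw [ha']
    beta_reduce
    rw [dif_pos l.2]
  have h2 : IsRelation (eigs T f) (holo T f) a' := by
    intro τ
    rw [← ha (permOf T f τ) ⟨τ, rfl⟩, ← Finset.sum_coe_sort]
    refine Finset.sum_congr rfl fun l _ => ?_
    rw [h1]
    congr 1
    by_cases hl : τ l.1 ∈ holo T f
    · rw [sgn_pos hl, if_pos (show permOf T f τ l ∈ hol T f from hl)]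
    · rw [sgn_neg hl, if_neg (show permOf T f τ l ∉ hol T f from hl)]
  obtain ⟨r, τ, hr, h3⟩ := h a' h2
  refine ⟨r, fun i => permOf T f (τ i), hr, fun i => ⟨τ i, rfl⟩, fun l => ?_⟩
  have h4 := h3 l.1 l.2
  have h5 : ∀ i, a' (τ i l.1) = a (permOf T f (τ i) l) := fun i => h1 (permOf T f (τ i) l)
  have h6 : ∀ i, a' (τ i (starRingEnd ℂ l.1)) = a (permOf T f (τ i) (kap T f l)) :=
    fun i => h1 (permOf T f (τ i) (kap T f l))
  rw [Finset.sum_congr rfl fun i _ => h5 i, Finset.sum_congr rfl fun i _ => h6 i] at h4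
  exact h4

/-- Products of copies of `A`. -/
lemma exists_powSys (E : Eig (VC T) A m f (Idx T f)) (n : ℕ) :
    ∃ (J : Type) (_ : Fintype J), Nonempty (PowSys E (pw A n) J) := by
  induction n with
  | zero => exact ⟨Unit, inferInstance, ⟨PowSys.self E⟩⟩
  | succ n ih =>
    obtain ⟨J, hJ, ⟨S⟩⟩ := ih
    exact ⟨J ⊕ Unit, inferInstance, ⟨S.prod (PowSys.self E)⟩⟩

lemma alg_wordFun {J : Type} [Fintype J] (S : PowSys E Y J) {c : Finset (J × Idx T f) → (VC T).K}
    (h : ∀ T', c T' ≠ 0 → UA E (T'.val.map Prod.snd)) : wordFun c S.x ∈ Alg (VC T) Y := by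
  rw [wordFun]
  refine Submodule.sum_mem _ fun T' _ => ?_
  by_cases h0 : c T' = 0
  · rw [h0, zero_smul]
    exact Submodule.zero_mem _
  · apply Submodule.smul_mem
    have h1 := h T' h0 Y (T'.toList.map fun b => (S.q b.1, b.2)) (by
      rw [List.map_map]
      have e : (Prod.snd ∘ fun b : J × Idx T f => (S.q b.1, b.2)) = Prod.snd := rfl
      rw [e, ← Multiset.map_coe, Finset.coe_toList])
    rw [List.map_map] at h1
    exact h1

/-- **The two halves of an algebraic external product are algebraic.** -/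
theorem halves (hA : IsAbelianHodge T A m) (hmu : ∀ l, E.mu l = l.1) (hne : ∀ l, E.u l ≠ 0)
    (hcard : Fintype.card (Idx T f) = 2 * A.dim) (hodd : OddAnnihilated (eigs T f) (holo T f))
    {J : Type} [Fintype J] (S : PowSys E Y J) {v w : T.W.H Y} {i i' : ℕ}
    (hv : em T v ∈ (VC T).gr Y i) (hw : em T w ∈ (VC T).gr Y i') (hv0 : v ≠ 0) (hw0 : w ≠ 0)
    (h : (VC T).map (fst Y Y) (em T v) * (VC T).map (snd Y Y) (em T w) ∈
      Alg (VC T) (Y.prod Y)) : em T v ∈ Alg (VC T) Y ∧ em T w ∈ Alg (VC T) Y := by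
  classical
  have C := calc_ua (E := E) hA hmu hne hcard
  obtain ⟨c, hc, ev⟩ := S.expr hv
  obtain ⟨d, hd, ew⟩ := S.expr hw
  have hem : ∀ {x : T.W.H Y}, x ≠ 0 → em T x ≠ 0 := fun hx hx' => hx (tmul_injective _ hx')
  have hex : ∀ {x : T.W.H Y} {c : Finset (J × Idx T f) → (VC T).K}, x ≠ 0 →
      em T x = wordFun c S.x → ∃ T', c T' ≠ 0 := by
    intro x c hx e
    by_contra hcon
    push Not at hcon
    apply hem hx
    rw [e, wordFun]
    exact Finset.sum_eq_zero fun T' _ => by rw [hcon T', zero_smul]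
  -- the conjugates
  have key : ∀ (τ τ' : ℂ ≃+* ℂ) (S₀ T₀), c S₀ ≠ 0 → d T₀ ≠ 0 →
      UA E ((S₀.val.map Prod.snd).map (permOf T f τ) + (T₀.val.map Prod.snd).map (permOf T f τ')) := by
    intro τ τ' S₀ T₀ hS hT
    obtain ⟨c', hc', e1, h1⟩ := gal_expr (isPermOf hmu τ) hne S hc
    obtain ⟨d', hd', e2, h2⟩ := gal_expr (isPermOf hmu τ') hne S hd
    obtain ⟨S₁, hS₁, e3⟩ := h1 S₀ hS
    obtain ⟨T₁, hT₁, e4⟩ := h2 T₀ hT
    rw [← ev, sC_em] at e1
    rw [← ew, sC_em] at e2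
    rw [e1, e2] at h
    have h3 := key_prod S S hc' hd' h hS₁ hT₁
    rwa [e3, e4] at h3
  have hone : permOf T f (RingEquiv.refl ℂ) = 1 := rfl
  have hmap1 : ∀ s : Multiset (Idx T f), s.map (permOf T f (RingEquiv.refl ℂ)) = s := by
    intro s
    rw [hone, Equiv.Perm.coe_one, Multiset.map_id]
  obtain ⟨S₀, hS₀⟩ := hex hv0 ev
  obtain ⟨T₀, hT₀⟩ := hex hw0 ew
  constructor
  · rw [ev]
    apply alg_wordFun S
    intro S₁ hS₁
    refine C.orbit (odd_of hodd) (t := T₀.val.map Prod.snd) ?_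
    rintro π ⟨τ, rfl⟩
    have h1 := key τ (RingEquiv.refl ℂ) S₁ T₀ hS₁ hT₀
    rwa [hmap1] at h1
  · rw [ew]
    apply alg_wordFun S
    intro T₁ hT₁
    refine C.orbit (odd_of hodd) (t := S₀.val.map Prod.snd) ?_
    rintro π ⟨τ, rfl⟩
    have h1 := key (RingEquiv.refl ℂ) τ S₀ T₁ hS₀ hT₁
    rwa [hmap1, add_comm] at h1

end Odd

end Pool.Agent.Helper70Rk
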