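import Mathlib

/-!
# Relations between embeddings of a CM type: definitions
-/

namespace Pool.Agent.Helper70Rk

/-- The sign `1` for the members of `Φ`, and `-1` for the other numbers. -/
noncomputable def sgn (Φ : Set ℂ) (z : ℂ) : ℤ := by
  classical exact if z ∈ Φ then 1 else -1

/-- The integers `a z` satisfy the relation `∑ a z · sgn (τ z) = 0`, the sum over the `z` in `R`, for
all automorphisms `τ` of the field of complex numbers. -/
def IsRelation (R : Finset ℂ) (Φ : Set ℂ) (a : ℂ → ℤ) : Prop :=
  ∀ τ : ℂ ≃+* ℂ, ∑ z ∈ R, a z * sgn Φ (τ z) = 0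

/-- For every relation `a` there is an odd number of automorphisms `τ i` such that the sum of the
conjugates `a ∘ τ i` is symmetric under complex conjugation. -/
def OddAnnihilated (R : Finset ℂ) (Φ : Set ℂ) : Prop :=
  ∀ a : ℂ → ℤ, IsRelation R Φ a → ∃ (r : ℕ) (τ : Fin r → (ℂ ≃+* ℂ)), Odd r ∧
    ∀ z ∈ R, ∑ i, a (τ i z) = ∑ i, a (τ i (starRingEnd ℂ z))

/-- The group of the permutations of `R` which are induced by automorphisms of the field of complex
numbers. -/
def galPerm (R : Finset ℂ) : Subgroup (Equiv.Perm R) where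
  carrier := {π | ∃ τ : ℂ ≃+* ℂ, ∀ z : R, (π z : ℂ) = τ z}
  mul_mem' := by
    rintro π π' ⟨τ, hτ⟩ ⟨τ', hτ'⟩
    exact ⟨τ'.trans τ, fun z => by rw [Equiv.Perm.mul_apply, hτ, hτ', RingEquiv.trans_apply]⟩
  one_mem' := ⟨RingEquiv.refl ℂ, fun _ => rfl⟩
  inv_mem' := by
    rintro π ⟨τ, hτ⟩
    refine ⟨τ.symm, fun z => ?_⟩
    rw [RingEquiv.eq_symm_apply, ← hτ]
    exact congrArg Subtype.val (π.apply_symm_apply z)

/-- The automorphisms of the field of complex numbers permute the numbers in `R` transitively: `R` is
the set of the roots of an irreducible polynomial with rational coefficients. -/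
def Conjugate (R : Finset ℂ) : Prop := ∀ z ∈ R, ∀ w ∈ R, ∃ τ : ℂ ≃+* ℂ, τ z = w

/-- Complex conjugation commutes on `R` with all automorphisms of the field of complex numbers: the
field generated by `R` is totally real or a CM field. -/
def ConjCentral (R : Finset ℂ) : Prop :=
  ∀ (τ : ℂ ≃+* ℂ), ∀ z ∈ R, τ (starRingEnd ℂ z) = starRingEnd ℂ (τ z)

/-- The condition on the numbers `R`, where `g` is the dimension: the numbers in `R` are conjugate,
they generate a totally real field or a CM field, and `g` is odd and a prime power, or `g` is odd and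
the group `galPerm R` is solvable, or the Sylow `2`-subgroups of this group are cyclic. -/
def GoodField (g : ℕ) (R : Finset ℂ) : Prop :=
  Conjugate R ∧ ConjCentral R ∧
    ((Odd g ∧ (IsPrimePow g ∨ Group.IsSolvable (galPerm R))) ∨
      ∃ P : Sylow 2 (galPerm R), IsCyclic P)

end Pool.Agent.Helper70Rk
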