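import Pool.Agent.Helper70_rk1.Types

/-!
# The consequences of the Riemann relation
-/

open CategoryTheory AlgebraicGeometry TensorProduct

universe u v

namespace Pool.Agent.Helper70Rk

set_option linter.unusedSectionVars false
set_option linter.unusedVariables false

open Pool.Agent.H914 Pool.Agent.H914.VarClass Pool.Agent.H914.VarClass.Obj
  Pool.Agent.H914.WeilCohomology Pool.Agent.Y121.AHS Pool.Agent.R908 Module

variable {k : Type u} [Field k] {𝒱 : VarClass k} {ops : CycleOps 𝒱}

section Gen

variable {V : WeilCohomology.{u, v} ops} {X Y A : 𝒱.Obj} {m : A.prod A ⟶ A} {f : A ⟶ A}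
  {ι : Type} [Fintype ι] {E : Eig V A m f ι}

lemma alg_pow {x : V.H X} (hx : x ∈ Alg V X) (n : ℕ) : x ^ n ∈ Alg V X := by
  induction n with
  | zero => rw [pow_zero]; exact Alg.one
  | succ n ih => rw [pow_succ]; exact Alg.mul ih hx

lemma pow_gr {x : V.H X} (hx : x ∈ V.gr X 2) (n : ℕ) : x ^ n ∈ V.gr X (2 * n) := by
  induction n with
  | zero => rw [pow_zero, mul_zero]; exact V.one_mem X
  | succ n ih => rw [pow_succ, mul_add]; exact V.mul_mem ih hx

/-- The words which occur in an algebraic class on `A`. -/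
lemma exists_ua {y : V.H A} (hy : y ∈ Alg V A) {i : ℕ} (hi : y ∈ V.gr A i) (φ : V.H A →ₗ[V.K] V.K)
    (h : φ y ≠ 0) : ∃ L : List ι, L.length = i ∧ UA E (L : Multiset ι) ∧
      φ (L.map E.u).prod ≠ 0 := by
  obtain ⟨c, hc, e⟩ := (PowSys.self E).expr hi
  have h1 : ∃ T, c T ≠ 0 ∧ φ (T.toList.map (PowSys.self E).x).prod ≠ 0 := by
    by_contra hcon
    push Not at hcon
    apply h
    rw [e, wordFun, map_sum]
    refine Finset.sum_eq_zero fun T _ => ?_
    rw [map_smul]
    by_cases hT : c T = 0
    · rw [hT, zero_smul]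
    · rw [hcon T hT, smul_zero]
  obtain ⟨T, hT, h2⟩ := h1
  rw [e] at hy
  have h3 := key_lemma E (PowSys.self E).q (PowSys.self E).lift hc hy hT
  refine ⟨T.toList.map Prod.snd, ?_, ?_, ?_⟩
  · rw [List.length_map, Finset.length_toList, hc T hT]
  · rw [← Multiset.map_coe, Finset.coe_toList]
    exact h3
  · rw [List.map_map]
    have e1 : T.toList.map (E.u ∘ Prod.snd) = T.toList.map (PowSys.self E).x := by
      apply List.map_congr_left
      intro b _
      exact (V.map_id A _).symm
    rw [e1]
    exact h2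

/-- A nonzero word whose length is the number of letters contains all letters. -/
lemma full_word {L : List ι} (hL : L.length = Fintype.card ι) (h : (L.map E.u).prod ≠ 0) :
    L.Perm (Finset.univ : Finset ι).toList := by
  classical
  have h1 : L.Nodup := by
    by_contra hcon
    exact h (word_dup E.mem hcon)
  rw [List.perm_ext_iff_of_nodup h1 (Finset.nodup_toList _)]
  have h2 : L.toFinset = Finset.univ := by
    rw [← Finset.card_eq_iff_eq_univ, List.toFinset_card_of_nodup h1, hL]
  intro l
  rw [Finset.mem_toList, ← h2, List.mem_toFinset]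

end Gen

variable {T : HodgeTheory ops} {X Y A : 𝒱.Obj} {m : A.prod A ⟶ A} {f : A ⟶ A}
  {E : Eig (VC T) A m f (Idx T f)}

lemma em_pow (c : T.W.H X) (n : ℕ) : em T (c ^ n) = em T c ^ n := by
  have h1 : ((1 : ℂ) ⊗ₜ[T.W.K] c) ^ n = (1 : ℂ) ⊗ₜ[T.W.K] (c ^ n) := by
    rw [Algebra.TensorProduct.tmul_pow, one_pow]
  exact h1.symm

lemma trL_eq (x : HL T.W ℂ X) : (VC T).tr X (show (VC T).H X from x) = trL x := rfl

section Riemann

variable (hA : IsAbelianHodge T A m) (hmu : ∀ l, E.mu l = l.1) (hne : ∀ l, E.u l ≠ 0)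
  (hcard : Fintype.card (Idx T f) = 2 * A.dim)

include hA hmu hne hcard in
/-- The complement of a pair of conjugate letters. -/
theorem co_pair {l : Idx T f} (hl : l.1 ∈ holo T f) : ∃ L : List (Idx T f),
    UA E (L : Multiset (Idx T f)) ∧ (l :: kap T f l :: L).Perm (Finset.univ : Finset (Idx T f)).toList ∧
      (VC T).tr A ((l :: kap T f l :: L).map E.u).prod ≠ 0 := by
  classical
  obtain ⟨D, hD, hR⟩ := hA.riemann
  have hg : 0 < A.dim := by
    have h1 : 0 < Fintype.card (Idx T f) := Fintype.card_pos_iff.2 ⟨l⟩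
    omega
  have h1 : E.u l ∈ tp T A 1 0 := (holo_iff hA hmu hne l).1 hl
  have h2 := hR (E.u l) _ h1 (isConj_cc T (E.u l)) (hne l)
  obtain ⟨s, hs, e⟩ := kap_u hmu hne l
  set η : (VC T).H A := em T (T.W.cl A D) with hη
  have h3 : (VC T).tr A ((E.u l * (sC T cc).σ A (E.u l)) * η ^ (A.dim - 1)) ≠ 0 := by
    rw [hη, ← em_pow]
    exact h2
  have hη2 : η ^ (A.dim - 1) ∈ Alg (VC T) A := alg_pow (Alg.cl (V := VC T) hD) _
  have hη3 : η ^ (A.dim - 1) ∈ (VC T).gr A (2 * (A.dim - 1)) :=
    pow_gr ((VC T).cl_mem hD) _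
  rw [e, mul_smul_comm, smul_mul_assoc, map_smul, smul_eq_mul] at h3
  have h4 : (VC T).tr A ((E.u l * E.u (kap T f l)) * η ^ (A.dim - 1)) ≠ 0 :=
    right_ne_zero_of_mul h3
  obtain ⟨L, hL1, hL2, hL3⟩ := exists_ua (E := E) hη2 hη3
    ((VC T).tr A ∘ₗ LinearMap.mulLeft (VC T).K (E.u l * E.u (kap T f l))) h4
  have h5 : (VC T).tr A ((l :: kap T f l :: L).map E.u).prod ≠ 0 := by
    rw [List.map_cons, List.map_cons, List.prod_cons, List.prod_cons, ← mul_assoc]
    exact hL3
  refine ⟨L, hL2, ?_, h5⟩
  apply full_word (E := E)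
  · rw [List.length_cons, List.length_cons, hL1, hcard]
    omega
  · intro h6
    rw [h6, map_zero] at h5
    exact h5 rfl

include hA hmu hne hcard in
/-- The trace of the word with all letters. -/
lemma top_ne (l : Idx T f) :
    (VC T).tr A (((Finset.univ : Finset (Idx T f)).toList.map E.u).prod) ≠ 0 := by
  have key : ∀ l : Idx T f, l.1 ∈ holo T f →
      (VC T).tr A (((Finset.univ : Finset (Idx T f)).toList.map E.u).prod) ≠ 0 := by
    intro l hl
    obtain ⟨L, -, h2, h3⟩ := co_pair hA hmu hne hcard hl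
    obtain ⟨s, hs, e⟩ := word_perm (h2.map E.u) (by
      intro y hy
      obtain ⟨b, _, rfl⟩ := List.mem_map.1 hy
      exact E.mem b)
    rw [e, map_smul, smul_eq_mul] at h3
    exact right_ne_zero_of_mul h3
  by_cases hl : l.1 ∈ holo T f
  · exact key l hl
  · exact key (kap T f l) ((kap_holo hA hmu hne l).2 hl)

include hA hmu hne hcard in
/-- The type of the top degree is universally algebraic. -/
lemma ua_univ (l : Idx T f) : UA E (Finset.univ : Finset (Idx T f)).val := by
  obtain ⟨D, hD, hL, -⟩ := T.polar A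
  have h1 := top_ne hA hmu hne hcard l
  set η : (VC T).H A := em T (T.W.cl A D) with hη
  have hη2 : η ^ A.dim ∈ Alg (VC T) A := alg_pow (Alg.cl (V := VC T) hD) _
  have hη3 : η ^ A.dim ∈ (VC T).gr A (2 * A.dim) := pow_gr ((VC T).cl_mem hD) _
  have h2 : (1 : T.W.H A) ≠ 0 := by
    intro h3
    have h4 : (1 : (VC T).H A) = 0 := by
      have h5 : em T (1 : T.W.H A) = 0 := by
        rw [h3]
        exact TensorProduct.tmul_zero _ _
      exact h5
    apply h1
    have h5 : ((Finset.univ : Finset (Idx T f)).toList.map E.u).prod = (0 : (VC T).H A) := by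
      rw [← mul_one (((Finset.univ : Finset (Idx T f)).toList.map E.u).prod), h4, mul_zero]
    rw [h5, map_zero]
  have h3 : T.W.cl A D ^ A.dim ≠ 0 := by
    intro h4
    apply h2
    apply (hL 0 (Nat.zero_le _)).1 1 (T.W.one_mem A)
    have h5 : ∀ n : ℕ, (LinearMap.mulLeft T.W.K (T.W.cl A D) ^ n) (1 : T.W.H A) =
        T.W.cl A D ^ n := by
      intro n
      induction n with
      | zero => rw [pow_zero, pow_zero]; rfl
      | succ n ih =>
        rw [pow_succ', Module.End.mul_apply, ih, LinearMap.mulLeft_apply, pow_succ']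
    rw [h5, Nat.sub_zero, h4]
  have h4 : η ^ A.dim ≠ 0 := by
    intro h5
    rw [hη, ← em_pow] at h5
    exact h3 (tmul_injective _ h5)
  obtain ⟨φ, hφ⟩ := Module.Projective.exists_dual_eq_one (VC T).K h4
  obtain ⟨L, hL1, hL2, hL3⟩ := exists_ua (E := E) hη2 hη3 φ (by rw [hφ]; exact one_ne_zero)
  have h5 : L.Perm (Finset.univ : Finset (Idx T f)).toList := by
    apply full_word (E := E)
    · rw [hL1, hcard]
    · intro h6
      rw [h6, map_zero] at hL3
      exact hL3 rfl
  have h6 : (L : Multiset (Idx T f)) = (Finset.univ : Finset (Idx T f)).val := by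
    rw [← Finset.coe_toList, Multiset.coe_eq_coe]
    exact h5
  rw [← h6]
  exact hL2

lemma count_pair {ι : Type} [DecidableEq ι] (a b z : ι) :
    Multiset.count z ({a, b} : Multiset ι) = (if z = a then 1 else 0) + if z = b then 1 else 0 := by
  have h1 : ({a, b} : Multiset ι) = {a} + {b} := rfl
  rw [h1, Multiset.count_add, Multiset.count_singleton, Multiset.count_singleton]

include hA hmu hne hcard in
/-- Cancellation of pairs. -/
lemma ua_cancel (l : Idx T f) {s : Multiset (Idx T f)} (h : UA E (s + {l, kap T f l})) :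
    UA E s := by
  have key : ∀ l : Idx T f, l.1 ∈ holo T f → UA E (s + {l, kap T f l}) → UA E s := by
    intro l hl h
    obtain ⟨L, h1, h2, -⟩ := co_pair hA hmu hne hcard hl
    apply UA.cancel_top (top_ne hA hmu hne hcard l)
    have h3 := h.add h1
    have h4 : ({l, kap T f l} : Multiset (Idx T f)) + (L : Multiset (Idx T f)) =
        (Finset.univ : Finset (Idx T f)).val := by
      rw [← Finset.coe_toList, ← Multiset.coe_eq_coe.2 h2]
      rfl
    rw [add_assoc, h4, add_comm] at h3
    exact h3
  by_cases hl : l.1 ∈ holo T f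
  · exact key l hl h
  · apply key (kap T f l) ((kap_holo hA hmu hne l).2 hl)
    rwa [kap_kap, Multiset.pair_comm]

include hA hmu hne hcard in
/-- Pairs of conjugate letters are universally algebraic. -/
lemma ua_pair (l : Idx T f) : UA E {l, kap T f l} := by
  classical
  have key : ∀ l : Idx T f, l.1 ∈ holo T f → UA E {l, kap T f l} := by
    intro l hl
    set F : Finset (Idx T f) := Finset.univ.filter fun l => l.1 ∈ holo T f with hF
    have h1 : ∀ l' : Idx T f, ∃ t : Multiset (Idx T f), l' ∈ F → (UA E t ∧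
        t + {l', kap T f l'} = (Finset.univ : Finset (Idx T f)).val) := by
      intro l'
      by_cases hl' : l' ∈ F
      · obtain ⟨L, h1, h2, -⟩ := co_pair hA hmu hne hcard (Finset.mem_filter.1 hl').2
        refine ⟨L, fun _ => ⟨h1, ?_⟩⟩
        rw [← Finset.coe_toList, ← Multiset.coe_eq_coe.2 h2, add_comm]
        rfl
      · exact ⟨0, fun h => absurd h hl'⟩
    choose t ht using h1
    have h2 : ∑ l' ∈ F, ({l', kap T f l'} : Multiset (Idx T f)) =
        (Finset.univ : Finset (Idx T f)).val := by
      ext z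
      rw [Multiset.count_sum', Multiset.count_univ]
      simp only [count_pair, Finset.sum_add_distrib, Finset.sum_ite_eq]
      by_cases hz : z.1 ∈ holo T f
      · have hzF : z ∈ F := Finset.mem_filter.2 ⟨Finset.mem_univ _, hz⟩
        have e0 : ∑ l' ∈ F, (if z = kap T f l' then 1 else 0) = 0 := by
          apply Finset.sum_eq_zero
          intro l' hl'
          rw [if_neg]
          rintro rfl
          exact ((kap_holo hA hmu hne l').1 hz) (Finset.mem_filter.1 hl').2
        rw [if_pos hzF, e0]
      · have hzF : z ∉ F := fun h => hz (Finset.mem_filter.1 h).2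
        rw [if_neg hzF, Finset.sum_eq_single (kap T f z)]
        · rw [if_pos (kap_kap z).symm]
        · intro l' _ hl'
          rw [if_neg]
          rintro rfl
          exact hl' (kap_kap l').symm
        · intro h
          have hkF : kap T f z ∈ F :=
            Finset.mem_filter.2 ⟨Finset.mem_univ _, (kap_holo hA hmu hne z).2 hz⟩
          exact absurd hkF h
    have hlF : l ∈ F := Finset.mem_filter.2 ⟨Finset.mem_univ _, hl⟩
    have h3 : ∑ l' ∈ F.erase l, t l' + ∑ l' ∈ F.erase l, ({l', kap T f l'} : Multiset (Idx T f)) =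
        (F.erase l).card • (Finset.univ : Finset (Idx T f)).val := by
      rw [← Finset.sum_add_distrib, ← Finset.sum_const]
      exact Finset.sum_congr rfl fun l' hl' => (ht l' (Finset.mem_of_mem_erase hl')).2
    have h4 : ∑ l' ∈ F.erase l, ({l', kap T f l'} : Multiset (Idx T f)) + {l, kap T f l} =
        (Finset.univ : Finset (Idx T f)).val := by
      rw [← h2, Finset.sum_erase_add _ _ hlF]
    have h5 : UA E (∑ l' ∈ F.erase l, t l' + (Finset.univ : Finset (Idx T f)).val) :=
      (UA.sum fun l' hl' => (ht l' (Finset.mem_of_mem_erase hl')).1).add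
        (ua_univ hA hmu hne hcard l)
    rw [← h4, ← add_assoc, h3] at h5
    exact UA.cancel_top_nsmul (top_ne hA hmu hne hcard l) _ h5
  by_cases hl : l.1 ∈ holo T f
  · exact key l hl
  · have h1 := key (kap T f l) ((kap_holo hA hmu hne l).2 hl)
    rwa [kap_kap, Multiset.pair_comm] at h1

end Riemann

end Pool.Agent.Helper70Rk
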