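import Mathlib

/-!
# Polynomial functions with values in a vector space
-/

namespace Pool.Agent.Helper70Rk

variable {K : Type*} [Field K]

section Fun

variable (K) (V : Type*) [AddCommGroup V] [Module K V]

/-- The polynomial functions of one variable with values in `V`. -/
def PolyFun : Submodule K (K → V) :=
  Submodule.span K {g : K → V | ∃ (m : ℕ) (y : V), g = fun t => t ^ m • y}

variable {K V}

lemma PolyFun.mono (m : ℕ) (y : V) : (fun t : K => t ^ m • y) ∈ PolyFun K V :=
  Submodule.subset_span ⟨m, y, rfl⟩

lemma PolyFun.const (y : V) : (fun _ : K => y) ∈ PolyFun K V := by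
  have h := PolyFun.mono (K := K) 0 y
  simpa using h

lemma PolyFun.lin (a b : V) : (fun t : K => a + t • b) ∈ PolyFun K V := by
  have h := PolyFun.mono (K := K) 1 b
  simp only [pow_one] at h
  exact Submodule.add_mem _ (PolyFun.const a) h

/-- A polynomial function with infinitely many values in a subspace has all its values there. -/
lemma PolyFun.mem [CharZero K] {f : K → V} (hf : f ∈ PolyFun K V) {W : Submodule K V}
    (h : ∀ n : ℕ, f n ∈ W) (t : K) : f t ∈ W := by
  by_contra hcon
  obtain ⟨φ, hφ1, hφ2⟩ := Submodule.exists_le_ker_of_notMem hcon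
  have hp : ∃ p : Polynomial K, ∀ t, φ (f t) = p.eval t := by
    clear h hcon hφ1
    induction hf using Submodule.span_induction with
    | mem g hg =>
      obtain ⟨m, y, rfl⟩ := hg
      refine ⟨Polynomial.C (φ y) * Polynomial.X ^ m, fun t => ?_⟩
      rw [Polynomial.eval_mul, Polynomial.eval_C, Polynomial.eval_pow, Polynomial.eval_X, map_smul,
        smul_eq_mul, mul_comm]
    | zero => exact ⟨0, fun t => by simp⟩
    | add x y _ _ hx hy =>
      obtain ⟨p, hp⟩ := hx
      obtain ⟨q, hq⟩ := hy
      exact ⟨p + q, fun t => by simp [hp, hq]⟩
    | smul c x _ hx =>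
      obtain ⟨p, hp⟩ := hx
      exact ⟨Polynomial.C c * p, fun t => by simp [hp]⟩
  obtain ⟨p, hp⟩ := hp
  have h0 : p = 0 := by
    apply Polynomial.eq_zero_of_infinite_isRoot
    refine Set.infinite_of_injective_forall_mem (f := fun n : ℕ => (n : K)) Nat.cast_injective ?_
    intro n
    have h1 : φ (f n) = 0 := hφ2 (h n)
    rw [hp] at h1
    exact h1
  apply hφ1
  rw [hp, h0, Polynomial.eval_zero]

end Fun

section Mul

variable {V : Type*} [Ring V] [Algebra K V]

lemma PolyFun.mul {f g : K → V} (hf : f ∈ PolyFun K V) (hg : g ∈ PolyFun K V) :
    (fun t => f t * g t) ∈ PolyFun K V := by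
  induction hf using Submodule.span_induction with
  | mem x hx =>
    obtain ⟨m, y, rfl⟩ := hx
    induction hg using Submodule.span_induction with
    | mem x hx =>
      obtain ⟨n, z, rfl⟩ := hx
      have h := PolyFun.mono (K := K) (m + n) (y * z)
      have e : (fun t : K => t ^ (m + n) • (y * z)) = fun t => t ^ m • y * t ^ n • z := by
        funext t
        rw [smul_mul_smul_comm, pow_add]
      rwa [e] at h
    | zero =>
      simp only [Pi.zero_apply, mul_zero]
      exact Submodule.zero_mem _
    | add x y _ _ hx hy =>
      simp only [Pi.add_apply, mul_add]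
      exact Submodule.add_mem _ hx hy
    | smul c x _ hx =>
      simp only [Pi.smul_apply, mul_smul_comm]
      exact Submodule.smul_mem _ c hx
  | zero =>
    simp only [Pi.zero_apply, zero_mul]
    exact Submodule.zero_mem _
  | add x y _ _ hx hy =>
    simp only [Pi.add_apply, add_mul]
    exact Submodule.add_mem _ hx hy
  | smul c x _ hx =>
    simp only [Pi.smul_apply, smul_mul_assoc]
    exact Submodule.smul_mem _ c hx

/-- The product of the values of a family of linear functions. -/
lemma PolyFun.word {B : Type*} (a b : B → V) (L : List B) :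
    (fun t : K => (L.map fun i => a i + t • b i).prod) ∈ PolyFun K V := by
  induction L with
  | nil => exact PolyFun.const _
  | cons i L ih =>
    simp only [List.map_cons, List.prod_cons]
    exact PolyFun.mul (PolyFun.lin _ _) ih

/-- The function of the letters given by a linear combination of words. -/
noncomputable def wordFun {B : Type*} [Fintype B] (c : Finset B → K) (a : B → V) : V :=
  ∑ S : Finset B, c S • (S.toList.map a).prod

lemma PolyFun.wordFun {B : Type*} [Fintype B] (c : Finset B → K) (a b : B → V) :
    (fun t : K => Helper70Rk.wordFun c (a + t • b)) ∈ PolyFun K V := by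
  have e : (fun t : K => Helper70Rk.wordFun c (a + t • b)) =
      ∑ S : Finset B, c S • (fun t : K => (S.toList.map fun i => a i + t • b i).prod) := by
    funext t
    rw [Finset.sum_apply]
    rfl
  rw [e]
  exact Submodule.sum_mem _ fun S _ => Submodule.smul_mem _ _ (PolyFun.word a b _)

end Mul

section Span

variable [CharZero K] {M V : Type*} [AddCommGroup M] [Module K M] [AddCommGroup V] [Module K V]

/-- A function which is polynomial on lines and maps a semigroup into a subspace, maps the linear
span of the semigroup into this subspace. -/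
theorem poly_span {F : M → V} (hF : ∀ a b : M, (fun t : K => F (a + t • b)) ∈ PolyFun K V)
    {S : Set M} (hS : ∀ a ∈ S, ∀ b ∈ S, a + b ∈ S) (hne : S.Nonempty) {W : Submodule K V}
    (h : ∀ a ∈ S, F a ∈ W) {x : M} (hx : x ∈ Submodule.span K S) : F x ∈ W := by
  have key : ∀ x ∈ Submodule.span K S, ∀ z : M, (∀ a ∈ S, F (a + z) ∈ W) →
      ∀ a ∈ S, F (a + z + x) ∈ W := by
    intro x hx
    induction hx using Submodule.span_induction with
    | mem x hx =>
      intro z hz a ha
      have e : a + z + x = (a + x) + z := by abel
      rw [e]
      exact hz _ (hS a ha x hx)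
    | zero => intro z hz a ha; rw [add_zero]; exact hz a ha
    | add x y _ _ hx hy =>
      intro z hz a ha
      have h1 := hy (z + x) (fun a ha => by rw [← add_assoc]; exact hx z hz a ha) a ha
      have e : a + z + (x + y) = a + (z + x) + y := by abel
      rw [e]
      exact h1
    | smul c x _ hx =>
      intro z hz a ha
      have h1 : ∀ n : ℕ, ∀ a ∈ S, F (a + z + (n : K) • x) ∈ W := by
        intro n
        induction n with
        | zero => intro a ha; rw [Nat.cast_zero, zero_smul, add_zero]; exact hz a ha
        | succ n ih =>
          intro a ha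
          have h2 := hx (z + (n : K) • x) (fun a ha => by rw [← add_assoc]; exact ih a ha) a ha
          have e : a + z + ((n + 1 : ℕ) : K) • x = a + (z + (n : K) • x) + x := by
            push_cast
            rw [add_smul, one_smul]
            abel
          rw [e]
          exact h2
      exact PolyFun.mem (hF (a + z) x) (fun n => h1 n a ha) c
  obtain ⟨a, ha⟩ := hne
  have h1 := key (x - a) (Submodule.sub_mem _ hx (Submodule.subset_span ha)) 0
    (fun b hb => by rw [add_zero]; exact h b hb) a ha
  have e : a + 0 + (x - a) = x := by abel
  rwa [e] at h1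

end Span

end Pool.Agent.Helper70Rk
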