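import Pool.Agent.Helper70_rk1.Calc

/-!
# Words in external products, and eigenvectors
-/

open CategoryTheory AlgebraicGeometry

universe u v

namespace Pool.Agent.Helper70Rk

open Pool.Agent.H914 Pool.Agent.H914.VarClass Pool.Agent.H914.VarClass.Obj
  Pool.Agent.H914.WeilCohomology Pool.Agent.R908

variable {k : Type u} [Field k] {𝒱 : VarClass k} {ops : CycleOps 𝒱}
  {V : WeilCohomology.{u, v} ops} {X Y Z A : 𝒱.Obj} {m : A.prod A ⟶ A} {f : A ⟶ A}
  {ι : Type} {E : Eig V A m f ι}

/-- The sets of letters of a product. -/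
noncomputable def splitSet (J J' ι : Type) :
    Finset ((J ⊕ J') × ι) ≃ Finset (J × ι) × Finset (J' × ι) :=
  (Equiv.finsetCongr (Equiv.sumProdDistrib J J' ι)).trans Finset.sumEquiv.toEquiv

/-- The letters of the first factor. -/
def inlL {J J' ι : Type} (b : J × ι) : (J ⊕ J') × ι := (Sum.inl b.1, b.2)

/-- The letters of the second factor. -/
def inrL {J J' ι : Type} (b : J' × ι) : (J ⊕ J') × ι := (Sum.inr b.1, b.2)

lemma splitSet_mem_inl {J J' ι : Type} (U : Finset ((J ⊕ J') × ι)) (b : J × ι) :
    b ∈ (splitSet J J' ι U).1 ↔ inlL b ∈ U := by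
  simp only [splitSet, Equiv.trans_apply, Equiv.finsetCongr_apply]
  change b ∈ (Finset.map _ U).toLeft ↔ _
  rw [Finset.mem_toLeft, Finset.mem_map_equiv]
  rfl

lemma splitSet_mem_inr {J J' ι : Type} (U : Finset ((J ⊕ J') × ι)) (b : J' × ι) :
    b ∈ (splitSet J J' ι U).2 ↔ inrL b ∈ U := by
  simp only [splitSet, Equiv.trans_apply, Equiv.finsetCongr_apply]
  change b ∈ (Finset.map _ U).toRight ↔ _
  rw [Finset.mem_toRight, Finset.mem_map_equiv]
  rfl

lemma splitSet_perm {J J' ι : Type} (U : Finset ((J ⊕ J') × ι)) :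
    U.toList.Perm ((splitSet J J' ι U).1.toList.map inlL ++
      (splitSet J J' ι U).2.toList.map inrL) := by
  classical
  rw [List.perm_ext_iff_of_nodup (Finset.nodup_toList _)]
  · rintro ⟨j | j, l⟩
    · rw [Finset.mem_toList, List.mem_append, List.mem_map, List.mem_map]
      constructor
      · intro h
        exact Or.inl ⟨(j, l), Finset.mem_toList.2 ((splitSet_mem_inl U (j, l)).2 h), rfl⟩
      · rintro (⟨b, hb, h⟩ | ⟨b, hb, h⟩)
        · rw [← h]
          exact (splitSet_mem_inl U b).1 (Finset.mem_toList.1 hb)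
        · exact absurd (congrArg Prod.fst h) (by simp [inrL])
    · rw [Finset.mem_toList, List.mem_append, List.mem_map, List.mem_map]
      constructor
      · intro h
        exact Or.inr ⟨(j, l), Finset.mem_toList.2 ((splitSet_mem_inr U (j, l)).2 h), rfl⟩
      · rintro (⟨b, hb, h⟩ | ⟨b, hb, h⟩)
        · exact absurd (congrArg Prod.fst h) (by simp [inlL])
        · rw [← h]
          exact (splitSet_mem_inr U b).1 (Finset.mem_toList.1 hb)
  · rw [List.nodup_append']
    refine ⟨(Finset.nodup_toList _).map ?_, (Finset.nodup_toList _).map ?_, ?_⟩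
    · intro b b' h
      have h1 := congrArg Prod.fst h
      have h2 := congrArg Prod.snd h
      exact Prod.ext (Sum.inl_injective h1) h2
    · intro b b' h
      have h1 := congrArg Prod.fst h
      have h2 := congrArg Prod.snd h
      exact Prod.ext (Sum.inr_injective h1) h2
    · rw [List.disjoint_left]
      intro a ha hb
      obtain ⟨b, -, rfl⟩ := List.mem_map.1 ha
      obtain ⟨b', -, h⟩ := List.mem_map.1 hb
      exact absurd (congrArg Prod.fst h) (by simp [inlL, inrL])

lemma splitSet_card {J J' ι : Type} (U : Finset ((J ⊕ J') × ι)) :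
    U.card = (splitSet J J' ι U).1.card + (splitSet J J' ι U).2.card := by
  have h := (splitSet_perm U).length_eq
  rw [List.length_append, List.length_map, List.length_map, Finset.length_toList,
    Finset.length_toList, Finset.length_toList] at h
  exact h

lemma splitSet_type {J J' ι : Type} (U : Finset ((J ⊕ J') × ι)) :
    U.val.map Prod.snd = (splitSet J J' ι U).1.val.map Prod.snd +
      (splitSet J J' ι U).2.val.map Prod.snd := by
  have h := (splitSet_perm U).map Prod.snd
  rw [← Multiset.coe_eq_coe, List.map_append, List.map_map, List.map_map, ← Multiset.coe_add,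
    ← Multiset.map_coe, Finset.coe_toList] at h
  rw [h]
  congr 1
  · rw [← Multiset.map_coe, Finset.coe_toList]; rfl
  · rw [← Multiset.map_coe, Finset.coe_toList]; rfl

/-- The key lemma for external products. -/
theorem key_prod {J J' : Type} [Fintype J] [Fintype J'] [Fintype ι] (S : PowSys E X J)
    (S' : PowSys E Y J') {c : Finset (J × ι) → V.K} {d : Finset (J' × ι) → V.K} {s t : ℕ}
    (hc : ∀ T, c T ≠ 0 → T.card = s) (hd : ∀ T, d T ≠ 0 → T.card = t)
    (h : V.map (fst X Y) (wordFun c S.x) * V.map (snd X Y) (wordFun d S'.x) ∈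
      Alg V (X.prod Y)) {S₀ : Finset (J × ι)} {T₀ : Finset (J' × ι)} (h1 : c S₀ ≠ 0)
    (h2 : d T₀ ≠ 0) : UA E (S₀.val.map Prod.snd + T₀.val.map Prod.snd) := by
  classical
  have hx1 : ∀ b, (S.prod S').x (inlL b) = V.map (fst X Y) (S.x b) := fun b =>
    V.map_comp (fst X Y) (S.q b.1) (E.u b.2)
  have hx2 : ∀ b, (S.prod S').x (inrL b) = V.map (snd X Y) (S'.x b) := fun b =>
    V.map_comp (snd X Y) (S'.q b.1) (E.u b.2)
  have h3 : ∀ U : Finset ((J ⊕ J') × ι), ∃ ε : V.K, ε ≠ 0 ∧
      V.map (fst X Y) (((splitSet J J' ι U).1.toList.map S.x).prod) *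
        V.map (snd X Y) (((splitSet J J' ι U).2.toList.map S'.x).prod) =
        ε • (U.toList.map (S.prod S').x).prod := by
    intro U
    obtain ⟨ε, hε, e⟩ := word_perm ((splitSet_perm U).symm.map (S.prod S').x) (by
      intro y hy
      obtain ⟨b, _, rfl⟩ := List.mem_map.1 hy
      exact (S.prod S').x_mem b)
    refine ⟨ε, hε, ?_⟩
    rw [← e, List.map_append, List.map_map, List.map_map, List.prod_append, map_list_prod,
      map_list_prod, List.map_map, List.map_map]
    congr 2
    · exact List.map_congr_left fun b _ => (hx1 b).symm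
    · exact List.map_congr_left fun b _ => (hx2 b).symm
  choose ε hε h3 using h3
  set C : Finset ((J ⊕ J') × ι) → V.K := fun U =>
    (c (splitSet J J' ι U).1 * d (splitSet J J' ι U).2) * ε U with hC
  have h4 : wordFun C (S.prod S').x =
      V.map (fst X Y) (wordFun c S.x) * V.map (snd X Y) (wordFun d S'.x) := by
    let F : Finset (J × ι) × Finset (J' × ι) → V.H (X.prod Y) := fun p =>
      V.map (fst X Y) (c p.1 • (p.1.toList.map S.x).prod) *
        V.map (snd X Y) (d p.2 • (p.2.toList.map S'.x).prod)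
    have hF : V.map (fst X Y) (wordFun c S.x) * V.map (snd X Y) (wordFun d S'.x) = ∑ p, F p := by
      rw [wordFun, wordFun, map_sum, map_sum, Finset.sum_mul_sum, Fintype.sum_prod_type]
    rw [hF, ← (splitSet J J' ι).sum_comp F, wordFun]
    refine Finset.sum_congr rfl fun U _ => ?_
    change _ = V.map (fst X Y) (c (splitSet J J' ι U).1 •
      ((splitSet J J' ι U).1.toList.map S.x).prod) * V.map (snd X Y)
        (d (splitSet J J' ι U).2 • ((splitSet J J' ι U).2.toList.map S'.x).prod)
    rw [map_smul, map_smul, smul_mul_smul_comm, h3, smul_smul]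
  set U₀ := (splitSet J J' ι).symm (S₀, T₀) with hU₀
  have h5 : splitSet J J' ι U₀ = (S₀, T₀) := Equiv.apply_symm_apply _ _
  have h6 : C U₀ ≠ 0 := by
    rw [hC]
    beta_reduce
    rw [h5]
    exact mul_ne_zero (mul_ne_zero h1 h2) (hε _)
  have h7 : ∀ U, C U ≠ 0 → U.card = s + t := by
    intro U hU
    rw [hC] at hU
    beta_reduce at hU
    rw [splitSet_card, hc _ (left_ne_zero_of_mul (left_ne_zero_of_mul hU)),
      hd _ (right_ne_zero_of_mul (left_ne_zero_of_mul hU))]
  have h8 : wordFun C (fun b => V.map ((S.prod S').q b.1) (E.u b.2)) ∈ Alg V (X.prod Y) := by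
    have e : (fun b => V.map ((S.prod S').q b.1) (E.u b.2)) = (S.prod S').x := rfl
    rw [e, h4]
    exact h
  have h9 := key_lemma E (S.prod S').q (S.prod S').lift h7 h8 h6
  rw [splitSet_type, h5] at h9
  exact h9

end Pool.Agent.Helper70Rk
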