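import Pool.Agent.Helper70_rk1.NumDefs
import Pool.Agent.Y121.AHS.Defs
import Pool.Agent.R908.AbDefs

/-!
# Abelian varieties of CM type and rank-one motives: definitions

A Hodge theory `T` (`Pool.Agent.Y121.AHS.HodgeTheory`) is a Weil cohomology theory with rational
coefficients and a Hodge decomposition of its cohomology with complex coefficients; in the intended
use it is the cohomology `H(X(ℂ), ℚ)` of the smooth projective varieties `X` over an algebraically
closed subfield `k` of the complex numbers, for example over the algebraic closure of the rational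
numbers in `ℂ`.
-/

open CategoryTheory AlgebraicGeometry

universe u

namespace Pool.Agent.Helper70Rk

open Pool.Agent.H914 Pool.Agent.H914.VarClass Pool.Agent.H914.VarClass.Obj
  Pool.Agent.H914.WeilCohomology Pool.Agent.Y121.AHS
open Pool.Agent.R908 (GeneratedInDegreeOne)

variable {k : Type u} [Field k] {𝒱 : VarClass k} {ops : CycleOps 𝒱} (T : HodgeTheory ops)

section Ops

variable {X Y : 𝒱.Obj}

/-- The class of a cycle in the cohomology with complex coefficients. -/
noncomputable def cy (c : X.Cycles) : HL T.W ℂ X := emL T.W ℂ (T.W.cl X c)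

/-- The action of the cycle `z` on `X × Y` as a correspondence from `X` to `Y` on the cohomology with
complex coefficients: `x ↦ pr₂_* (cl z · pr₁^* x)`. -/
noncomputable def act (z : (X.prod Y).Cycles) (x : HL T.W ℂ X) : HL T.W ℂ Y :=
  pushL (snd X Y) (mulL (cy T z) (mapL (fst X Y) x))

end Ops

section CM

variable {T}

/-- The class `y` with complex coefficients is the complex conjugate of the class `x`. -/
def IsConj {X : 𝒱.Obj} (x y : HL T.W ℂ X) : Prop :=
  ∃ L : List (ℂ × T.W.H X), (L.map fun p => smL p.1 (emL T.W ℂ p.2)).sum = x ∧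
    (L.map fun p => smL (starRingEnd ℂ p.1) (emL T.W ℂ p.2)).sum = y

/-- The number `tr (x y D^n)` for a divisor `D`, where `x` and `y` are classes with complex
coefficients. -/
noncomputable def trD {X : 𝒱.Obj} (D : X.Cycles) (n : ℕ) (x y : HL T.W ℂ X) : ℂ :=
  trL (mulL (mulL x y) (emL T.W ℂ (T.W.cl X D ^ n)))

variable (T) {A : 𝒱.Obj}

/-- The variety `A` with the addition `m` behaves like an abelian variety: pull-back by `m` is the sum
of the pull-backs by the projections on `H^1(A)`, the cohomology is generated by `H^1(A)`, which has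
dimension `2 dim A`, it is the sum of `H^(1,0)` and of `H^(0,1)`, these are complex conjugate, and there
is a divisor `D` with the Riemann relation `tr (x · x̄ · D ^ (dim A - 1)) ≠ 0` for all `x ≠ 0` of type
`(1, 0)`. -/
structure IsAbVar (m : A.prod A ⟶ A) : Prop where
  add : ∀ x : HL T.W ℂ A, IsDeg 1 x → mapL m x = mapL (fst A A) x + mapL (snd A A) x
  gen : GeneratedInDegreeOne (T.W.gr A)
  betti : Module.finrank ℂ (grL T.W ℂ A 1) = 2 * A.dim
  types : ∀ x : HL T.W ℂ A, IsDeg 1 x →
    ∃ y z : HL T.W ℂ A, x = y + z ∧ IsType T.pq 1 0 y ∧ IsType T.pq 0 1 z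
  conj : ∀ x y : HL T.W ℂ A, IsConj x y → (IsType T.pq 1 0 x ↔ IsType T.pq 0 1 y)
  riemann : ∃ D : A.Cycles, A.IsCyc 1 D ∧ ∀ x y : HL T.W ℂ A, IsType T.pq 1 0 x → IsConj x y →
    x ≠ 0 → trD D (A.dim - 1) x y ≠ 0

/-- The set `R` of complex numbers is the set of the eigenvalues of `f` on `H^1(A)` with complex
coefficients, and it has `2 dim A` elements. (So the endomorphism `f` generates a commutative algebra of
degree `2 dim A`, and `A` is of CM type.) -/
def IsCM (f : A ⟶ A) (R : Finset ℂ) : Prop :=
  R.card = 2 * A.dim ∧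
    ∀ z, z ∈ R ↔ ∃ x : HL T.W ℂ A, IsDeg 1 x ∧ x ≠ 0 ∧ mapL f x = smL z x

/-- The CM type: the set of the eigenvalues of `f` on `H^(1,0)(A)`. -/
def holo (f : A ⟶ A) : Set ℂ :=
  {z | ∃ x : HL T.W ℂ A, IsType T.pq 1 0 x ∧ x ≠ 0 ∧ mapL f x = smL z x}

end CM

section Motives

variable (Y : 𝒱.Obj)

/-- The cycle `z` defines a rank-one motive `(Y, z, j)`, that is, a rank-one direct factor of the motive
of `Y`, up to Tate twists: it is a correspondence of degree zero which acts on the cohomology as an
idempotent, and the image of this idempotent is the line spanned by a class `v`. -/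
def IsRkOne (z : (Y.prod Y).Cycles) : Prop :=
  (Y.prod Y).IsCyc Y.dim z ∧ (∀ x, act T z (act T z x) = act T z x) ∧
    ∃ v : HL T.W ℂ Y, act T z v = v ∧ ∀ x, ∃! r : ℂ, act T z x = smL r v

/-- The rank-one motive defined by the cycle `z` is a Tate motive: for some `j` there are cycles `c` of
codimension `j` and `c'` of codimension `dim Y - j` on `Y` such that `z` acts as
`x ↦ tr (x · c') c`, where `tr (c · c') = 1`. (So `c` and `c'` define morphisms from the Tate motive
`ℚ(-j)` to `h(Y)` and from `h(Y)` to `ℚ(-j)` whose composites are the identity and `z`.) -/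
def IsTateMotive (z : (Y.prod Y).Cycles) : Prop :=
  ∃ (j i : ℕ) (c c' : Y.Cycles), j + i = Y.dim ∧ Y.IsCyc j c ∧ Y.IsCyc i c' ∧
    trL (mulL (cy T c) (cy T c')) = 1 ∧
    ∀ x, act T z x = smL (trL (mulL x (cy T c'))) (cy T c)

/-- The motive defined by the idempotent correspondence `z` on `Y` is, up to a Tate twist, a direct
factor of the motive of `B`: there are correspondences `a` from `Y` to `B` and `b` from `B` to `Y`, of
opposite degrees, such that `z ∘ b ∘ a ∘ z = z` on the cohomology. -/
def IsFactorOf (z : (Y.prod Y).Cycles) (B : 𝒱.Obj) : Prop :=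
  ∃ (p q : ℕ) (a : (Y.prod B).Cycles) (b : (B.prod Y).Cycles), p + q = Y.dim + B.dim ∧
    (Y.prod B).IsCyc p a ∧ (B.prod Y).IsCyc q b ∧
    ∀ x, act T z (act T b (act T a (act T z x))) = act T z x

end Motives

end Pool.Agent.Helper70Rk
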