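import Pool.Agent.Helper70_rk1.Hodge

/-!
# The eigenvectors of an endomorphism of a variety of CM type
-/

open CategoryTheory AlgebraicGeometry TensorProduct

universe u v

namespace Pool.Agent.Helper70Rk

open Pool.Agent.H914 Pool.Agent.H914.VarClass Pool.Agent.H914.VarClass.Obj
  Pool.Agent.H914.WeilCohomology Pool.Agent.Y121.AHS Pool.Agent.R908 Module

variable {k : Type u} [Field k] {𝒱 : VarClass k} {ops : CycleOps 𝒱}

section Ab

variable {W : WeilCohomology.{u, v} ops} {L : Type v} [Field L] [Algebra W.K L] {X Y A : 𝒱.Obj}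
  {m : A.prod A ⟶ A}

lemma pow_baseChange' {p : Submodule W.K (W.H X)} {i : ℕ} {a : W.H X} (ha : a ∈ p ^ i) :
    (1 : L) ⊗ₜ[W.K] a ∈ (p.baseChange L) ^ i := by
  induction i generalizing a with
  | zero =>
    rw [pow_zero, Submodule.mem_one] at ha ⊢
    obtain ⟨c, rfl⟩ := ha
    refine ⟨algebraMap W.K L c, ?_⟩
    rw [Algebra.algebraMap_eq_smul_one (A := W.H X) c, TensorProduct.tmul_smul,
      ← algebraMap_smul L c, Algebra.algebraMap_eq_smul_one]
    rfl
  | succ i ih =>
    rw [pow_succ'] at ha ⊢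
    refine Submodule.mul_induction_on ha ?_ ?_
    · intro x hx y hy
      have e : (1 : L) ⊗ₜ[W.K] (x * y) = ((1 : L) ⊗ₜ[W.K] x) * ((1 : L) ⊗ₜ[W.K] y) := by
        rw [Algebra.TensorProduct.tmul_mul_tmul, one_mul]
      rw [e]
      exact Submodule.mul_mem_mul (Submodule.tmul_mem_baseChange_of_mem _ hx) (ih hy)
    · intro x y hx hy
      rw [TensorProduct.tmul_add]
      exact Submodule.add_mem _ hx hy

lemma abelianLike_base (hA : IsAbelianLike W A m) : IsAbelianLike (baseW W L) A m := by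
  constructor
  · intro (x : L ⊗[W.K] W.H A) hx
    have hx' : x ∈ (W.gr A 1).baseChange L := hx
    refine base_induction (P := fun x : L ⊗[W.K] W.H A => (baseW W L).map m x =
      (baseW W L).map (fst A A) x + (baseW W L).map (snd A A) x) ?_ ?_ ?_ hx'
    · have h0 : ∀ g : A.prod A ⟶ A, (baseW W L).map g (0 : L ⊗[W.K] W.H A) = 0 :=
        fun g => map_zero _
      rw [h0, h0, h0, add_zero]
    · intro x y h1 h2
      have h0 : ∀ g : A.prod A ⟶ A, (baseW W L).map g (x + y : L ⊗[W.K] W.H A) =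
        (baseW W L).map g x + (baseW W L).map g y := fun g => map_add _ _ _
      rw [h0, h0, h0, h1, h2]
      abel
    · intro l a ha
      have h0 : ∀ g : A.prod A ⟶ A, (baseW W L).map g (l ⊗ₜ[W.K] a : L ⊗[W.K] W.H A) =
        (l ⊗ₜ[W.K] (W.map g a) : L ⊗[W.K] W.H (A.prod A)) := fun g => by
          change Algebra.TensorProduct.map (AlgHom.id L L) (W.map g) (l ⊗ₜ[W.K] a) = _
          rw [Algebra.TensorProduct.map_tmul]
          rfl
      rw [h0, h0, h0, hA.add a ha]
      exact TensorProduct.tmul_add _ _ _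
  · intro i (x : L ⊗[W.K] W.H A) hx
    have hx' : x ∈ (W.gr A i).baseChange L := hx
    have h1 : (W.gr A i).baseChange L ≤ ((W.gr A 1).baseChange L) ^ i := by
      rw [Submodule.baseChange_eq_span, Submodule.span_le]
      rintro _ ⟨a, ha, rfl⟩
      exact pow_baseChange' (hA.gen i ha)
    exact h1 hx'

end Ab

section Eig

variable {T : HodgeTheory ops} {X Y A : 𝒱.Obj} {m : A.prod A ⟶ A} {f : A ⟶ A}

/-- The map from the extension of `H^1(A)` to the cohomology with complex coefficients. -/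
noncomputable def jj (T : HodgeTheory ops) (A : 𝒱.Obj) :
    ℂ ⊗[T.W.K] (T.W.gr A 1) →ₗ[ℂ] ℂ ⊗[T.W.K] T.W.H A :=
  (T.W.gr A 1).subtype.baseChange ℂ

lemma jj_inj : Function.Injective (jj T A) :=
  Module.Flat.lTensor_preserves_injective_linearMap (M := ℂ) (T.W.gr A 1).subtype
    (Submodule.subtype_injective _)

lemma jj_mem (x : ℂ ⊗[T.W.K] (T.W.gr A 1)) : jj T A x ∈ (T.W.gr A 1).baseChange ℂ := by
  induction x using TensorProduct.induction_on with
  | zero => rw [map_zero]; exact Submodule.zero_mem _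
  | add x y hx hy => rw [map_add]; exact Submodule.add_mem _ hx hy
  | tmul l a =>
    rw [jj, LinearMap.baseChange_tmul]
    exact Submodule.tmul_mem_baseChange_of_mem _ a.2

lemma jj_map (x : ℂ ⊗[T.W.K] (T.W.gr A 1)) :
    (VC T).map f (jj T A x) = jj T A ((endOne T f).baseChange ℂ x) := by
  induction x using TensorProduct.induction_on with
  | zero =>
    rw [map_zero, map_zero, map_zero]
    exact map_zero _
  | add x y hx hy =>
    have h0 : (VC T).map f (jj T A x + jj T A y : ℂ ⊗[T.W.K] T.W.H A) =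
      (VC T).map f (jj T A x) + (VC T).map f (jj T A y) := map_add _ _ _
    rw [map_add, map_add, map_add, h0, hx, hy]
    rfl
  | tmul l a =>
    rw [jj, LinearMap.baseChange_tmul, LinearMap.baseChange_tmul, LinearMap.baseChange_tmul]
    change Algebra.TensorProduct.map (AlgHom.id ℂ ℂ) (T.W.map f) (l ⊗ₜ[T.W.K] _) = _
    rw [Algebra.TensorProduct.map_tmul]
    rfl

/-- The index set: the eigenvalues. -/
abbrev Idx (T : HodgeTheory ops) (f : A ⟶ A) : Type := {z : ℂ // z ∈ eigs T f}

lemma mem_eigs (z : ℂ) : z ∈ eigs T f ↔ Polynomial.aeval z (charOne T f) = 0 := by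
  rw [eigs, Multiset.mem_toFinset, Polynomial.mem_aroots]
  constructor
  · exact fun h => h.2
  · exact fun h => ⟨(LinearMap.charpoly_monic _).ne_zero, h⟩

/-- **The system of eigenvectors.** -/
theorem exists_eig (hA : IsAbelianHodge T A m) (hf : Squarefree (charOne T f)) :
    ∃ E : Eig (VC T) A m f (Idx T f), (∀ l, E.mu l = l.1) ∧ (∀ l, E.u l ≠ 0) ∧
      Fintype.card (Idx T f) = 2 * A.dim := by
  classical
  obtain ⟨v, μ, hμ, hv⟩ := R940.exists_eigbasis (K := T.W.K) (L := ℂ) (f := endOne T f) hf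
    (IsAlgClosed.splits _)
  have h1 : ∀ l, μ l ∈ eigs T f := by
    intro l
    have h2 : Module.End.HasEigenvalue ((endOne T f).baseChange ℂ) (μ l) :=
      Module.End.hasEigenvalue_of_hasEigenvector
        (Module.End.hasEigenvector_iff.2 ⟨Module.End.mem_eigenspace_iff.2 (hv l), v.ne_zero l⟩)
    rw [Module.End.hasEigenvalue_iff_isRoot_charpoly, LinearMap.charpoly_baseChange] at h2
    rw [mem_eigs, Polynomial.aeval_def, ← Polynomial.eval_map]
    exact h2
  have h2 : Finset.univ.image μ = eigs T f := by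
    apply Finset.eq_of_subset_of_card_le
    · intro z hz
      obtain ⟨l, _, rfl⟩ := Finset.mem_image.1 hz
      exact h1 l
    · rw [Finset.card_image_of_injective _ hμ, Finset.card_univ, Fintype.card_fin]
      refine (Multiset.toFinset_card_le _).trans ?_
      refine (Polynomial.card_roots' _).trans ?_
      refine Polynomial.natDegree_map_le.trans ?_
      rw [charOne, LinearMap.charpoly_natDegree]
  have h3 : ∀ z : Idx T f, ∃ l, μ l = z.1 := by
    intro z
    have h4 : (z : ℂ) ∈ Finset.univ.image μ := by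
      rw [h2]
      exact z.2
    obtain ⟨l, _, hl⟩ := Finset.mem_image.1 h4
    exact ⟨l, hl⟩
  choose e he using h3
  have h4 : ∀ l, e ⟨μ l, h1 l⟩ = l := fun l => hμ (he _)
  refine ⟨{
    u := fun z => jj T A (v (e z))
    mu := fun z => z.1
    mem := fun z => jj_mem _
    span := ?_
    inj := Subtype.val_injective
    eig := fun z => ?_
    ab := abelianLike_base hA.abelianLike }, fun _ => rfl, fun z => ?_, ?_⟩
  · intro x hx
    have hx' : x ∈ (T.W.gr A 1).baseChange ℂ := hx
    rw [Submodule.baseChange_eq_span] at hx'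
    have h5 : Submodule.span ℂ (((T.W.gr A 1).map (TensorProduct.mk T.W.K ℂ (T.W.H A) 1) :
        Submodule T.W.K (ℂ ⊗[T.W.K] T.W.H A)) : Set (ℂ ⊗[T.W.K] T.W.H A)) ≤
        Submodule.span ℂ (Set.range fun z : Idx T f => jj T A (v (e z))) := by
      rw [Submodule.span_le]
      rintro _ ⟨a, ha, rfl⟩
      have h6 : (TensorProduct.mk T.W.K ℂ (T.W.H A) 1) a =
          jj T A ((1 : ℂ) ⊗ₜ[T.W.K] (⟨a, ha⟩ : T.W.gr A 1)) := by
        rw [jj, LinearMap.baseChange_tmul]
        rfl
      rw [SetLike.mem_coe, h6, ← v.sum_repr ((1 : ℂ) ⊗ₜ[T.W.K] (⟨a, ha⟩ : T.W.gr A 1)), map_sum]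
      refine Submodule.sum_mem _ fun l _ => ?_
      rw [map_smul]
      apply Submodule.smul_mem
      apply Submodule.subset_span
      exact ⟨⟨μ l, h1 l⟩, by beta_reduce; rw [h4]⟩
    exact h5 hx'
  · have h5 : (VC T).map f (jj T A (v (e z))) = jj T A ((endOne T f).baseChange ℂ (v (e z))) :=
      jj_map _
    rw [h5, hv, he, map_smul]
    rfl
  · intro h5
    have h6 : jj T A (v (e z)) = 0 := h5
    rw [map_eq_zero_iff _ jj_inj] at h6
    exact v.ne_zero _ h6
  · rw [Fintype.card_coe, ← h2, Finset.card_image_of_injective _ hμ, Finset.card_univ,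
      Fintype.card_fin, hA.betti]

end Eig

end Pool.Agent.Helper70Rk
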