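import Pool.Agent.Helper70_rk1.Sys

/-!
# The types of the eigenvectors and of the words
-/

open CategoryTheory AlgebraicGeometry TensorProduct

universe u v

namespace Pool.Agent.Helper70Rk

set_option linter.unusedSectionVars false
set_option linter.unusedVariables false

open Pool.Agent.H914 Pool.Agent.H914.VarClass Pool.Agent.H914.VarClass.Obj
  Pool.Agent.H914.WeilCohomology Pool.Agent.Y121.AHS Pool.Agent.R908 Module

variable {k : Type u} [Field k] {𝒱 : VarClass k} {ops : CycleOps 𝒱}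

section Kunneth

variable {V : WeilCohomology.{u, v} ops} {X Y : 𝒱.Obj}

/-- External products of nonzero classes are nonzero. -/
lemma ext_ne {a : V.H X} {b : V.H Y} (ha : a ≠ 0) (hb : b ≠ 0) :
    V.map (fst X Y) a * V.map (snd X Y) b ≠ 0 := by
  intro h
  have h1 : kunnethMap (V.map (fst X Y)) (V.map (snd X Y)) (a ⊗ₜ[V.K] b) = 0 := h
  rw [map_eq_zero_iff _ (V.kunneth X Y).1] at h1
  obtain ⟨φ, hφ⟩ := Module.Projective.exists_dual_eq_one V.K ha
  have h2 := congrArg (fun t => TensorProduct.lid V.K (V.H Y) (LinearMap.rTensor (V.H Y) φ t)) h1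
  simp only [LinearMap.rTensor_tmul, hφ, TensorProduct.lid_tmul, one_smul, map_zero] at h2
  exact hb h2

end Kunneth

variable {T : HodgeTheory ops} {X Y A : 𝒱.Obj} {m : A.prod A ⟶ A} {f : A ⟶ A}

lemma galC_eigs (τ : ℂ ≃+* ℂ) {z : ℂ} (hz : z ∈ eigs T f) : τ z ∈ eigs T f := by
  rw [mem_eigs] at hz ⊢
  have h1 : Polynomial.aeval (galC T τ z) (charOne T f) = galC T τ (Polynomial.aeval z (charOne T f)) :=
    Polynomial.aeval_algHom_apply (galC T τ) z (charOne T f)
  rw [hz, map_zero] at h1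
  exact h1

/-- The permutation of the eigenvalues. -/
noncomputable def permOf (T : HodgeTheory ops) (f : A ⟶ A) (τ : ℂ ≃+* ℂ) :
    Equiv.Perm (Idx T f) where
  toFun z := ⟨τ z.1, galC_eigs τ z.2⟩
  invFun z := ⟨τ.symm z.1, galC_eigs τ.symm z.2⟩
  left_inv z := Subtype.ext (τ.symm_apply_apply _)
  right_inv z := Subtype.ext (τ.apply_symm_apply _)

variable {E : Eig (VC T) A m f (Idx T f)}

lemma isPermOf (hmu : ∀ l, E.mu l = l.1) (τ : ℂ ≃+* ℂ) : IsPermOf (sC T τ) E (permOf T f τ) := by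
  intro l
  rw [hmu, hmu]
  rfl

section Typ

variable (hA : IsAbelianHodge T A m) (hmu : ∀ l, E.mu l = l.1) (hne : ∀ l, E.u l ≠ 0)

include hA in
lemma tp_gr {p q : ℤ} (hpq : (p = 1 ∧ q = 0) ∨ (p = 0 ∧ q = 1)) {x : (VC T).H A}
    (hx : x ∈ tp T A p q) : x ∈ (VC T).gr A 1 := by
  have h1 : T.pq A 1 0 ⊔ T.pq A 0 1 ≤ grL T.W ℂ A 1 := hA.types.ge
  rcases hpq with ⟨rfl, rfl⟩ | ⟨rfl, rfl⟩
  · exact h1 (Submodule.mem_sup_left hx)
  · exact h1 (Submodule.mem_sup_right hx)

include hA hmu hne in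
/-- An eigenvector which is homogeneous. -/
lemma tp_of_eig {p q : ℤ} (hpq : (p = 1 ∧ q = 0) ∨ (p = 0 ∧ q = 1)) {x : (VC T).H A}
    (hx : x ∈ tp T A p q) (h0 : x ≠ 0) {l : Idx T f}
    (h : (VC T).map f x = (show (VC T).K from l.1) • x) : E.u l ∈ tp T A p q := by
  obtain ⟨l', hl', s, hs, e⟩ := eig_unique E (tp_gr hA hpq hx) h0 h
  rw [hmu] at hl'
  have h1 : l' = l := Subtype.ext hl'
  subst h1
  have h2 : E.u l' = s⁻¹ • x := by
    rw [e, smul_smul, inv_mul_cancel₀ hs, one_smul]
  rw [h2]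
  exact Submodule.smul_mem _ _ hx

include hA hmu hne in
/-- The eigenvectors are homogeneous. -/
lemma tp_or (l : Idx T f) : E.u l ∈ tp T A 1 0 ∨ E.u l ∈ tp T A 0 1 := by
  have h1 : (show HL T.W ℂ A from E.u l) ∈ T.pq A 1 0 ⊔ T.pq A 0 1 := by
    rw [← hA.types]
    exact E.mem l
  obtain ⟨a, ha, b, hb, hab⟩ := Submodule.mem_sup.1 h1
  have ha' : (show (VC T).H A from a) ∈ tp T A 1 0 := ha
  have hb' : (show (VC T).H A from b) ∈ tp T A 0 1 := hb
  have hab' : (show (VC T).H A from a) + (show (VC T).H A from b) = E.u l := hab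
  generalize (show (VC T).H A from a) = a at *
  generalize (show (VC T).H A from b) = b at *
  have h2 := E.eig l
  rw [hmu, ← hab', map_add, smul_add] at h2
  have h3 : (VC T).map f a - (show (VC T).K from l.1) • a =
      (show (VC T).K from l.1) • b - (VC T).map f b := by
    rw [sub_eq_sub_iff_add_eq_add, h2]
    abel
  have h4 : (VC T).map f a - (show (VC T).K from l.1) • a ∈ tp T A 1 0 :=
    Submodule.sub_mem _ (tp_map f ha') (Submodule.smul_mem _ _ ha')
  have h5 : (VC T).map f a - (show (VC T).K from l.1) • a ∈ tp T A 0 1 := by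
    rw [h3]
    exact Submodule.sub_mem _ (Submodule.smul_mem _ _ hb') (tp_map f hb')
  have h6 := tp_disj h4 h5 (by simp)
  by_cases h0 : a = 0
  · right
    rw [← hab', h0, zero_add]
    exact hb'
  · left
    exact tp_of_eig hA hmu hne (Or.inl ⟨rfl, rfl⟩) ha' h0 (sub_eq_zero.1 h6)

include hA hmu hne in
lemma holo_iff (l : Idx T f) : l.1 ∈ holo T f ↔ E.u l ∈ tp T A 1 0 := by
  constructor
  · rintro ⟨x, hx, h0, h⟩
    have h1 : (VC T).map f (show (VC T).H A from x) = (show (VC T).K from l.1) •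
        (show (VC T).H A from x) := (mapL_eq f x).trans h
    exact tp_of_eig hA hmu hne (Or.inl ⟨rfl, rfl⟩) hx h0 h1
  · intro h
    refine ⟨E.u l, h, hne l, ?_⟩
    have h1 := E.eig l
    rw [hmu] at h1
    exact (mapL_eq f (E.u l)).symm.trans h1

include hA hmu hne in
lemma not_holo_iff (l : Idx T f) : l.1 ∉ holo T f ↔ E.u l ∈ tp T A 0 1 := by
  rw [holo_iff hA hmu hne]
  constructor
  · intro h
    exact (tp_or hA hmu hne l).resolve_left h
  · intro h h'
    exact hne l (tp_disj h' h (by simp))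

/-- The complex conjugate of an eigenvalue. -/
noncomputable def kap (T : HodgeTheory ops) (f : A ⟶ A) : Equiv.Perm (Idx T f) := permOf T f cc

lemma kap_val (l : Idx T f) : (kap T f l).1 = starRingEnd ℂ l.1 := rfl

lemma kap_kap (l : Idx T f) : kap T f (kap T f l) = l :=
  Subtype.ext (Complex.conj_conj l.1)

include hmu hne in
lemma kap_u (l : Idx T f) : ∃ s : (VC T).K, s ≠ 0 ∧
    (sC T cc).σ A (E.u l) = s • E.u (kap T f l) := (isPermOf hmu cc).exists hne l

include hA in
lemma conj_tp {p q : ℤ} (hpq : p + q = 1) {x : (VC T).H A} (hx : x ∈ tp T A p q) :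
    (sC T cc).σ A x ∈ tp T A q p := hA.conj p q x _ hpq hx (isConj_cc T x)

include hA hmu hne in
lemma kap_holo (l : Idx T f) : (kap T f l).1 ∈ holo T f ↔ l.1 ∉ holo T f := by
  obtain ⟨s, hs, e⟩ := kap_u hmu hne l
  have h1 : E.u (kap T f l) = s⁻¹ • (sC T cc).σ A (E.u l) := by
    rw [e, smul_smul, inv_mul_cancel₀ hs, one_smul]
  constructor
  · intro h2 h3
    rw [holo_iff hA hmu hne] at h2 h3
    have h4 : E.u (kap T f l) ∈ tp T A 0 1 := by
      rw [h1]
      exact Submodule.smul_mem _ _ (conj_tp hA (by norm_num) h3)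
    exact hne _ (tp_disj h2 h4 (by simp))
  · intro h2
    rw [not_holo_iff hA hmu hne] at h2
    rw [holo_iff hA hmu hne, h1]
    exact Submodule.smul_mem _ _ (conj_tp hA (by norm_num) h2)

end Typ

section Word

variable (hA : IsAbelianHodge T A m) (hmu : ∀ l, E.mu l = l.1) (hne : ∀ l, E.u l ≠ 0)
  [DecidablePred fun l : Idx T f => l.1 ∈ holo T f]

include hA hmu hne in
lemma tp_letter (l : Idx T f) : E.u l ∈ tp T A (if l.1 ∈ holo T f then (1 : ℤ) else 0)
    (if l.1 ∈ holo T f then (0 : ℤ) else 1) := by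
  by_cases h : l.1 ∈ holo T f
  · rw [if_pos h, if_pos h]
    exact (holo_iff hA hmu hne l).1 h
  · rw [if_neg h, if_neg h]
    exact (not_holo_iff hA hmu hne l).1 h

include hA hmu hne in
/-- There are nonzero words of all types. -/
lemma exists_word : ∀ ls : List (Idx T f), ls ≠ [] → ∃ (Z : 𝒱.Obj) (L : List ((Z ⟶ A) × Idx T f)),
    L.map Prod.snd = ls ∧ (L.map fun b => (VC T).map b.1 (E.u b.2)).prod ≠ 0 ∧
    (L.map fun b => (VC T).map b.1 (E.u b.2)).prod ∈
      tp T Z (ls.map fun l => if l.1 ∈ holo T f then (1 : ℤ) else 0).sum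
        (ls.map fun l => if l.1 ∈ holo T f then (0 : ℤ) else 1).sum
  | [], h => absurd rfl h
  | [l], _ => by
    have e1 : (([(𝟙 A, l)] : List ((A ⟶ A) × Idx T f)).map
        fun b => (VC T).map b.1 (E.u b.2)).prod = E.u l := by
      rw [List.map_singleton, List.prod_singleton]
      exact (VC T).map_id A _
    refine ⟨A, [(𝟙 A, l)], rfl, ?_, ?_⟩
    · rw [e1]
      exact hne l
    · rw [e1, List.map_singleton, List.sum_singleton, List.map_singleton, List.sum_singleton]
      exact tp_letter hA hmu hne l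
  | l :: l' :: ls, _ => by
    obtain ⟨Z, L, h1, h2, h3⟩ := exists_word (l' :: ls) (List.cons_ne_nil _ _)
    have h4 : (((fst A Z, l) :: L.map fun b => (snd A Z ≫ b.1, b.2)).map
        fun b => (VC T).map b.1 (E.u b.2)).prod = (VC T).map (fst A Z) (E.u l) *
          (VC T).map (snd A Z) (L.map fun b => (VC T).map b.1 (E.u b.2)).prod := by
      rw [List.map_cons, List.prod_cons, List.map_map, map_list_prod, List.map_map]
      congr 2
      apply List.map_congr_left
      intro b _
      rw [Function.comp_apply, Function.comp_apply, (VC T).map_comp]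
    refine ⟨A.prod Z, (fst A Z, l) :: L.map fun b => (snd A Z ≫ b.1, b.2), ?_, ?_, ?_⟩
    · rw [List.map_cons, List.map_map, ← h1]
      rfl
    · rw [h4]
      exact ext_ne (hne l) h2
    · rw [h4, List.map_cons, List.sum_cons, List.map_cons, List.sum_cons]
      exact tp_mul (tp_map _ (tp_letter hA hmu hne l)) (tp_map _ h3)

include hA hmu hne in
/-- The universally algebraic types satisfy the Hodge condition. -/
theorem ua_hodge {s : Multiset (Idx T f)} (h : UA E s) :
    (s.map fun l => if l.1 ∈ holo T f then (1 : ℤ) else -1).sum = 0 := by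
  induction s using Quotient.inductionOn with | _ ls =>
  rcases eq_or_ne ls [] with rfl | hls
  · rfl
  obtain ⟨Z, L, h1, h2, h3⟩ := exists_word hA hmu hne ls hls
  have h4 := alg_tp (h Z L (by rw [h1]; rfl)) h2 h3
  have h5 : (ls.map fun l => if l.1 ∈ holo T f then (1 : ℤ) else -1).sum =
      (ls.map fun l => if l.1 ∈ holo T f then (1 : ℤ) else 0).sum -
        (ls.map fun l => if l.1 ∈ holo T f then (0 : ℤ) else 1).sum := by
    clear h h1 h2 h3 h4 hls
    induction ls with
    | nil => rfl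
    | cons l ls ih =>
      rw [List.map_cons, List.map_cons, List.map_cons, List.sum_cons, List.sum_cons,
        List.sum_cons, ih]
      by_cases h : l.1 ∈ holo T f
      · rw [if_pos h, if_pos h, if_pos h]; ring
      · rw [if_neg h, if_neg h, if_neg h]; ring
  have h6 : (ls.map fun l => if l.1 ∈ holo T f then (1 : ℤ) else -1).sum = 0 := by
    rw [h5, h4, sub_self]
  exact h6

end Word

end Pool.Agent.Helper70Rk
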